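import Pool.Agent.Lib.MP_234305_co.V33.Defs

/-! Calculus of extensions and the potential gate. -/

open Finset Relation
open scoped Classical

namespace Pool.Agent.Lib.MP_234305_co.V33

variable {E : Type} {s s' t : ℕ} {A A' B B' C : Set (Fn E)} {M : Submodule ℝ (Fn E)}

theorem Can.mono (h : Can s M) (hs : s ≤ s') : Can s' M := by
  obtain ⟨h0, I, L, τ, h1, h2⟩ := h
  exact ⟨h0, I, L, τ, h1.trans hs, h2⟩

theorem Ext.mono (h : Ext s A B) (hs : s ≤ s') (hA : A ⊆ A') (hB : B' ⊆ B) : Ext s' A' B' := by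
  intro t M h1 h2
  obtain ⟨M', a, b, c⟩ := h t M (hA.trans h1) h2
  exact ⟨M', a, hB.trans b, c.mono (by omega)⟩

theorem Ext.of_mem (h : ∀ M : Submodule ℝ (Fn E), A ⊆ M → (∀ e, (fun x => x e) ∈ M) → B ⊆ M) :
    Ext s A B := fun _ M h1 h2 => ⟨M, le_rfl, h M h1 h2.1, h2.mono (by omega)⟩

theorem Ext.trans (h : Ext s A B) (h' : Ext s' (A ∪ B) C) : Ext (s + s') A C := by
  intro t M h1 h2
  obtain ⟨M1, a, b, c⟩ := h t M h1 h2
  obtain ⟨M2, a', b', c'⟩ := h' _ M1 (Set.union_subset (h1.trans a) b) c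
  exact ⟨M2, a.trans a', b', c'.mono (by omega)⟩

theorem Ext.union (h : Ext s A B) (h' : Ext s' A C) : Ext (s + s') A (B ∪ C) := by
  intro t M h1 h2
  obtain ⟨M1, a, b, c⟩ := h t M h1 h2
  obtain ⟨M2, a', b', c'⟩ := h' _ M1 (h1.trans a) c
  exact ⟨M2, a.trans a', Set.union_subset (b.trans a') b', c'.mono (by omega)⟩

theorem Ext.many {ι : Type} (T : Finset ι) (B : ι → Set (Fn E)) (h : ∀ i ∈ T, Ext s A (B i)) :
    Ext (T.card * s) A {g | ∃ i ∈ T, g ∈ B i} := by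
  induction T using Finset.induction_on with
  | empty => exact Ext.of_mem fun M _ _ g hg => by simp at hg
  | insert a T ha ih =>
    refine ((h a (by simp)).union (ih fun i hi => h i (by simp [hi]))).mono ?_ le_rfl ?_
    · rw [card_insert_of_notMem ha]; ring_nf; rfl
    · rintro g ⟨i, hi, hg⟩
      rcases mem_insert.1 hi with rfl | hi
      exacts [Or.inl hg, Or.inr ⟨i, hi, hg⟩]

section up

variable {I : Type} {L : List (Form E I)} {τ : (E → ℝ) → I → ℝ} {φ ψ : Form E I}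

theorem Up.add (h : Up L τ φ) (h' : Up L τ ψ) : Up L τ (φ + ψ) := fun x y hy =>
  add_le_add (h x y hy) (h' x y hy)

theorem Up.smul (h : Up L τ φ) {c : ℝ} (hc : 0 ≤ c) : Up L τ (c • φ) := fun x y hy =>
  mul_le_mul_of_nonneg_left (h x y hy) hc

theorem Up.zero : Up L τ 0 := fun _ _ _ => le_rfl

/-- The functions that a given system represents. -/
def rep (L : List (Form E I)) (τ : (E → ℝ) → I → ℝ) : Submodule ℝ (Fn E) where
  carrier := {f | ∃ φ ψ : Form E I, Up L τ φ ∧ Up L τ ψ ∧ ∀ x, f x = φ (x, τ x) - ψ (x, τ x)}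
  zero_mem' := ⟨0, 0, Up.zero, Up.zero, fun x => by simp⟩
  add_mem' := by
    rintro f g ⟨a, b, h1, h2, h3⟩ ⟨c, d, h4, h5, h6⟩
    exact ⟨a + c, b + d, h1.add h4, h2.add h5, fun x => by simp [h3, h6]; ring⟩
  smul_mem' := by
    rintro c f ⟨a, b, h1, h2, h3⟩
    rcases le_total 0 c with hc | hc
    · exact ⟨c • a, c • b, h1.smul hc, h2.smul hc, fun x => by simp [h3]; ring⟩
    · exact ⟨(-c) • b, (-c) • a, h2.smul (by linarith), h1.smul (by linarith),
        fun x => by simp [h3]; ring⟩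

theorem coord_rep (e : E) : (fun x => x e) ∈ rep L τ :=
  ⟨LinearMap.proj e ∘ₗ LinearMap.fst ℝ _ _, 0, fun _ _ _ => le_rfl, Up.zero, fun x => by simp⟩

end up

theorem can_zero : ∃ M : Submodule ℝ (Fn E), Can 0 M :=
  ⟨rep (I := Empty) [] fun _ _ => 0, coord_rep, Empty, [], _, le_rfl, by simp, fun _ h => h⟩

/-- Walks from the root with at most `j` arcs of `T`. -/
def Wk {N α : Type} (T : Set (Option N × N × α)) : ℕ → N → Prop
  | 0, _ => False
  | j + 1, v => Wk T j v ∨ ∃ c ∈ T, c.2.1 = v ∧ ∀ u, c.1 = some u → Wk T j u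

theorem Wk.mono {N α : Type} {T : Set (Option N × N × α)} {j k : ℕ} {v : N} (h : Wk T j v)
    (hk : j ≤ k) : Wk T k v := by
  induction hk with
  | refl => exact h
  | step _ ih => exact Or.inl ih

theorem exists_bound {N α : Type} (T : Finset (Option N × N × α)) :
    ∃ Λ, ∀ D : Finset (Option N × N × α), D ⊆ T → ∀ v j,
      Wk (↑D : Set (Option N × N × α)) j v → Wk (↑D : Set (Option N × N × α)) Λ v := by
  have h : ∀ (D : Finset (Option N × N × α)) (v : N), ∃ j0, ∀ j,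
      Wk (↑D : Set (Option N × N × α)) j v → Wk (↑D : Set (Option N × N × α)) j0 v := fun D v => by
    by_cases h : ∃ j, Wk (↑D : Set (Option N × N × α)) j v
    · obtain ⟨j, hj⟩ := h; exact ⟨j, fun _ _ => hj⟩
    · exact ⟨0, fun j hj => (h ⟨j, hj⟩).elim⟩
  choose g hg using h
  refine ⟨(T.powerset ×ˢ T).sup fun p => g p.1 p.2.2.1, fun D hD v j hj => ?_⟩
  have hv : ∃ c ∈ T, c.2.1 = v := by
    induction j with
    | zero => exact hj.elim
    | succ j ih =>
      rcases hj with hj | ⟨c, hc, h1, -⟩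
      exacts [ih hj, ⟨c, hD hc, h1⟩]
  obtain ⟨c, hc, rfl⟩ := hv
  exact (hg D _ j hj).mono
    (le_sup (f := fun p : Finset _ × _ => g p.1 p.2.2.1) (b := (D, c)) (by simp [hD, hc]))

/-- The potential gate: arcs `(a, b, l)` give the inequalities `π b ≤ π a + l`. -/
theorem gate {N : Type} (T : Finset (Option N × N × Fn E)) (pot : (E → ℝ) → N → ℝ) (O : Set N)
    (feas : ∀ x, ∀ c ∈ T, pot x c.2.1 ≤ c.1.elim 0 (pot x) + c.2.2 x)
    (tight : ∀ x, ∀ v ∈ O, ReflTransGen (fun a b : Option N => ∃ c ∈ T, c.1 = a ∧ some c.2.1 = b ∧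
      pot x c.2.1 = c.1.elim 0 (pot x) + c.2.2 x) none (some v)) :
    Ext T.card {l | ∃ c ∈ T, l = c.2.2} {g | ∃ v ∈ O, g = fun x => pot x v} := by
  rintro t M hA ⟨h0, I, L, τ, h1, h2, h3⟩
  have h4 : ∀ c : Option N × N × Fn E, ∃ φ ψ : Form E I, Up L τ φ ∧ Up L τ ψ ∧
      (c ∈ T → ∀ x, c.2.2 x = φ (x, τ x) - ψ (x, τ x)) := fun c => by
    by_cases hc : c ∈ T
    · obtain ⟨a, b, u, v, w⟩ := h3 _ (hA ⟨c, hc, rfl⟩)
      exact ⟨a, b, u, v, fun _ => w⟩
    · exact ⟨0, 0, Up.zero, Up.zero, fun h => (hc h).elim⟩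
  choose p q hp hq hpq using h4
  obtain ⟨Λ, hΛ⟩ := exists_bound T
  let ρ : ((E → ℝ) × (I ⊕ N → ℝ)) →ₗ[ℝ] ((E → ℝ) × (I → ℝ)) :=
    LinearMap.prodMap LinearMap.id (LinearMap.funLeft ℝ ℝ Sum.inl)
  let ν : N → Form E (I ⊕ N) := fun v => LinearMap.proj (Sum.inr v) ∘ₗ LinearMap.snd ℝ _ _
  let a : Option N × N × Fn E → Form E (I ⊕ N) := fun c =>
    ν c.2.1 - c.1.elim 0 ν - (p c - q c) ∘ₗ ρ
  let L' : List (Form E (I ⊕ N)) := L.map (· ∘ₗ ρ) ++ T.toList.map a
  let τ' : (E → ℝ) → I ⊕ N → ℝ := fun x => Sum.elim (τ x) (pot x)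
  have ha : ∀ c x y, a c (x, y) = y (Sum.inr c.2.1) - c.1.elim 0 (fun u => y (Sum.inr u)) -
      (p c (x, y ∘ Sum.inl) - q c (x, y ∘ Sum.inl)) := fun c x y => by
    obtain ⟨_ | u, c⟩ := c <;> rfl
  have hL : ∀ x y, (∀ b ∈ L', b (x, y) ≤ 0) ↔
      (∀ b ∈ L, b (x, y ∘ Sum.inl) ≤ 0) ∧ ∀ c ∈ T, a c (x, y) ≤ 0 := fun x y => by
    simp only [L', List.forall_mem_append, List.forall_mem_map, mem_toList]
    rfl
  have hup : ∀ φ, Up L τ φ → Up L' τ' (φ ∘ₗ ρ) := fun φ h x y hy => h x _ ((hL x y).1 hy).1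
  refine ⟨rep L' τ', fun f hf => ?_, ?_, coord_rep, _, L', τ', by simp [L']; omega,
    fun x => (hL x _).2 ⟨h2 x, fun c hc => ?_⟩, fun _ h => h⟩
  · obtain ⟨φ, ψ, u, v, w⟩ := h3 f hf
    exact ⟨_, _, hup _ u, hup _ v, w⟩
  · rintro _ ⟨v, hv, rfl⟩
    let P : Form E I := ∑ c ∈ T, p c
    have hP : ∀ x y, (∀ b ∈ L, b (x, y) ≤ 0) → ∀ D ⊆ T,
        ∑ c ∈ D, (p c (x, y) - p c (x, τ x)) ≤ P (x, y) - P (x, τ x) := fun x y hy D hD => by
      simp only [P, LinearMap.sum_apply, ← sum_sub_distrib]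
      exact sum_le_sum_of_subset_of_nonneg hD fun c _ _ => sub_nonneg.2 (hp c x y hy)
    have hPu : Up L τ P := fun x y hy => by simpa using hP x y hy ∅ (by simp)
    refine ⟨((Λ : ℝ) • P) ∘ₗ ρ, ((Λ : ℝ) • P) ∘ₗ ρ - ν v, hup _ (hPu.smul (by positivity)),
      fun x y hy => ?_, fun x => by simp [ν, τ']⟩
    obtain ⟨hy1, hy2⟩ := (hL x y).1 hy
    let D := T.filter fun c => pot x c.2.1 = c.1.elim 0 (pot x) + c.2.2 x
    have hw : ∀ b : Option N, ReflTransGen (fun a b : Option N => ∃ c ∈ T, c.1 = a ∧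
        some c.2.1 = b ∧ pot x c.2.1 = c.1.elim 0 (pot x) + c.2.2 x) none b →
        ∃ j, ∀ u, b = some u → Wk (↑D : Set (Option N × N × Fn E)) j u := fun b hb => by
      induction hb with
      | refl => exact ⟨0, by simp⟩
      | tail _ hc ih =>
        obtain ⟨c, hc, rfl, rfl, h⟩ := hc
        obtain ⟨j, hj⟩ := ih
        exact ⟨j + 1, fun u hu => Or.inr ⟨c, by simp [D, hc, h], Option.some.inj hu, hj⟩⟩
    have h6 := sub_nonneg.2 (hPu x _ hy1)
    have key : ∀ j u, Wk (↑D : Set (Option N × N × Fn E)) j u → y (Sum.inr u) - pot x u ≤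
        (j : ℝ) * (P (x, y ∘ Sum.inl) - P (x, τ x)) := fun j => by
      induction j with
      | zero => exact fun u h => h.elim
      | succ j ih =>
        rintro u (h | ⟨c, hc, rfl, h⟩)
        · have := ih u h
          push_cast; linarith
        · obtain ⟨hc, he⟩ := mem_filter.1 hc
          have e1 := hy2 c hc
          have e2 := hP x _ hy1 {c} (by simpa using hc)
          have e3 := hq c x _ hy1
          have e4 : c.1.elim 0 (fun u => y (Sum.inr u)) - c.1.elim 0 (pot x) ≤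
              (j : ℝ) * (P (x, y ∘ Sum.inl) - P (x, τ x)) := by
            obtain ⟨_ | u, c⟩ := c
            · simpa using mul_nonneg (Nat.cast_nonneg j) (by simpa using h6)
            · exact ih u (h u rfl)
          rw [ha] at e1
          rw [sum_singleton] at e2
          rw [hpq c hc] at he
          push_cast; linarith
    obtain ⟨j, hj⟩ := hw _ (tight x v hv)
    have := key Λ v (hΛ D (filter_subset _ _) v j (hj v rfl))
    change (Λ : ℝ) * P (x, τ x) - pot x v ≤ (Λ : ℝ) * P (x, y ∘ Sum.inl) - y (Sum.inr v)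
    linarith
  · have := feas x c hc
    rw [hpq c hc] at this
    rw [ha]
    change pot x c.2.1 - c.1.elim 0 (pot x) - (p c (x, τ x) - q c (x, τ x)) ≤ 0
    linarith

theorem ext_inf (f g : Fn E) : Ext 2 {f, g} {f ⊓ g, f ⊔ g} := by
  have h := gate (N := Unit) {(none, (), f), (none, (), g)} (fun x _ => min (f x) (g x)) Set.univ
    (by simp) (fun x v _ => ReflTransGen.single (by
      rcases le_total (f x) (g x) with h | h <;> simp [h]))
  refine (h.mono card_le_two (A' := {f, g}) (B' := {f ⊓ g}) (by simp [Set.subset_def])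
    (by rintro _ rfl; exact ⟨(), trivial, rfl⟩)).trans (s' := 0) (Ext.of_mem fun M hM _ => ?_)
  have h1 : f ⊓ g ∈ M := hM (by simp)
  rintro _ (rfl | rfl)
  · exact h1
  · have : f ⊔ g = f + g - f ⊓ g := by rw [← inf_add_sup]; simp
    rw [this]
    exact M.sub_mem (M.add_mem (hM (by simp)) (hM (by simp))) h1

end Pool.Agent.Lib.MP_234305_co.V33
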