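import Pool.Agent.Lib.MP_234305_co.V33.Defs

/-! Connectivity classes of a union of two regions glued along their boundaries. -/

open Finset Relation
open scoped Classical

namespace Pool.Agent.Lib.MP_234305_co.V33

namespace Count

variable {n : ℕ} {G G' : Set (Sym2 (Fin n))} {u v w : Fin n}

theorem rc_symm (h : Rc G u v) : Rc G v u := by
  induction h with
  | refl => exact ReflTransGen.refl
  | tail _ h ih => exact ReflTransGen.head (by rwa [Sym2.eq_swap]) ih

theorem rc_mono (hG : G ⊆ G') (h : Rc G u v) : Rc G' u v := by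
  induction h with
  | refl => exact ReflTransGen.refl
  | tail _ h ih => exact ih.tail (hG h)

theorem rc_mem {U : Finset (Fin n)} (hU : ∀ e ∈ G, ∀ v ∈ e, v ∈ U) (hu : u ∈ U) (h : Rc G u v) :
    v ∈ U := by
  induction h with
  | refl => exact hu
  | tail _ h _ => exact hU _ h _ (Sym2.mem_mk_right _ _)

/-- The class of a vertex. -/
noncomputable def cls (G : Set (Sym2 (Fin n))) (v : Fin n) : Finset (Fin n) :=
  univ.filter (Rc G v)

/-- The vertices of `U` whose class misses `W`. -/
noncomputable def fr (U W : Finset (Fin n)) (G : Set (Sym2 (Fin n))) : Finset (Fin n) :=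
  U.filter fun v => ∀ j ∈ W, ¬ Rc G v j

theorem fre_eq (U W : Finset (Fin n)) (G : Set (Sym2 (Fin n))) :
    fre U W G = ((fr U W G).image (cls G)).card := rfl

theorem mem_fr {U W : Finset (Fin n)} : v ∈ fr U W G ↔ v ∈ U ∧ ∀ j ∈ W, ¬ Rc G v j :=
  mem_filter

theorem cls_eq : cls G u = cls G v ↔ Rc G u v := by
  constructor
  · intro h
    have : v ∈ cls G v := mem_filter.2 ⟨mem_univ _, ReflTransGen.refl⟩
    rw [← h] at this
    exact (mem_filter.1 this).2
  · intro h
    ext w
    simp only [cls, mem_filter, mem_univ, true_and]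
    exact ⟨fun h' => (rc_symm h).trans h', fun h' => h.trans h'⟩

theorem lab_le {σ : Fin n → ℕ} {W : Finset (Fin n)} (hw : w ∈ W) (h : Rc G v w) :
    lab σ W G v ≤ σ w := Nat.sInf_le ⟨w, hw, h, rfl⟩

end Count

open _root_.Pool.Agent.Lib.MP_234305_co.V33.Count in
theorem count : CountStmt := by
  intro n F U W hF hW hUW
  have sub : ∀ c, F c ⊆ F true ∪ F false := fun c => by cases c <;> simp
  have edge : ∀ e ∈ F true ∪ F false, ∃ c, e ∈ F c := fun e he =>
    he.elim (fun h => ⟨_, h⟩) fun h => ⟨_, h⟩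
  have side : ∀ j ∈ W true ∪ W false, ∃ c, j ∈ W c := fun j hj =>
    (mem_union.1 hj).elim (fun h => ⟨_, h⟩) fun h => ⟨_, h⟩
  have inW : ∀ c, W c ⊆ W true ∪ W false := fun c => by cases c <;> simp
  have inU : ∀ c, U c ⊆ U true ∪ U false := fun c => by cases c <;> simp
  have both : ∀ c c' v, v ∈ U c → v ∈ U c' → c = c' ∨ (v ∈ W c ∧ v ∈ W c') := by
    intro c c' v h h'
    cases c <;> cases c'
    · exact Or.inl rfl
    · exact Or.inr (mem_inter.1 (hUW (mem_inter.2 ⟨h', h⟩))).symm
    · exact Or.inr (mem_inter.1 (hUW (mem_inter.2 ⟨h, h'⟩)))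
    · exact Or.inl rfl
  have toW : ∀ c, ∀ j ∈ W true ∪ W false, j ∈ U c → j ∈ W c := fun c j hj hc => by
    obtain ⟨c', h'⟩ := side j hj
    rcases both c c' j hc (hW c' h') with rfl | h
    exacts [h', h.1]
  refine ⟨fun i hi j hj h => ?_, fun Z σ hZ hσ hlt => ?_⟩
  · have key : ∀ v, Rc (F true ∪ F false) i v → ∃ c k, k ∈ W c ∧
        ReflTransGen (fun a b => ∃ c, a ∈ W c ∧ b ∈ W c ∧ Rc (F c) a b) i k ∧ Rc (F c) k v := by
      intro v hv
      induction hv with
      | refl =>
        obtain ⟨c, hc⟩ := side i hi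
        exact ⟨c, i, hc, ReflTransGen.refl, ReflTransGen.refl⟩
      | @tail a b _ hab ih =>
        obtain ⟨c, k, hk, h1, h2⟩ := ih
        obtain ⟨c', he⟩ := edge _ hab
        rcases both c c' a (rc_mem (hF c) (hW c hk) h2) (hF c' _ he _ (Sym2.mem_mk_left _ _)) with
          rfl | h3
        · exact ⟨c, k, hk, h1, h2.tail he⟩
        · exact ⟨c', a, h3.2, h1.tail ⟨c, hk, h3.1, h2⟩, ReflTransGen.single he⟩
    obtain ⟨c, k, hk, h1, h2⟩ := key j h
    exact h1.tail ⟨c, hk, toW c j hj (rc_mem (hF c) (hW c hk) h2), h2⟩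
  · have iso : ∀ c, ∀ v ∈ fr (U c) (W c) (F c), ∀ w, Rc (F true ∪ F false) v w → Rc (F c) v w := by
      intro c v hv w hw
      obtain ⟨h1, h2⟩ := mem_fr.1 hv
      induction hw with
      | refl => exact ReflTransGen.refl
      | @tail a b _ hab ih =>
        obtain ⟨c', he⟩ := edge _ hab
        rcases both c c' a (rc_mem (hF c) h1 ih) (hF c' _ he _ (Sym2.mem_mk_left _ _)) with
          rfl | h3
        · exact ih.tail he
        · exact (h2 a h3.1 ih).elim
    have noW : ∀ c, ∀ v ∈ fr (U c) (W c) (F c), ∀ j ∈ W true ∪ W false,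
        ¬ Rc (F true ∪ F false) v j := fun c v hv j hj h =>
      (mem_fr.1 hv).2 j (toW c j hj (rc_mem (hF c) (mem_fr.1 hv).1 (iso c v hv j h)))
        (iso c v hv j h)
    have img : ∀ c, (fr (U c) (W c) (F c)).image (cls (F c)) =
        (fr (U c) (W c) (F c)).image (cls (F true ∪ F false)) := fun c =>
      image_congr fun v hv => by
        ext w
        simp only [cls, mem_filter, mem_univ, true_and]
        exact ⟨rc_mono (sub c), iso c v hv w⟩
    set B := ((W true ∪ W false) \ Z).filter fun v =>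
      lab σ (W true ∪ W false) (F true ∪ F false) v = σ v with hB
    have memB : ∀ v, v ∈ B ↔ (v ∈ W true ∪ W false ∧ v ∉ Z) ∧
        lab σ (W true ∪ W false) (F true ∪ F false) v = σ v := fun v => by
      rw [hB, mem_filter, mem_sdiff]
    have inj : Set.InjOn (cls (F true ∪ F false)) B := fun u hu v hv h => by
      obtain ⟨⟨a1, -⟩, a2⟩ := (memB u).1 hu
      obtain ⟨⟨b1, -⟩, b2⟩ := (memB v).1 hv
      have h1 := cls_eq.1 h
      exact hσ (le_antisymm (a2 ▸ lab_le b1 h1) (b2 ▸ lab_le a1 (rc_symm h1)))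
    have main : (fr (U true ∪ U false) Z (F true ∪ F false)).image (cls (F true ∪ F false)) =
        (fr (U true) (W true) (F true)).image (cls (F true ∪ F false)) ∪
          (fr (U false) (W false) (F false)).image (cls (F true ∪ F false)) ∪
          B.image (cls (F true ∪ F false)) := by
      refine Subset.antisymm ?_ ?_
      · intro K hK
        obtain ⟨v, hv, rfl⟩ := mem_image.1 hK
        obtain ⟨h1, h2⟩ := mem_fr.1 hv
        by_cases h : ((W true ∪ W false).filter (Rc (F true ∪ F false) v)).Nonempty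
        · obtain ⟨j, hj, hmin⟩ := exists_min_image _ σ h
          obtain ⟨j1, j2⟩ := mem_filter.1 hj
          refine mem_union_right _ (mem_image.2 ⟨j, (memB j).2 ⟨⟨j1, fun hz => h2 j hz j2⟩,
            le_antisymm (lab_le j1 ReflTransGen.refl) ?_⟩, (cls_eq.2 j2).symm⟩)
          refine le_csInf ⟨_, j, j1, ReflTransGen.refl, rfl⟩ ?_
          rintro _ ⟨k, k1, k2, rfl⟩
          exact hmin k (mem_filter.2 ⟨k1, j2.trans k2⟩)
        · have h3 : ∀ c, v ∈ U c → v ∈ fr (U c) (W c) (F c) := fun c hc =>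
            mem_fr.2 ⟨hc, fun j hj hr => h ⟨j, mem_filter.2 ⟨inW c hj, rc_mono (sub c) hr⟩⟩⟩
          refine mem_union_left _ ?_
          rcases mem_union.1 h1 with h4 | h4
          · exact mem_union_left _ (mem_image_of_mem _ (h3 _ h4))
          · exact mem_union_right _ (mem_image_of_mem _ (h3 _ h4))
      · have h3 : ∀ c, fr (U c) (W c) (F c) ⊆ fr (U true ∪ U false) Z (F true ∪ F false) :=
          fun c v hv => mem_fr.2 ⟨inU c (mem_fr.1 hv).1, fun j hj => noW c v hv j (hZ hj)⟩
        refine union_subset (union_subset (image_subset_image (h3 _))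
          (image_subset_image (h3 _))) (image_subset_image fun v hv => ?_)
        obtain ⟨⟨a1, a3⟩, a2⟩ := (memB v).1 hv
        obtain ⟨c, hc⟩ := side v a1
        refine mem_fr.2 ⟨inU c (hW c hc), fun j hj hr => ?_⟩
        exact (hlt j hj v a3).not_ge (a2 ▸ lab_le (hZ hj) hr)
    have d1 : Disjoint ((fr (U true) (W true) (F true)).image (cls (F true ∪ F false)))
        ((fr (U false) (W false) (F false)).image (cls (F true ∪ F false))) := by
      refine disjoint_left.2 fun K h1 h2 => ?_
      obtain ⟨u, hu, rfl⟩ := mem_image.1 h1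
      obtain ⟨v, hv, e⟩ := mem_image.1 h2
      have h3 := cls_eq.1 e.symm
      rcases both true false v (rc_mem (hF _) (mem_fr.1 hu).1 (iso _ u hu v h3))
        (mem_fr.1 hv).1 with h | h
      · exact absurd h (by decide)
      · exact noW _ u hu v (inW _ h.1) h3
    have d2 : ∀ c, Disjoint ((fr (U c) (W c) (F c)).image (cls (F true ∪ F false)))
        (B.image (cls (F true ∪ F false))) := fun c => by
      refine disjoint_left.2 fun K h1 h2 => ?_
      obtain ⟨u, hu, rfl⟩ := mem_image.1 h1
      obtain ⟨v, hv, e⟩ := mem_image.1 h2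
      exact noW c u hu v ((memB v).1 hv).1.1 (cls_eq.1 e.symm)
    rw [fre_eq, fre_eq, fre_eq, img, img, main,
      card_union_of_disjoint (disjoint_union_left.2 ⟨d2 _, d2 _⟩), card_union_of_disjoint d1,
      card_image_of_injOn inj]

end Pool.Agent.Lib.MP_234305_co.V33
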