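import Pool.Agent.Lib.MP_234305_co.V33.Defs

/-! Cost of the decompositions. -/

open Finset
open scoped Classical

namespace Pool.Agent.Lib.MP_234305_co.V33

namespace DecA

variable {n : ℕ}

theorem base (U : Finset (Fin n)) (F : Finset (Sym2 (Fin n))) (hF : ∀ e ∈ F, ∀ v ∈ e, v ∈ U) :
    Dec F U U (F.card * (U.card + 7) ^ 2) := by
  induction F using Finset.induction_on with
  | empty => simpa using Dec.nil U
  | insert e F he ih =>
    induction e using Sym2.ind with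
    | _ u v =>
    have h1 := ih fun e he => hF e (mem_insert_of_mem he)
    have hs : ({u, v} : Finset (Fin n)) ⊆ U := by
      intro x hx
      refine hF _ (mem_insert_self _ _) x ?_
      simpa using hx
    have h2 := Dec.join (W := U) (Dec.edge u v) h1 (fun _ h => h) subset_union_right
    rw [union_eq_right.2 hs, ← insert_eq] at h2
    refine h2.mono ?_
    have h3 : ({u, v} : Finset (Fin n)).card ≤ 2 := card_le_two
    rw [card_insert_of_notMem he]
    have h4 : (({u, v} : Finset (Fin n)).card + U.card + 4) ^ 2 ≤ (U.card + 6) ^ 2 :=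
      Nat.pow_le_pow_left (by omega) 2
    have h5 : (U.card + 7) ^ 2 = (U.card + 6) ^ 2 + 2 * U.card + 13 := by ring
    rw [add_mul, one_mul]
    omega

theorem restr {F : Finset (Sym2 (Fin n))} {U W W' : Finset (Fin n)} {k : ℕ} (h : Dec F U W k)
    (hW : W' ⊆ W) : Dec F U W' (k + (W.card + 4) ^ 2) := by
  have h2 := Dec.join (W := W') h (Dec.nil ∅) (by simp) (by simpa using hW)
  simpa using h2

theorem ed_mem {G : SimpleGraph (Fin n)} {U : Finset (Fin n)} {e : Sym2 (Fin n)} :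
    e ∈ ed G U ↔ e ∈ G.edgeSet ∧ ∀ v ∈ e, v ∈ U := by
  simp only [ed, mem_filter, mem_univ, true_and]

theorem card_le {A B : Finset (Fin n)} {F : Finset (Sym2 (Fin n))}
    (hF : ∀ e ∈ F, ∃ a ∈ A, ∃ b ∈ B, e = s(a, b)) : F.card ≤ A.card * B.card := by
  rw [← card_product]
  refine (card_le_card (t := (A ×ˢ B).image fun p => s(p.1, p.2)) fun e he => ?_).trans
    card_image_le
  obtain ⟨a, ha, b, hb, rfl⟩ := hF e he
  exact mem_image.2 ⟨(a, b), mem_product.2 ⟨ha, hb⟩, rfl⟩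

theorem ed_pair {G : SimpleGraph (Fin n)} {U : Finset (Fin n)} :
    ∀ e ∈ ed G U, ∃ a ∈ U, ∃ b ∈ U, e = s(a, b) := by
  intro e he
  induction e using Sym2.ind with
  | _ u v =>
  have h := (ed_mem.1 he).2
  exact ⟨u, h u (by simp), v, h v (by simp), rfl⟩

/-- All edge sets between two sets of bounded size have the cost `k`. -/
def Rr (n i j k : ℕ) : Prop := ∀ (A B : Finset (Fin n)) (F : Finset (Sym2 (Fin n))),
  A.card ≤ i → B.card ≤ j → (∀ e ∈ F, ∃ a ∈ A, ∃ b ∈ B, e = s(a, b)) →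
  Dec F (A ∪ B) (A ∪ B) k

theorem Rr.swap {i j k : ℕ} (h : Rr n i j k) : Rr n j i k := by
  intro A B F hA hB hF
  rw [union_comm]
  refine h B A F hB hA fun e he => ?_
  obtain ⟨a, ha, b, hb, rfl⟩ := hF e he
  exact ⟨b, hb, a, ha, Sym2.eq_swap⟩

theorem Rr.split {i j k : ℕ} (h : Rr n i j k) :
    Rr n (2 * i) j (2 * k + (2 * (i + j) + 4) ^ 2) := by
  intro A B F hA hB hF
  obtain ⟨A₁, h1, h2⟩ := exists_subset_card_eq (s := A) (n := min i A.card) (min_le_right _ _)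
  have h3 : (A \ A₁).card ≤ i := by rw [card_sdiff_of_subset h1, h2]; omega
  have h4 : A₁.card ≤ i := by omega
  have d1 := h A₁ B (F.filter fun e => ∃ a ∈ A₁, ∃ b ∈ B, e = s(a, b)) h4 hB
    fun e he => (mem_filter.1 he).2
  have d2 := h (A \ A₁) B (F.filter fun e => ¬ ∃ a ∈ A₁, ∃ b ∈ B, e = s(a, b)) h3 hB
    fun e he => by
      obtain ⟨he1, he2⟩ := mem_filter.1 he
      obtain ⟨a, ha, b, hb, rfl⟩ := hF e he1
      exact ⟨a, mem_sdiff.2 ⟨ha, fun h' => he2 ⟨a, h', b, hb, rfl⟩⟩, b, hb, rfl⟩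
  have e1 : (A₁ ∪ B) ∪ (A \ A₁ ∪ B) = A ∪ B := by
    ext x
    have := @h1 x
    simp only [mem_union, mem_sdiff]
    tauto
  have d3 := Dec.join (W := A ∪ B) d1 d2 (fun _ h => h) (by rw [e1])
  rw [e1, filter_union_filter_not_eq] at d3
  refine d3.mono ?_
  have c1 := card_union_le A₁ B
  have c2 := card_union_le (A \ A₁) B
  have : ((A₁ ∪ B).card + (A \ A₁ ∪ B).card + 4) ^ 2 ≤ (2 * (i + j) + 4) ^ 2 :=
    Nat.pow_le_pow_left (by omega) 2
  omega

theorem Rr.mono {i j k k' : ℕ} (h : Rr n i j k) (hk : k ≤ k') : Rr n i j k' :=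
  fun A B F a b c => (h A B F a b c).mono hk

theorem rr (d : ℕ) : Rr n (2 ^ d) (2 ^ d) (81 * (2 ^ d) ^ 2 * (d + 1)) := by
  induction d with
  | zero =>
    intro A B F hA hB hF
    refine (base (A ∪ B) F fun e he v hv => ?_).mono ?_
    · obtain ⟨a, ha, b, hb, rfl⟩ := hF e he
      rcases Sym2.mem_iff.1 hv with rfl | rfl
      exacts [mem_union_left _ ha, mem_union_right _ hb]
    · have c1 := card_union_le A B
      have c2 := card_le hF
      simp only [pow_zero] at hA hB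
      have c3 : F.card ≤ 1 := c2.trans (by nlinarith)
      have c4 : ((A ∪ B).card + 7) ^ 2 ≤ 9 ^ 2 := Nat.pow_le_pow_left (by omega) 2
      have := Nat.mul_le_mul c3 c4
      simpa using this
  | succ d ih =>
    have h := ih.split.swap.split
    rw [pow_succ 2 d, mul_comm (2 ^ d) 2]
    refine h.mono ?_
    have hx : 1 ≤ 2 ^ d := Nat.one_le_two_pow
    generalize 2 ^ d = x at *
    nlinarith [Nat.mul_le_mul hx hx]

/-- The depth function. -/
def lam (s : ℕ) : ℕ := Nat.log 2 (s ^ 4) + 1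

theorem lam_mono {s t : ℕ} (h : s ≤ t) : lam s ≤ lam t :=
  Nat.succ_le_succ (Nat.log_mono_right (Nat.pow_le_pow_left h 4))

theorem lam_le (s : ℕ) : lam s ≤ 4 * (Nat.log 2 s + 1) := by
  rcases Nat.eq_zero_or_pos s with rfl | hs
  · simp [lam]
  have h1 : s < 2 ^ (Nat.log 2 s + 1) := Nat.lt_pow_succ_log_self (by norm_num) s
  have h2 : s ^ 4 < 2 ^ (4 * (Nat.log 2 s + 1)) := by
    rw [mul_comm, pow_mul]; exact Nat.pow_lt_pow_left h1 (by norm_num)
  exact Nat.log_lt_of_lt_pow (by positivity) h2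

theorem lam_drop {s t : ℕ} (h : 5 * t ≤ 4 * s) : t * (lam t + 1) ≤ t * lam s := by
  rcases Nat.eq_zero_or_pos t with rfl | ht
  · simp
  refine Nat.mul_le_mul_left _ ?_
  have h1 : (5 * t) ^ 4 ≤ (4 * s) ^ 4 := Nat.pow_le_pow_left h 4
  have h2 : t ^ 4 * 2 ≤ s ^ 4 := by rw [mul_pow, mul_pow] at h1; omega
  have h3 := Nat.log_mono_right (b := 2) h2
  rw [Nat.log_mul_base (by norm_num) (by positivity)] at h3
  unfold lam; omega

theorem cube_le (L : ℕ) (h : 10 ≤ L) : L ^ 3 ≤ 2 ^ L := by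
  induction L, h using Nat.le_induction with
  | base => norm_num
  | succ L h ih =>
    have : (L + 1) ^ 3 ≤ 2 * L ^ 3 := by nlinarith [Nat.mul_le_mul h h, Nat.mul_le_mul h (Nat.mul_le_mul h h), Nat.mul_le_mul h (le_refl (L ^ 2))]
    rw [pow_succ 2 L]; omega

theorem lam_small (M : ℕ) : ∃ s₀, ∀ s, s₀ ≤ s → M * lam s ^ 2 ≤ s := by
  refine ⟨2 ^ (64 * M + 10), fun s hs => ?_⟩
  have h0 : s ≠ 0 := by have : 1 ≤ 2 ^ (64 * M + 10) := Nat.one_le_two_pow; omega
  have h1 : 64 * M + 10 ≤ Nat.log 2 s := Nat.le_log_of_pow_le (by norm_num) hs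
  have h2 := Nat.pow_log_le_self 2 h0
  have h3 := cube_le (Nat.log 2 s) (by omega)
  have h4 := lam_le s
  generalize Nat.log 2 s = L at *
  have h5 : lam s ^ 2 ≤ (8 * L) ^ 2 := Nat.pow_le_pow_left (by omega) 2
  calc M * lam s ^ 2 ≤ M * (8 * L) ^ 2 := Nat.mul_le_mul_left _ h5
    _ = (64 * M) * L ^ 2 := by ring
    _ ≤ L * L ^ 2 := Nat.mul_le_mul_right _ (by omega)
    _ = L ^ 3 := by ring
    _ ≤ s := h3.trans h2

theorem step {G : SimpleGraph (Fin n)} {U W A B Y : Finset (Fin n)} {k₁ k₂ : ℕ} (hW : W ⊆ U)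
    (hU : A ∪ B ∪ Y = U) (hAB : Disjoint A B) (hG : ∀ a ∈ A, ∀ b ∈ B, ¬ G.Adj a b)
    (h1 : Dec (ed G (A ∪ Y)) (A ∪ Y) (W ∩ A ∪ Y) k₁)
    (h2 : Dec (ed G (B ∪ Y)) (B ∪ Y) (W ∩ B ∪ Y) k₂) :
    Dec (ed G U) U W (k₁ + k₂ + ((W ∩ A ∪ Y).card + (W ∩ B ∪ Y).card + 4) ^ 2) := by
  have hd : ∀ x, x ∈ A → x ∈ B → False := fun x a b => disjoint_left.1 hAB a b
  have d := Dec.join (W := W) h1 h2
    (fun x hx => by
      have := hd x
      simp only [mem_union, mem_inter] at hx ⊢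
      tauto)
    (fun x hx => by
      have := hW hx
      rw [← hU] at this
      simp only [mem_union, mem_inter] at this ⊢
      tauto)
  have e1 : A ∪ Y ∪ (B ∪ Y) = U := by
    rw [← hU]; ext x; simp only [mem_union]; tauto
  have e2 : ed G (A ∪ Y) ∪ ed G (B ∪ Y) = ed G U := by
    ext e
    induction e using Sym2.ind with
    | _ u v =>
    have g1 := hG u
    have g2 := fun a => hG v a u
    have g3 := G.adj_comm u v
    rw [← hU]
    simp only [mem_union, ed_mem, SimpleGraph.mem_edgeSet, Sym2.mem_iff, forall_eq_or_imp,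
      forall_eq]
    constructor
    · tauto
    · rintro ⟨a, (b | b) | b, (c | c) | c⟩
      · tauto
      · exact (g1 b v c a).elim
      · tauto
      · exact (g2 c b (g3.1 a)).elim
      all_goals tauto
  rwa [e1, e2] at d

theorem num1 {b K l s y w s₁ s₂ l₁ l₂ α β w₁ w₂ : ℕ} (hb : 16 ≤ b) (hK : K * l ≤ y)
    (hw : 20 * y + 20 ≤ w) (hs : s₁ + s₂ ≤ s + y) (h1 : l₁ ≤ l) (h2 : l₂ ≤ l)
    (hαβ : α + β ≤ w) (hα : 4 * α ≤ 3 * w) (hβ : 4 * β ≤ 3 * w) (e1 : w₁ ≤ α + y)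
    (e2 : w₂ ≤ β + y) :
    b * (K * s₁ * l₁ + w₁ ^ 2) + b * (K * s₂ * l₂ + w₂ ^ 2) + (w₁ + w₂ + 4) ^ 2 ≤
      b * (K * s * l + w ^ 2) := by
  have a1 : K * s₁ * l₁ + K * s₂ * l₂ ≤ K * s * l + y * y := by
    calc K * s₁ * l₁ + K * s₂ * l₂ ≤ K * s₁ * l + K * s₂ * l :=
          Nat.add_le_add (Nat.mul_le_mul_left _ h1) (Nat.mul_le_mul_left _ h2)
      _ = K * l * (s₁ + s₂) := by ring
      _ ≤ K * l * (s + y) := Nat.mul_le_mul_left _ hs
      _ = K * s * l + K * l * y := by ring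
      _ ≤ _ := Nat.add_le_add_left (Nat.mul_le_mul_right _ hK) _
  have a2 : 400 * (y * y) ≤ w ^ 2 := by nlinarith
  have a3 : (20 * w₁) ^ 2 + (20 * w₂) ^ 2 ≤ 300 * w ^ 2 := by
    have b1 : 20 * w₁ ≤ 16 * w := by omega
    have b2 : 20 * w₂ ≤ 16 * w := by omega
    have b3 : 20 * w₁ + 20 * w₂ ≤ 22 * w := by omega
    generalize 20 * w₁ = p at *
    generalize 20 * w₂ = q at *
    rcases le_total p (6 * w) with c | c
    · nlinarith [Nat.mul_le_mul c c, Nat.mul_le_mul b2 b2]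
    · rcases le_total q (6 * w) with c' | c'
      · nlinarith [Nat.mul_le_mul c' c', Nat.mul_le_mul b1 b1]
      · zify at *
        nlinarith [mul_nonneg (sub_nonneg.2 c) (sub_nonneg.2 b1),
          mul_nonneg (sub_nonneg.2 c') (sub_nonneg.2 b2),
          mul_nonneg (sub_nonneg.2 b3) (Int.natCast_nonneg w)]
  have a4 : 4 * (w₁ ^ 2 + w₂ ^ 2) ≤ 3 * w ^ 2 := by nlinarith
  have a5 : (10 * (w₁ + w₂ + 4)) ^ 2 ≤ (13 * w) ^ 2 := Nat.pow_le_pow_left (by omega) 2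
  have a6 : (w₁ + w₂ + 4) ^ 2 ≤ 2 * w ^ 2 := by nlinarith
  have a7 : 8 * (K * s₁ * l₁ + w₁ ^ 2 + (K * s₂ * l₂ + w₂ ^ 2)) + w ^ 2 ≤
      8 * (K * s * l + w ^ 2) := by omega
  have a8 := Nat.mul_le_mul_left b a7
  have a9 : 16 * w ^ 2 ≤ b * w ^ 2 := Nat.mul_le_mul_right _ hb
  nlinarith

theorem num2 {b K l s y w s₁ s₂ l₁ l₂ w₁ w₂ : ℕ} (hb : 1 ≤ b) (hy : 1 ≤ y)
    (hK : 25000 * y ^ 2 ≤ K * s) (hl : 2 * (y * l) ≤ s) (hs : s₁ + s₂ ≤ s + y)
    (hs' : s ≤ s₁ + s₂)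
    (h1 : s₁ * (l₁ + 1) ≤ s₁ * l) (h2 : s₂ * (l₂ + 1) ≤ s₂ * l) (e1 : w₁ ≤ 41 * y)
    (e2 : w₂ ≤ 41 * y) :
    b * (K * s₁ * l₁ + w₁ ^ 2) + b * (K * s₂ * l₂ + w₂ ^ 2) + (w₁ + w₂ + 4) ^ 2 ≤
      b * (K * s * l + w ^ 2) := by
  have a0 : (s₁ + s₂) * l ≤ (s + y) * l := Nat.mul_le_mul_right _ hs
  have a1 : 2 * (s₁ * l₁ + s₂ * l₂) + s ≤ 2 * (s * l) := by nlinarith
  have a2 := Nat.mul_le_mul_left K a1
  have a3 : w₁ ^ 2 ≤ (41 * y) ^ 2 := Nat.pow_le_pow_left e1 2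
  have a4 : w₂ ^ 2 ≤ (41 * y) ^ 2 := Nat.pow_le_pow_left e2 2
  have a5 : (w₁ + w₂ + 4) ^ 2 ≤ (86 * y) ^ 2 := Nat.pow_le_pow_left (by omega) 2
  have a6 : K * s₁ * l₁ + w₁ ^ 2 + (K * s₂ * l₂ + w₂ ^ 2) + (w₁ + w₂ + 4) ^ 2 ≤
      K * s * l + w ^ 2 := by nlinarith [Nat.zero_le (w ^ 2)]
  have a7 := Nat.mul_le_mul_left b a6
  have a8 : 1 * (w₁ + w₂ + 4) ^ 2 ≤ b * (w₁ + w₂ + 4) ^ 2 := Nat.mul_le_mul_right _ hb
  nlinarith

theorem main (hs : SepStmt) (h : ℕ) (h1 : 1 ≤ h) : ∃ b K : ℕ, ∀ (n : ℕ) (G : SimpleGraph (Fin n)),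
    NoK h G → ∀ (s : ℕ) (U W : Finset (Fin n)), U.card = s → W ⊆ U →
      Dec (ed G U) U W (b * (K * s * lam s + W.card ^ 2)) := by
  obtain ⟨s₀, hs₀⟩ := lam_small ((100000 * h ^ 3) ^ 2)
  have hh : 1 ≤ h ^ 3 := Nat.one_le_pow _ _ h1
  refine ⟨s₀ * (s₀ + 7) ^ 2 + (s₀ + 4) ^ 2 + 16, 100000 * h ^ 3, fun n G hG s => ?_⟩
  generalize hb : s₀ * (s₀ + 7) ^ 2 + (s₀ + 4) ^ 2 + 16 = b
  generalize hK : 100000 * h ^ 3 = K at *
  induction s using Nat.strong_induction_on with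
  | _ s ih =>
  intro U W hU hW
  rcases Nat.eq_zero_or_pos s with rfl | hpos
  · obtain rfl := card_eq_zero.1 hU
    obtain rfl := subset_empty.1 hW
    have : ed G (∅ : Finset (Fin n)) = ∅ :=
      eq_empty_of_forall_notMem fun e he => by
        obtain ⟨a, ha, -⟩ := ed_pair e he
        simp at ha
    rw [this]
    exact (Dec.nil _).mono (Nat.zero_le _)
  have hl1 : 1 ≤ lam s := Nat.succ_le_succ (Nat.zero_le _)
  by_cases hsm : s < s₀
  · refine (restr (base U (ed G U) fun e he => (ed_mem.1 he).2) hW).mono ?_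
    have c1 := card_le (ed_pair (G := G) (U := U))
    rw [hU] at c1 ⊢
    have c2 : (s + 7) ^ 2 ≤ (s₀ + 7) ^ 2 := Nat.pow_le_pow_left (by omega) 2
    have c3 : (s + 4) ^ 2 ≤ (s₀ + 4) ^ 2 := Nat.pow_le_pow_left (by omega) 2
    have c4 : (ed G U).card ≤ s * s₀ := c1.trans (Nat.mul_le_mul_left _ hsm.le)
    have c5 := Nat.mul_le_mul c4 c2
    have c6 : 1 * (s₀ + 4) ^ 2 ≤ s * (s₀ + 4) ^ 2 := Nat.mul_le_mul_right _ hpos
    have c7 : 1 * s * 1 ≤ K * s * lam s :=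
      Nat.mul_le_mul (Nat.mul_le_mul_right _ (by omega)) hl1
    have c8 : b * s ≤ b * (K * s * lam s + W.card ^ 2) := Nat.mul_le_mul_left _ (by omega)
    have c9 : b * s = s * s₀ * (s₀ + 7) ^ 2 + s * (s₀ + 4) ^ 2 + 16 * s := by rw [← hb]; ring
    omega
  have hM := hs₀ s (by omega)
  obtain ⟨ρ, hρ1, hρ2, hρ3⟩ : ∃ ρ, 1 ≤ ρ ∧ h * s ≤ ρ ^ 2 ∧ ρ ^ 2 ≤ 4 * (h * s) := by
    have p1 := Nat.lt_succ_sqrt' (h * s)
    have p2 := Nat.sqrt_le' (h * s)
    have p3 : 0 < Nat.sqrt (h * s) := Nat.sqrt_pos.2 (Nat.mul_pos h1 hpos)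
    exact ⟨Nat.sqrt (h * s) + 1, by omega, p1.le, by nlinarith⟩
  have y1 : 1 ≤ h * ρ := Nat.mul_pos h1 hρ1
  have y2 : s ≤ (h * ρ) ^ 2 := by
    have : 1 * s ≤ h * s := Nat.mul_le_mul_right _ h1
    have : 1 * ρ ^ 2 ≤ h ^ 2 * ρ ^ 2 := Nat.mul_le_mul_right _ (Nat.one_le_pow _ _ h1)
    rw [mul_pow]; omega
  have y3 : 25000 * (h * ρ) ^ 2 ≤ K * s := by
    have := Nat.mul_le_mul_left (h ^ 2) hρ3
    rw [← hK]; nlinarith
  have sep := fun W' hW' => hs h n G U W' ρ hG hW' (by rw [hU]; exact hρ2) hρ1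
  generalize h * ρ = y at *
  have hK1 : 1 ≤ K := by omega
  have y4 : K * lam s ≤ y := by
    have : (K * lam s) ^ 2 ≤ y ^ 2 := by rw [mul_pow]; omega
    exact (Nat.pow_le_pow_iff_left (by norm_num)).1 this
  have y5 : 20 * (y * lam s) ≤ s := by
    have p1 : K * lam s ^ 2 ≤ s := by
      have : K * lam s ^ 2 ≤ K ^ 2 * lam s ^ 2 := Nat.mul_le_mul_right _ (by nlinarith)
      omega
    have p2 := Nat.mul_le_mul_right (lam s ^ 2) y3
    have p3 := Nat.mul_le_mul_left s p1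
    have : (20 * (y * lam s)) ^ 2 ≤ s ^ 2 := by nlinarith [Nat.zero_le (y ^ 2 * lam s ^ 2)]
    exact (Nat.pow_le_pow_iff_left (by norm_num)).1 this
  have y6 : 20 * y ≤ s := by
    have : y * 1 ≤ y * lam s := Nat.mul_le_mul_left _ hl1
    omega
  have sub : ∀ A Y : Finset (Fin n), W ∩ A ∪ Y ⊆ A ∪ Y := fun A Y =>
    union_subset_union_left inter_subset_right
  have cnt : ∀ A B Y : Finset (Fin n), A ∪ B ∪ Y = U → Disjoint A B → Disjoint A Y →
      Disjoint B Y → A.card + B.card + Y.card = s := fun A B Y e a b c => by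
    rw [← hU, ← e, card_union_of_disjoint (disjoint_union_left.2 ⟨b, c⟩),
      card_union_of_disjoint a]
  by_cases hw : 20 * y + 20 ≤ W.card
  · obtain ⟨A, B, Y, e, dAB, dAY, dBY, hadj, hY, hA, hB⟩ := sep W hW
    have c0 := cnt A B Y e dAB dAY dBY
    have c1 := card_union_of_disjoint dAY
    have c2 := card_union_of_disjoint dBY
    have c3 := card_union_le (W ∩ A) Y
    have c4 := card_union_le (W ∩ B) Y
    have c5 : W.card ≤ (W ∩ A).card + (W ∩ B).card + Y.card := by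
      refine (card_le_card (t := W ∩ A ∪ W ∩ B ∪ Y) fun x hx => ?_).trans
        ((card_union_le _ _).trans (Nat.add_le_add_right (card_union_le _ _) _))
      have := hW hx
      rw [← e] at this
      simp only [mem_union, mem_inter] at this ⊢
      tauto
    have c6 : (W ∩ A).card ≤ A.card := card_le_card inter_subset_right
    have c7 : (W ∩ B).card ≤ B.card := card_le_card inter_subset_right
    have c8 : (W ∩ A).card + (W ∩ B).card ≤ W.card := by
      rw [← card_union_of_disjoint (dAB.mono inter_subset_right inter_subset_right)]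
      exact card_le_card (union_subset inter_subset_left inter_subset_left)
    refine (step hW e dAB hadj (ih _ (by omega) _ _ rfl (sub A Y))
      (ih _ (by omega) _ _ rfl (sub B Y))).mono ?_
    exact num1 (by omega) y4 hw (by omega) (lam_mono (by omega)) (lam_mono (by omega)) c8 hA hB
      (by omega) (by omega)
  · obtain ⟨A, B, Y, e, dAB, dAY, dBY, hadj, hY, hA, hB⟩ := sep U Subset.rfl
    have c0 := cnt A B Y e dAB dAY dBY
    have c1 := card_union_of_disjoint dAY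
    have c2 := card_union_of_disjoint dBY
    have c3 := card_union_le (W ∩ A) Y
    have c4 := card_union_le (W ∩ B) Y
    have c6 : (W ∩ A).card ≤ W.card := card_le_card inter_subset_left
    have c7 : (W ∩ B).card ≤ W.card := card_le_card inter_subset_left
    rw [inter_eq_right.2 (by rw [← e]; exact subset_union_left.trans subset_union_left), hU] at hA
    rw [inter_eq_right.2 (by rw [← e]; exact subset_union_right.trans subset_union_left), hU] at hB
    refine (step hW e dAB hadj (ih _ (by omega) _ _ rfl (sub A Y))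
      (ih _ (by omega) _ _ rfl (sub B Y))).mono ?_
    exact num2 (by omega) y1 y3 (by omega) (by omega) (by omega) (lam_drop (by omega))
      (lam_drop (by omega)) (by omega) (by omega)

end DecA

open DecA

theorem dec (hs : SepStmt) : DecStmt := by
  intro h
  rcases Nat.eq_zero_or_pos h with rfl | h1
  · exact ⟨0, fun n G v hG => (hG ⟨fun _ => none, fun w => w.elim0, fun w => w.elim0,
      fun w => w.elim0⟩).elim⟩
  obtain ⟨b, K, hm⟩ := main hs h h1
  refine ⟨b * (4 * K + 1), fun n G v hG => ?_⟩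
  refine (hm n G hG n univ {v} (by simp) (subset_univ _)).mono ?_
  have h2 := Nat.mul_le_mul_left (K * n) (lam_le n)
  have h3 : 1 * 1 ≤ n * (Nat.log 2 n + 1) := Nat.mul_le_mul v.pos (by omega)
  rw [card_singleton, mul_assoc b, mul_assoc b]
  refine Nat.mul_le_mul_left _ ?_
  nlinarith

theorem decAll : DecAllStmt := by
  refine ⟨673, fun n G v => ?_⟩
  have h0 : 1 ≤ n := v.pos
  have h1 : n < 2 ^ (Nat.log 2 n + 1) := Nat.lt_pow_succ_log_self (by norm_num) n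
  have h2 : 2 ^ (Nat.log 2 n + 1) ≤ 2 * n := by
    have := Nat.pow_log_le_self 2 (x := n) (by omega)
    rw [pow_succ]; omega
  have h3 := rr (Nat.log 2 n + 1) univ univ (ed G univ) (by simpa using h1.le)
    (by simpa using h1.le) ed_pair
  rw [union_self] at h3
  refine (restr h3 (subset_univ {v})).mono ?_
  have h4 := Nat.pow_le_pow_left h2 2
  have h5 : (n + 4) ^ 2 ≤ (5 * n) ^ 2 := Nat.pow_le_pow_left (by omega) 2
  rw [card_univ, Fintype.card_fin]
  generalize 2 ^ (Nat.log 2 n + 1) = x at *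
  generalize Nat.log 2 n = L at *
  have h6 := Nat.mul_le_mul_right (L + 1 + 1) h4
  nlinarith [Nat.zero_le (n ^ 2 * L)]

end Pool.Agent.Lib.MP_234305_co.V33
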