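import Mathlib

/-! Differences of linear programs: definitions and the statements of the modules. -/

open Finset Relation
open scoped Pointwise Classical

namespace Pool.Agent.Lib.MP_234305_co.V33

/-- Real functions of the weight vector. -/
abbrev Fn (E : Type) : Type := (E → ℝ) → ℝ

/-- Linear forms in the weights and the extra variables. -/
abbrev Form (E I : Type) : Type := ((E → ℝ) × (I → ℝ)) →ₗ[ℝ] ℝ

variable {E : Type}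

/-- The form `φ` is minimised over the fibre of the cone at the point `τ x`. -/
def Up {I : Type} (L : List (Form E I)) (τ : (E → ℝ) → I → ℝ) (φ : Form E I) : Prop :=
  ∀ x y, (∀ a ∈ L, a (x, y) ≤ 0) → φ (x, τ x) ≤ φ (x, y)

/-- All functions in `M` are differences of two optimal values over one cone with `s` inequalities. -/
def Can (s : ℕ) (M : Submodule ℝ (Fn E)) : Prop :=
  (∀ e, (fun x => x e) ∈ M) ∧
  ∃ (I : Type) (L : List (Form E I)) (τ : (E → ℝ) → I → ℝ), L.length ≤ s ∧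
    (∀ x, ∀ a ∈ L, a (x, τ x) ≤ 0) ∧
    ∀ f ∈ M, ∃ φ ψ : Form E I, Up L τ φ ∧ Up L τ ψ ∧ ∀ x, f x = φ (x, τ x) - ψ (x, τ x)

/-- The functions in `B` can be added to any system that has `A`, with `s` more inequalities. -/
def Ext (s : ℕ) (A B : Set (Fn E)) : Prop :=
  ∀ (t : ℕ) (M : Submodule ℝ (Fn E)), A ⊆ M → Can t M →
    ∃ M' : Submodule ℝ (Fn E), M ≤ M' ∧ B ⊆ M' ∧ Can (t + s) M'

/-- A step that does not decrease the key at `x`. -/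
def Stp (Γ : Finset (Fn E × Fn E)) (x : E → ℝ) (a b : Fn E) : Prop :=
  (a, b) ∈ Γ ∨ ((b, a) ∈ Γ ∧ a x = b x)

def NetStmt : Prop := ∀ (E : Type) (D : ℕ) (A : Finset (Fn E)), A.card ≤ 2 ^ D →
  ∃ (Γ : Finset (Fn E × Fn E)) (r : ℕ) (y : ℕ → Fn E),
    Γ.card ≤ 16 * (D + 1) ^ 2 * A.card ∧ r ≤ 2 * A.card ∧
    Ext (16 * (D + 1) ^ 2 * A.card) (A : Set (Fn E))
      ({g | ∃ p ∈ Γ, g = p.1 ∨ g = p.2} ∪ {g | ∃ k < r, g = y k}) ∧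
    (∀ p ∈ Γ, p.1 ≤ p.2) ∧
    (∀ p ∈ Γ, ∀ x, (∃ f ∈ A, p.1 x = f x) ∧ ∃ f ∈ A, p.2 x = f x) ∧
    (∀ k, k + 1 < r → y k ≤ y (k + 1)) ∧ (∀ k < r, ∀ x, ∃ f ∈ A, y k x = f x) ∧
    (∀ f ∈ A, ∀ x, ∃ k < r, y k x = f x) ∧
    ∀ x, ∀ f ∈ A, ∀ g ∈ A, f x ≤ g x → ReflTransGen (Stp Γ x) f g

def TransferStmt : Prop := ∀ (E : Type) (D : ℕ) (S Q : Finset (Fn E)) (Φ : (E → ℝ) → ℝ → ℝ),
  S.card + Q.card ≤ 2 ^ D →
  (∀ x a b, a ≤ b → Φ x a ≤ Φ x b ∧ Φ x b - Φ x a ≤ b - a) →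
  (∀ x, ∀ q ∈ Q, ∃ s ∈ S, (s x ≤ q x ∧ Φ x (q x) - Φ x (s x) = q x - s x) ∨
    (q x ≤ s x ∧ Φ x (q x) = Φ x (s x))) →
  Ext (64 * (D + 1) ^ 2 * (S.card + Q.card))
    ((S : Set (Fn E)) ∪ (Q : Set (Fn E)) ∪ {g | ∃ s ∈ S, g = fun x => Φ x (s x)})
    {g | ∃ q ∈ Q, g = fun x => Φ x (q x)}

def JoinStmt : Prop := ∀ (E V : Type) (D K : ℕ) (W : Bool → Finset V) (δ : Fn E)
    (f : Bool → (E → ℝ) → V → ℕ) (h : (E → ℝ) → V → ℕ) (σ : V → ℕ),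
  (∀ c, (W c).card ≤ 2 ^ D) → (∀ x, 0 ≤ δ x) →
  (∀ x c, ∀ i ∈ W c, ∀ j ∈ W c, f c x i = f c x j → h x i = h x j) →
  (∀ x c, ∀ i ∈ W c, h x i ≤ σ i ∧ σ i ≤ K) →
  (∀ x c, ∀ i ∈ W c, ∃ j, (∃ c', j ∈ W c') ∧ h x i = σ j ∧
    ReflTransGen (fun a b => ∃ c, a ∈ W c ∧ b ∈ W c ∧ f c x a = f c x b) j i) →
  Ext (56 * (D + 1) ^ 2 * ((W true).card + (W false).card))
    ({δ} ∪ {g | ∃ c, ∃ i ∈ W c, g = fun x => δ x * (f c x i : ℝ)})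
    {g | ∃ c, ∃ i ∈ W c, g = fun x => δ x * (h x i : ℝ)}

def BitStmt : Prop := ∀ (E : Type) (L : ℕ) (δ : Fn E) (h : (E → ℝ) → ℕ),
  (∀ x, 0 ≤ δ x) → (∀ x, h x < 2 ^ L) →
  Ext (4 * L) {δ, fun x => δ x * (h x : ℝ)}
    {g | ∃ l < L, g = fun x => δ x * ((h x / 2 ^ l % 2 : ℕ) : ℝ)}

/-- The set `S` is an affine image of a polyhedron with `k` inequalities. -/
def XC (S : Set (E → ℝ)) (k : ℕ) : Prop :=
  ∃ (d : ℕ) (A : Fin k → Fin d → ℝ) (b : Fin k → ℝ) (π : (Fin d → ℝ) →ᵃ[ℝ] (E → ℝ)),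
    π '' {y : Fin d → ℝ | ∀ i : Fin k, ∑ j : Fin d, A i j * y j ≤ b i} = S

def DualStmt : Prop := ∀ (E : Type) [Fintype E] (s : ℕ) (M : Submodule ℝ (Fn E)) (f : Fn E)
    (S : Set (E → ℝ)), Can s M → f ∈ M → S.Finite →
  (∀ x, IsLeast {a | ∃ p ∈ S, a = ∑ e, p e * x e} (f x)) →
  ∃ Q R : Set (E → ℝ), Q.Nonempty ∧ Bornology.IsBounded Q ∧ convexHull ℝ S + Q = R ∧
    (∃ k ≤ s, XC Q k) ∧ ∃ k ≤ s, XC R k

/-- The integral from `m x` to `t` of `φ` at the threshold sets of `x`. -/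
noncomputable def In (m : Fn E) (φ : Set E → ℝ) (x : E → ℝ) (t : ℝ) : ℝ :=
  ∫ s in (m x)..t, φ {e | x e ≤ s}

/-- Between two points of the grid `S` the quantity `φ` does not change. -/
def Grid (m M : Fn E) (S : Finset (Fn E)) (φ : Set E → ℝ) : Prop :=
  ∀ x a t, m x ≤ a → a ≤ t → t < M x → (∀ s ∈ S, s x ≤ a ∨ t < s x) →
    φ {e | x e ≤ t} = φ {e | x e ≤ a}

/-- The grid has both ends and lies between them. -/
def Rng (m M : Fn E) (S : Finset (Fn E)) : Prop :=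
  (∀ x, ∃ s ∈ S, s x = m x) ∧ (∀ x, ∃ s ∈ S, s x = M x) ∧ ∀ s ∈ S, m ≤ s ∧ s ≤ M

def IntStmt : Prop := ∀ (E : Type) [Fintype E] (m : Fn E),
  (∀ (φ : Set E → ℝ) x a b κ, a ≤ b → (∀ t, a ≤ t → t < b → φ {e | x e ≤ t} = κ) →
    In m φ x b - In m φ x a = (b - a) * κ) ∧
  (∀ (φ : Set E → ℝ) x a b, (∀ ξ, 0 ≤ φ ξ ∧ φ ξ ≤ 1) → a ≤ b →
    In m φ x a ≤ In m φ x b ∧ In m φ x b - In m φ x a ≤ b - a) ∧
  (∀ (φ ψ : Set E → ℝ) x t, In m (fun ξ => φ ξ + ψ ξ) x t = In m φ x t + In m ψ x t) ∧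
  (∀ (ι : Type) (T : Finset ι) (φ : ι → Set E → ℝ) x t,
    In m (fun ξ => ∑ i ∈ T, φ i ξ) x t = ∑ i ∈ T, In m (φ i) x t) ∧
  (∀ (p : Set E → Prop) x (M t : ℝ), (∀ ξ η, ξ ⊆ η → p η → p ξ) → m x ≤ t → t < M →
    (t < m x + In m (fun ξ => if p ξ then 1 else 0) x M ↔ p {e | x e ≤ t})) ∧
  (∀ (M : Fn E) (S : Finset (Fn E)) (φ : Set E → ℝ) x q, Rng m M S → Grid m M S φ →
    (∀ ξ, φ ξ = 0 ∨ φ ξ = 1) → m x ≤ q → q ≤ M x →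
    ∃ s ∈ S, (s x ≤ q ∧ In m φ x q - In m φ x (s x) = q - s x) ∨
      (q ≤ s x ∧ In m φ x q = In m φ x (s x)))

/-- Connectivity along the pairs in `F`. -/
def Rc {V : Type} (F : Set (Sym2 V)) : V → V → Prop := ReflTransGen fun u v => s(u, v) ∈ F

variable {n : ℕ}

/-- The least value of `σ` on the vertices of `W` in the class of `i`. -/
noncomputable def lab (σ : Fin n → ℕ) (W : Finset (Fin n)) (F : Set (Sym2 (Fin n))) (i : Fin n) :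
    ℕ := sInf {a | ∃ j ∈ W, Rc F i j ∧ a = σ j}

/-- The number of classes of vertices of `U` that do not meet `W`. -/
noncomputable def fre (U W : Finset (Fin n)) (F : Set (Sym2 (Fin n))) : ℕ :=
  ((U.filter fun v => ∀ j ∈ W, ¬ Rc F v j).image fun v => univ.filter (Rc F v)).card

def CountStmt : Prop := ∀ (n : ℕ) (F : Bool → Set (Sym2 (Fin n))) (U W : Bool → Finset (Fin n)),
  (∀ c, ∀ e ∈ F c, ∀ v ∈ e, v ∈ U c) → (∀ c, W c ⊆ U c) →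
  U true ∩ U false ⊆ W true ∩ W false →
  (∀ i ∈ W true ∪ W false, ∀ j ∈ W true ∪ W false, Rc (F true ∪ F false) i j →
    ReflTransGen (fun a b => ∃ c, a ∈ W c ∧ b ∈ W c ∧ Rc (F c) a b) i j) ∧
  ∀ (Z : Finset (Fin n)) (σ : Fin n → ℕ), Z ⊆ W true ∪ W false → Function.Injective σ →
    (∀ i ∈ Z, ∀ j ∉ Z, σ i < σ j) →
    fre (U true ∪ U false) Z (F true ∪ F false) =
      fre (U true) (W true) (F true) + fre (U false) (W false) (F false) +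
        (((W true ∪ W false) \ Z).filter fun v =>
          lab σ (W true ∪ W false) (F true ∪ F false) v = σ v).card

def MstStmt : Prop := ∀ (n : ℕ) (G : SimpleGraph (Fin n)) (v : Fin n) (x : Sym2 (Fin n) → ℝ)
    (m M : ℝ), G.Connected → m ≤ M → (∀ e ∈ G.edgeSet, m ≤ x e ∧ x e ≤ M) →
  IsLeast {a | ∃ T : SimpleGraph (Fin n), T ≤ G ∧ T.IsTree ∧
      a = ∑ e, T.edgeSet.indicator (fun _ => (1 : ℝ)) e * x e}
    (((n : ℝ) - 1) * m + ∫ t in m..M, (fre univ {v} (G.edgeSet ∩ {e | x e ≤ t}) : ℝ))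

/-- No complete minor on `h` vertices. -/
def NoK (h : ℕ) (G : SimpleGraph (Fin n)) : Prop :=
  ¬ ∃ f : Fin n → Option (Fin h), (∀ w, ∃ v, f v = some w) ∧
    (∀ w, (G.induce {v | f v = some w}).Connected) ∧
    ∀ w w', w ≠ w' → ∃ u v, f u = some w ∧ f v = some w' ∧ G.Adj u v

def SepStmt : Prop := ∀ (h n : ℕ) (G : SimpleGraph (Fin n)) (U W : Finset (Fin n)) (ρ : ℕ),
  NoK h G → W ⊆ U → h * U.card ≤ ρ ^ 2 → 1 ≤ ρ →
  ∃ A B Y : Finset (Fin n), A ∪ B ∪ Y = U ∧ Disjoint A B ∧ Disjoint A Y ∧ Disjoint B Y ∧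
    (∀ a ∈ A, ∀ b ∈ B, ¬ G.Adj a b) ∧ Y.card ≤ h * ρ ∧
    4 * (W ∩ A).card ≤ 3 * W.card ∧ 4 * (W ∩ B).card ≤ 3 * W.card

/-- Regions (edges, vertices, boundary) built by gluing along boundaries, with the total cost. -/
inductive Dec : Finset (Sym2 (Fin n)) → Finset (Fin n) → Finset (Fin n) → ℕ → Prop
  | nil (W : Finset (Fin n)) : Dec ∅ W W 0
  | edge (u v : Fin n) : Dec {s(u, v)} {u, v} {u, v} 1
  | join {F₁ F₂ : Finset (Sym2 (Fin n))} {U₁ U₂ W₁ W₂ W : Finset (Fin n)} {k₁ k₂ : ℕ} :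
      Dec F₁ U₁ W₁ k₁ → Dec F₂ U₂ W₂ k₂ → U₁ ∩ U₂ ⊆ W₁ ∩ W₂ → W ⊆ W₁ ∪ W₂ →
      Dec (F₁ ∪ F₂) (U₁ ∪ U₂) W (k₁ + k₂ + (W₁.card + W₂.card + 4) ^ 2)
  | mono {F : Finset (Sym2 (Fin n))} {U W : Finset (Fin n)} {k k' : ℕ} :
      Dec F U W k → k ≤ k' → Dec F U W k'

/-- The edges of `G` inside `U`. -/
noncomputable def ed (G : SimpleGraph (Fin n)) (U : Finset (Fin n)) : Finset (Sym2 (Fin n)) :=
  univ.filter fun e => e ∈ G.edgeSet ∧ ∀ v ∈ e, v ∈ U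

def DecStmt : Prop := ∀ h : ℕ, ∃ C : ℕ, ∀ (n : ℕ) (G : SimpleGraph (Fin n)) (v : Fin n),
  NoK h G → Dec (ed G univ) univ {v} (C * n * (Nat.log 2 n + 1))

def DecAllStmt : Prop := ∃ C : ℕ, ∀ (n : ℕ) (G : SimpleGraph (Fin n)) (v : Fin n),
  Dec (ed G univ) univ {v} (C * n ^ 2 * (Nat.log 2 n + 1))

end Pool.Agent.Lib.MP_234305_co.V33
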