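import Pool.Agent.Lib.MP_234305_co.V33.Defs

/-! Duality: a difference of two optimal values gives a Minkowski summand. -/

open Finset Relation
open scoped Pointwise Classical

namespace Pool.Agent.Lib.MP_234305_co.V33

namespace Dual

theorem farkas {V : Type} [AddCommGroup V] [Module ℝ V] (n : ℕ) :
    ∀ (a : Fin n → V →ₗ[ℝ] ℝ) (b : V →ₗ[ℝ] ℝ), (∀ y, (∀ i, 0 ≤ a i y) → 0 ≤ b y) →
      ∃ μ : Fin n → ℝ, (∀ i, 0 ≤ μ i) ∧ ∀ y, b y = ∑ i, μ i * a i y := by
  induction n with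
  | zero =>
    intro a b h
    refine ⟨fun _ => 0, fun i => le_rfl, fun y => ?_⟩
    have h1 := h y (fun i => i.elim0)
    have h2 := h (-y) (fun i => i.elim0)
    rw [map_neg] at h2
    simp only [Finset.univ_eq_empty, Finset.sum_empty]
    linarith
  | succ n ih =>
    intro a b h
    by_cases h0 : ∀ y, (∀ i : Fin n, 0 ≤ a i.succ y) → 0 ≤ b y
    · obtain ⟨μ, hμ, hb⟩ := ih (fun i => a i.succ) b h0
      refine ⟨Fin.cons 0 μ, ?_, fun y => ?_⟩
      · intro i
        refine Fin.cases ?_ (fun j => ?_) i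
        · simp
        · simpa using hμ j
      · rw [Fin.sum_univ_succ]
        simp [hb y]
    · push Not at h0
      obtain ⟨y0, hy0, hb0⟩ := h0
      have ha0 : a 0 y0 < 0 := by
        by_contra hcon
        push Not at hcon
        have : 0 ≤ b y0 := h y0 (fun i => Fin.cases hcon hy0 i)
        linarith
      set y1 : V := (-(a 0 y0)⁻¹) • y0 with hy1
      have hpos : 0 < -(a 0 y0)⁻¹ := by
        have : (a 0 y0)⁻¹ < 0 := inv_lt_zero.mpr ha0
        linarith
      have h1 : a 0 y1 = -1 := by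
        rw [hy1, map_smul, smul_eq_mul, neg_mul, inv_mul_cancel₀ ha0.ne]
      have h2 : ∀ i : Fin n, 0 ≤ a i.succ y1 := by
        intro i
        rw [hy1, map_smul, smul_eq_mul]
        exact mul_nonneg hpos.le (hy0 i)
      have h3 : b y1 < 0 := by
        rw [hy1, map_smul, smul_eq_mul]
        exact mul_neg_of_pos_of_neg hpos hb0
      let T : V →ₗ[ℝ] V := LinearMap.id + (a 0).smulRight y1
      have hT : ∀ y, T y = y + a 0 y • y1 := fun y => by simp [T]
      obtain ⟨μ, hμ, hb⟩ := ih (fun i => (a i.succ).comp T) (b.comp T) (by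
        intro y hy
        apply h (T y)
        intro i
        refine Fin.cases ?_ (fun j => hy j) i
        rw [hT, map_add, map_smul, h1]
        simp)
      refine ⟨Fin.cons (∑ i, μ i * a i.succ y1 - b y1) μ, ?_, fun y => ?_⟩
      · intro i
        refine Fin.cases ?_ (fun j => ?_) i
        · simp only [Fin.cons_zero]
          have : 0 ≤ ∑ i, μ i * a i.succ y1 :=
            Finset.sum_nonneg fun i _ => mul_nonneg (hμ i) (h2 i)
          linarith
        · simpa using hμ j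
      · rw [Fin.sum_univ_succ]
        have := hb y
        simp only [LinearMap.comp_apply, hT, map_add, map_smul, smul_eq_mul] at this
        simp only [Fin.cons_zero, Fin.cons_succ]
        have e : ∑ i, μ i * (a i.succ y + a 0 y * a i.succ y1) =
            ∑ i, μ i * a i.succ y + (∑ i, μ i * a i.succ y1) * a 0 y := by
          rw [Finset.sum_mul, ← Finset.sum_add_distrib]
          exact Finset.sum_congr rfl fun i _ => by ring
        rw [e] at this
        linarith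

theorem param {W X J κ : Type} [AddCommGroup W] [Module ℝ W] [FiniteDimensional ℝ W]
    [AddCommGroup X] [Module ℝ X] [Fintype κ] (ψ : J → W →ₗ[ℝ] ℝ) (β : J → ℝ)
    (φ : κ → W →ₗ[ℝ] ℝ) (ρ : W →ₗ[ℝ] X) (p : W) (hp : ∀ j, ψ j p = β j) :
    ∃ (d : ℕ) (A : Fin (Fintype.card κ) → Fin d → ℝ) (b : Fin (Fintype.card κ) → ℝ)
      (π : (Fin d → ℝ) →ᵃ[ℝ] X),
      π '' {y : Fin d → ℝ | ∀ i, ∑ j : Fin d, A i j * y j ≤ b i} =
        ρ '' {w | (∀ j, ψ j w = β j) ∧ ∀ i, 0 ≤ φ i w} := by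
  let D : Submodule ℝ W := ⨅ j, LinearMap.ker (ψ j)
  let B := Module.finBasis ℝ D
  let L : (Fin (Module.finrank ℝ D) → ℝ) →ₗ[ℝ] W := D.subtype ∘ₗ B.equivFun.symm.toLinearMap
  let σ := (Fintype.equivFin κ).symm
  have hL : ∀ (f : W →ₗ[ℝ] ℝ) y, f (L y) = ∑ j, f (B j) * y j := fun f y => by
    simp only [L, LinearMap.comp_apply, LinearEquiv.coe_coe, Module.Basis.equivFun_symm_apply,
      map_sum, map_smul, Submodule.subtype_apply, smul_eq_mul]
    exact sum_congr rfl fun j _ => mul_comm _ _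
  have hA : ∀ y : Fin (Module.finrank ℝ D) → ℝ,
      (∀ i, ∑ j, (-φ (σ i) (B j)) * y j ≤ φ (σ i) p) ↔ ∀ i, 0 ≤ φ i (L y + p) := fun y => by
    rw [σ.forall_congr_right (q := fun i => ∑ j, (-φ i (B j)) * y j ≤ φ i p)]
    refine forall_congr' fun i => ?_
    rw [map_add, hL]
    simp only [neg_mul, sum_neg_distrib]
    constructor <;> intro h <;> linarith
  refine ⟨_, fun i j => -φ (σ i) (B j), fun i => φ (σ i) p,
    (ρ ∘ₗ L).toAffineMap + AffineMap.const ℝ _ (ρ p), ?_⟩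
  ext z
  simp only [Set.mem_image, Set.mem_ofPred_eq, hA]
  constructor
  · rintro ⟨y, hy, rfl⟩
    refine ⟨L y + p, ⟨fun j => ?_, hy⟩, by simp⟩
    have : L y ∈ D := (B.equivFun.symm y).2
    have h2 : ψ j (L y) = 0 := (Submodule.mem_iInf _).1 this j
    rw [map_add, h2, hp, zero_add]
  · rintro ⟨w, ⟨hw1, hw2⟩, rfl⟩
    have hD : w - p ∈ D := (Submodule.mem_iInf _).2 fun j => by
      rw [LinearMap.mem_ker, map_sub, hw1, hp, sub_self]
    have hw : L (B.equivFun ⟨w - p, hD⟩) + p = w := by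
      simp only [L, LinearMap.comp_apply, LinearEquiv.coe_coe, LinearEquiv.symm_apply_apply,
        Submodule.subtype_apply, sub_add_cancel]
    refine ⟨B.equivFun ⟨w - p, hD⟩, by rw [hw]; exact hw2, ?_⟩
    conv_rhs => rw [← hw]
    simp

variable {E I : Type} [Fintype E] {L : List (Form E I)} {τ : (E → ℝ) → I → ℝ} {φ : Form E I}

/-- The dual feasible set. -/
def P (L : List (Form E I)) (φ : Form E I) : Set (E → ℝ) :=
  {u | ∀ x y, (∀ a ∈ L, a (x, y) ≤ 0) → -(∑ e, u e * x e) ≤ φ (x, y)}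

theorem repr (l : (E → ℝ) →ₗ[ℝ] ℝ) : ∃ u : E → ℝ, ∀ x, l x = ∑ e, u e * x e :=
  ⟨fun e => l fun j => if e = j then 1 else 0, fun x => by
    rw [LinearMap.pi_apply_eq_sum_univ]
    exact sum_congr rfl fun e _ => mul_comm _ _⟩

theorem attained (hτ : ∀ x, ∀ a ∈ L, a (x, τ x) ≤ 0) (h : Up L τ φ) (x₀ : E → ℝ) :
    ∃ u ∈ P L φ, -(∑ e, u e * x₀ e) = φ (x₀, τ x₀) := by
  let T : (ℝ × (I → ℝ)) →ₗ[ℝ] ((E → ℝ) × (I → ℝ)) :=
    LinearMap.prodMap (LinearMap.toSpanSingleton ℝ _ x₀) LinearMap.id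
  have hT : ∀ t y, T (t, y) = (t • x₀, y) := fun t y => rfl
  obtain ⟨μ, h0, h1⟩ := farkas (L.length + 1)
    (Fin.cons (LinearMap.fst ℝ _ _) fun i => -(L.get i ∘ₗ T))
    (φ ∘ₗ T - φ (x₀, τ x₀) • LinearMap.fst ℝ _ _) (by
      rintro ⟨t, y⟩ hy
      have ht : 0 ≤ t := hy 0
      have e : (x₀, (1 + t)⁻¹ • (τ x₀ + y)) = (1 + t)⁻¹ • ((x₀, τ x₀) + T (t, y)) := by
        rw [hT, Prod.mk_add_mk, Prod.smul_mk, show x₀ + t • x₀ = (1 + t) • x₀ by
          rw [add_smul, one_smul], smul_smul, inv_mul_cancel₀ (by positivity), one_smul]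
      have := h x₀ ((1 + t)⁻¹ • (τ x₀ + y)) fun a ha => by
        obtain ⟨i, rfl⟩ := List.get_of_mem ha
        have h2 : 0 ≤ -(L.get i (T (t, y))) := hy i.succ
        have h3 := hτ x₀ _ ha
        rw [e, map_smul, map_add]
        exact mul_nonpos_of_nonneg_of_nonpos (by positivity) (by linarith)
      rw [e, map_smul, map_add, smul_eq_mul, le_inv_mul_iff₀ (by positivity)] at this
      change 0 ≤ φ (T (t, y)) - φ (x₀, τ x₀) * t
      linarith)
  have h2 : ∀ t y, φ (t • x₀, y) - φ (x₀, τ x₀) * t =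
      μ 0 * t + ∑ i, μ i.succ * -(L.get i (t • x₀, y)) := fun t y => by
    have := h1 (t, y)
    rw [Fin.sum_univ_succ] at this
    exact this
  obtain ⟨u, hu⟩ := repr ((∑ i, μ i.succ • -(L.get i) - φ) ∘ₗ LinearMap.inl ℝ _ _)
  have hu' : ∀ x, ∑ i, μ i.succ * -(L.get i (x, 0)) - φ (x, 0) = ∑ e, u e * x e := fun x => by
    rw [← hu]; simp [LinearMap.sum_apply]
  have hP : u ∈ P L φ := fun x y hy => by
    have e : (x, y) = (x, 0) + ((0 : ℝ) • x₀, y) := by simp
    have h3 := h2 0 y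
    have h4 : 0 ≤ ∑ i, μ i.succ * -(L.get i (x, y)) :=
      sum_nonneg fun i _ => mul_nonneg (h0 _) (neg_nonneg.2 (hy _ (List.get_mem _ _)))
    rw [e] at h4 ⊢
    simp only [map_add, neg_add, mul_add, sum_add_distrib] at h4 ⊢
    rw [← hu']
    linarith
  refine ⟨u, hP, le_antisymm (hP _ _ (hτ x₀)) ?_⟩
  have h3 := h2 1 0
  rw [one_smul] at h3
  rw [← hu']
  linarith [h0 0]

theorem xc (hτ : ∀ x, ∀ a ∈ L, a (x, τ x) ≤ 0) (h : Up L τ φ) :
    XC (P L φ) (Fintype.card (Fin L.length)) := by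
  let ψ : (E → ℝ) × (I → ℝ) → ((Fin L.length → ℝ) × (E → ℝ)) →ₗ[ℝ] ℝ := fun z =>
    ∑ e, z.1 e • (LinearMap.proj e ∘ₗ LinearMap.snd ℝ _ _) +
      ∑ i, L.get i z • (LinearMap.proj i ∘ₗ LinearMap.fst ℝ _ _)
  have hψ : ∀ z w, ψ z w = ∑ e, w.2 e * z.1 e + ∑ i, w.1 i * L.get i z := fun z w => by
    simp [ψ, LinearMap.sum_apply, mul_comm]
  have key : ∀ u, u ∈ P L φ ↔ ∃ μ : Fin L.length → ℝ, (∀ z, ψ z (μ, u) = -φ z) ∧ ∀ i, 0 ≤ μ i := by
    refine fun u => ⟨fun hu => ?_, ?_⟩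
    · obtain ⟨μ, h0, h1⟩ := farkas L.length (fun i => -(L.get i))
        (φ + ∑ e, u e • (LinearMap.proj e ∘ₗ LinearMap.fst ℝ _ _)) (by
          rintro ⟨x, y⟩ hy
          have := hu x y fun a ha => by
            obtain ⟨i, rfl⟩ := List.get_of_mem ha
            exact neg_nonneg.1 (hy i)
          simp only [LinearMap.add_apply, LinearMap.sum_apply]
          change 0 ≤ φ (x, y) + ∑ e, u e * x e
          linarith)
      refine ⟨μ, fun z => ?_, h0⟩
      have := h1 z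
      simp only [LinearMap.add_apply, LinearMap.sum_apply, LinearMap.neg_apply, mul_neg,
        sum_neg_distrib] at this
      change φ z + ∑ e, u e * z.1 e = _ at this
      rw [hψ]
      linarith
    · rintro ⟨μ, h1, h0⟩ x y hy
      have h2 := h1 (x, y)
      have h3 : ∑ i, μ i * L.get i (x, y) ≤ 0 :=
        sum_nonpos fun i _ => mul_nonpos_of_nonneg_of_nonpos (h0 i) (hy _ (List.get_mem _ _))
      rw [hψ] at h2
      linarith
  obtain ⟨u, hu, -⟩ := attained hτ h 0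
  obtain ⟨μ, h1, -⟩ := (key u).1 hu
  obtain ⟨d, A, b, π, hπ⟩ := param ψ (fun z => -φ z)
    (fun i : Fin L.length => LinearMap.proj i ∘ₗ LinearMap.fst ℝ _ _) (LinearMap.snd ℝ _ _) _ h1
  refine ⟨d, A, b, π, hπ.trans (Set.ext fun u => ?_)⟩
  rw [key]
  exact ⟨fun ⟨w, hw, e⟩ => ⟨w.1, e ▸ hw⟩, fun ⟨μ, hw⟩ => ⟨(μ, u), hw, rfl⟩⟩

theorem bounded (hτ : ∀ x, ∀ a ∈ L, a (x, τ x) ≤ 0) : Bornology.IsBounded (P L φ) := by
  refine (Metric.isBounded_Icc (fun e => -φ (Pi.single e 1, τ (Pi.single e 1)))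
    fun e => φ (Pi.single e (-1), τ (Pi.single e (-1)))).subset fun u hu => ⟨fun e => ?_, fun e => ?_⟩
  · have := hu _ _ (hτ (Pi.single e 1))
    simp only [Pi.single_apply, mul_ite, mul_one, mul_zero, sum_ite_eq', mem_univ, if_true] at this
    linarith
  · have := hu _ _ (hτ (Pi.single e (-1)))
    simp only [Pi.single_apply, mul_ite, mul_neg, mul_one, mul_zero, sum_ite_eq', mem_univ,
      if_true] at this
    linarith

theorem closed : IsClosed (P L φ) := by
  simp only [P, Set.ofPred_forall]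
  exact isClosed_iInter fun x => isClosed_iInter fun y => isClosed_iInter fun _ =>
    isClosed_le (by fun_prop) continuous_const

theorem convex : Convex ℝ (P L φ) := fun u hu v hv a b ha hb hab x y hy => by
  have h1 := mul_le_mul_of_nonneg_left (hu x y hy) ha
  have h2 := mul_le_mul_of_nonneg_left (hv x y hy) hb
  simp only [Pi.add_apply, Pi.smul_apply, smul_eq_mul, add_mul, mul_assoc, sum_add_distrib,
    ← mul_sum]
  have : φ (x, y) = a * φ (x, y) + b * φ (x, y) := by rw [← add_mul, hab, one_mul]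
  linarith

end Dual

open V33.Dual in
theorem dual : DualStmt := by
  rintro E _ s M f S ⟨-, I, L, τ, hL, hτ, hM⟩ hf hS hmin
  obtain ⟨φ, ψ, hφ, hψ, e⟩ := hM f hf
  have hk : Fintype.card (Fin L.length) ≤ s := by simpa using hL
  obtain ⟨u₀, hu₀, -⟩ := attained hτ hφ 0
  refine ⟨P L φ, P L ψ, ⟨u₀, hu₀⟩, bounded hτ, Set.Subset.antisymm ?_ fun r hr => ?_,
    ⟨_, hk, xc hτ hφ⟩, _, hk, xc hτ hψ⟩
  · rintro _ ⟨p, hp, u, hu, rfl⟩ x y hy
    have h1 : f x ≤ ∑ e, p e * x e := by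
      refine convexHull_min (t := {p | f x ≤ ∑ e, p e * x e})
        (fun p hp => (hmin x).2 ⟨p, hp, rfl⟩) (fun u hu v hv a b ha hb hab => ?_) hp
      have h1 := mul_le_mul_of_nonneg_left hu ha
      have h2 := mul_le_mul_of_nonneg_left hv hb
      simp only [Set.mem_ofPred_eq, Pi.add_apply, Pi.smul_apply, smul_eq_mul, add_mul, mul_assoc,
        sum_add_distrib, ← mul_sum]
      have : f x = a * f x + b * f x := by rw [← add_mul, hab, one_mul]
      linarith
    have h2 := hu x _ (hτ x)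
    have h3 := hψ x y hy
    simp only [Pi.add_apply, add_mul, sum_add_distrib]
    linarith [e x]
  · by_contra hn
    obtain ⟨l, c, h1, h2⟩ := geometric_hahn_banach_point_closed
      ((convex_convexHull ℝ S).add convex) ((hS.isCompact_convexHull ℝ).add
        (Metric.isCompact_of_isClosed_isBounded closed (bounded hτ))).isClosed hn
    obtain ⟨x, hx⟩ := Dual.repr l.toLinearMap
    have hx' : ∀ v, l v = ∑ e, v e * x e := fun v =>
      (hx v).trans (sum_congr rfl fun e _ => mul_comm _ _)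
    obtain ⟨p, hp, h3⟩ := (hmin x).1
    obtain ⟨u, hu, h4⟩ := attained hτ hφ x
    have h5 := h2 _ (Set.add_mem_add (subset_convexHull ℝ S hp) hu)
    have h6 := hr x _ (hτ x)
    rw [map_add, hx', hx'] at h5
    rw [hx'] at h1
    linarith [e x]

end Pool.Agent.Lib.MP_234305_co.V33
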