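import Pool.Agent.Lib.MP_234305_co.V33.Base

/-! Three gates: transfer along a sorted list, joining labels, binary digits. -/

open Finset Relation
open scoped Classical

namespace Pool.Agent.Lib.MP_234305_co.V33

namespace Gates

variable {E : Type} {s : ℕ} {A A' B : Set (Fn E)} {Γ : Finset (Fn E × Fn E)} {x : E → ℝ}
  {a b : Fn E}

theorem of_span (h : Ext s A B) (hA : ∀ M : Submodule ℝ (Fn E), A' ⊆ M → A ⊆ M) : Ext s A' B :=
  fun t M h1 h2 => h t M (hA M h1) h2

theorem stp_le (hΓ : ∀ p ∈ Γ, p.1 ≤ p.2) (h : Stp Γ x a b) : a x ≤ b x := by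
  rcases h with h | ⟨-, h⟩
  exacts [hΓ _ h x, h.le]

theorem walk_le (hΓ : ∀ p ∈ Γ, p.1 ≤ p.2) (h : ReflTransGen (Stp Γ x) a b) : a x ≤ b x := by
  induction h with
  | refl => exact le_rfl
  | tail _ h ih => exact ih.trans (stp_le hΓ h)

theorem gap {δ : ℝ} {K a b u v : ℕ} (hδ : 0 ≤ δ) (h : δ * a ≤ δ * b) (he : a = b → u = v)
    (hu : u ≤ K) (hv : v ≤ K) :
    δ * v ≤ δ * u + K * (δ * b - δ * a) ∧ δ * u ≤ δ * v + K * (δ * b - δ * a) := by
  rcases hδ.eq_or_lt with rfl | hδ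
  · simp
  have h1 : a ≤ b := by exact_mod_cast le_of_mul_le_mul_left h hδ
  rcases h1.eq_or_lt with rfl | h1
  · simp [he rfl]
  have h2 : (a : ℝ) + 1 ≤ b := by exact_mod_cast h1
  have h3 : (u : ℝ) ≤ K := by exact_mod_cast hu
  have h4 : (v : ℝ) ≤ K := by exact_mod_cast hv
  have h5 : (0 : ℝ) ≤ u := Nat.cast_nonneg u
  have h6 : (0 : ℝ) ≤ v := Nat.cast_nonneg v
  have h7 : (K : ℝ) * δ ≤ K * (δ * b - δ * a) :=
    mul_le_mul_of_nonneg_left (by nlinarith) (Nat.cast_nonneg K)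
  constructor <;> nlinarith

end Gates

open Gates

theorem transfer (hn : NetStmt) : TransferStmt := by
  intro E D S Q Φ hc hΦ hq
  have hA : (S ∪ Q).card ≤ S.card + Q.card := card_union_le S Q
  obtain ⟨Γ, r, y, h1, -, h2, h3, -, -, -, -, h4⟩ := hn E D (S ∪ Q) (hA.trans hc)
  let T : Finset (Option (Fn E) × Fn E × Fn E) :=
    Γ.image (fun p => (some p.1, p.2, p.2 - p.1)) ∪ Γ.image (fun p => (some p.2, p.1, 0)) ∪
      S.image fun s => (none, s, fun x => Φ x (s x))
  have hT : ∀ c, c ∈ T ↔ (∃ p ∈ Γ, (some p.1, p.2, p.2 - p.1) = c) ∨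
      (∃ p ∈ Γ, (some p.2, p.1, 0) = c) ∨ ∃ s ∈ S, (none, s, fun x => Φ x (s x)) = c := by
    intro c
    simp only [T, mem_union, mem_image, or_assoc]
  have hcard : T.card ≤ Γ.card + Γ.card + S.card :=
    (card_union_le _ _).trans (add_le_add ((card_union_le _ _).trans
      (add_le_add card_image_le card_image_le)) card_image_le)
  have hg := gate T (fun x g => Φ x (g x)) (Q : Set (Fn E)) (fun x c hc => ?_) (fun x q hq' => ?_)
  · refine ((h2.mono le_rfl (A' := (S : Set (Fn E)) ∪ (Q : Set (Fn E)) ∪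
      {g | ∃ s ∈ S, g = fun x => Φ x (s x)}) (by simp) le_rfl).trans
        (of_span hg fun M hM => ?_)).mono ?_ le_rfl le_rfl
    · rintro _ ⟨c, hc, rfl⟩
      rcases (hT c).1 hc with ⟨p, hp, rfl⟩ | ⟨p, hp, rfl⟩ | ⟨s, hs, rfl⟩
      · exact M.sub_mem (hM (Or.inr (Or.inl ⟨p, hp, Or.inr rfl⟩)))
          (hM (Or.inr (Or.inl ⟨p, hp, Or.inl rfl⟩)))
      · exact M.zero_mem
      · exact hM (Or.inl (Or.inr ⟨s, hs, rfl⟩))
    · have e1 : 16 * (D + 1) ^ 2 * (S ∪ Q).card ≤ 16 * (D + 1) ^ 2 * (S.card + Q.card) :=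
        Nat.mul_le_mul_left _ hA
      have e2 : 1 * (S.card + Q.card) ≤ (D + 1) ^ 2 * (S.card + Q.card) :=
        Nat.mul_le_mul_right _ (Nat.one_le_pow _ _ (by omega))
      rw [mul_assoc] at h1 e1 ⊢
      rw [mul_assoc] at e1
      rw [mul_assoc]
      omega
  · rcases (hT c).1 hc with ⟨p, hp, rfl⟩ | ⟨p, hp, rfl⟩ | ⟨s, hs, rfl⟩
    · have := (hΦ x _ _ (h3 p hp x)).2
      simp only [Option.elim, Pi.sub_apply]
      linarith
    · simpa using (hΦ x _ _ (h3 p hp x)).1
    · simp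
  · obtain ⟨s, hs, h⟩ := hq x q hq'
    have m1 : s ∈ S ∪ Q := mem_union_left _ hs
    have m2 : q ∈ S ∪ Q := mem_union_right _ hq'
    set R := fun a b : Option (Fn E) => ∃ c ∈ T, c.1 = a ∧ some c.2.1 = b ∧
      Φ x (c.2.1 x) = c.1.elim 0 (fun g => Φ x (g x)) + c.2.2 x with hR
    have r0 : ReflTransGen R none (some s) :=
      ReflTransGen.single ⟨_, (hT _).2 (Or.inr (Or.inr ⟨s, hs, rfl⟩)), rfl, rfl, by simp⟩
    have up : ∀ a b, (a, b) ∈ Γ → Φ x (b x) = Φ x (a x) + (b x - a x) → R (some a) (some b) :=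
      fun a b hp e => ⟨_, (hT _).2 (Or.inl ⟨_, hp, rfl⟩), rfl, rfl, e⟩
    have dn : ∀ a b, (a, b) ∈ Γ → Φ x (a x) = Φ x (b x) → R (some b) (some a) :=
      fun a b hp e => ⟨_, (hT _).2 (Or.inr (Or.inl ⟨_, hp, rfl⟩)), rfl, rfl, by simpa using e⟩
    rcases h with ⟨h5, h6⟩ | ⟨h5, h6⟩
    · have key : ∀ g, ReflTransGen (Stp Γ x) s g → g x ≤ q x → ReflTransGen R none (some g) := by
        intro g hg
        induction hg with
        | refl => exact fun _ => r0
        | @tail b c hb hbc ih =>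
          intro hc
          have e1 := stp_le h3 hbc
          refine (ih (e1.trans hc)).tail ?_
          rcases hbc with hbc | ⟨hbc, e⟩
          · have e2 := (hΦ x _ _ (walk_le h3 hb)).2
            have e3 := (hΦ x _ _ e1).2
            have e4 := (hΦ x _ _ hc).2
            exact up b c hbc (by linarith)
          · exact dn c b hbc (by rw [e])
      exact key q (h4 x s m1 q m2 h5) le_rfl
    · have key : ∀ g, ReflTransGen (Stp Γ x) g s → q x ≤ g x → ReflTransGen R none (some g) := by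
        intro g hg
        induction hg using ReflTransGen.head_induction_on with
        | refl => exact fun _ => r0
        | @head b c hbc hc ih =>
          intro hb
          have e1 := stp_le h3 hbc
          refine (ih (hb.trans e1)).tail ?_
          rcases hbc with hbc | ⟨hbc, e⟩
          · have e2 := (hΦ x _ _ (walk_le h3 hc)).1
            have e3 := (hΦ x _ _ e1).1
            have e4 := (hΦ x _ _ hb).1
            exact dn b c hbc (by linarith)
          · exact up c b hbc (by rw [e]; ring)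
      exact key q (h4 x q m2 s m1 h5) le_rfl

theorem joinG (hn : NetStmt) : JoinStmt := by
  intro E V D K W δ f h σ hc hδ hf hσ hj
  let key : Bool → V → Fn E := fun c i x => δ x * (f c x i : ℝ)
  have hA : ∀ c, ((W c).image (key c)).card ≤ (W c).card := fun c => card_image_le
  choose Γ r y h1 _ h2 h3 h4 _ _ _ h5 using fun c => hn E D _ ((hA c).trans (hc c))
  let pv : (E → ℝ) → Bool → ℝ → ℝ := fun x c t =>
    if e : ∃ i ∈ W c, t = key c i x then δ x * h x e.choose else 0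
  have hpv : ∀ x c, ∀ i ∈ W c, pv x c (key c i x) = δ x * h x i := by
    intro x c i hi
    have e : ∃ j ∈ W c, key c i x = key c j x := ⟨i, hi, rfl⟩
    simp only [pv, dif_pos e]
    obtain ⟨e1, e2⟩ := e.choose_spec
    rcases eq_or_ne (δ x) 0 with e3 | e3
    · simp [e3]
    · rw [hf x c i hi _ e1 (by exact_mod_cast mul_left_cancel₀ e3 e2)]
  let pot : (E → ℝ) → V ⊕ Bool × Fn E → ℝ := fun x =>
    Sum.elim (fun i => δ x * h x i) fun u => pv x u.1 (u.2 x)
  let T0 : Bool → Finset (Option (V ⊕ Bool × Fn E) × (V ⊕ Bool × Fn E) × Fn E) := fun c =>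
    (Γ c).image (fun p => (some (.inr (c, p.1)), .inr (c, p.2), (K : ℝ) • (p.2 - p.1))) ∪
    (Γ c).image (fun p => (some (.inr (c, p.2)), .inr (c, p.1), (K : ℝ) • (p.2 - p.1))) ∪
    (W c).image (fun i => (some (.inl i), .inr (c, key c i), 0)) ∪
    (W c).image (fun i => (some (.inr (c, key c i)), .inl i, 0)) ∪
    (W c).image (fun i => (none, .inl i, (σ i : ℝ) • δ))
  have hT : ∀ e, e ∈ T0 true ∪ T0 false ↔ ∃ c,
      (∃ p ∈ Γ c, (some (.inr (c, p.1)), .inr (c, p.2), (K : ℝ) • (p.2 - p.1)) = e) ∨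
      (∃ p ∈ Γ c, (some (.inr (c, p.2)), .inr (c, p.1), (K : ℝ) • (p.2 - p.1)) = e) ∨
      (∃ i ∈ W c, (some (.inl i), .inr (c, key c i), 0) = e) ∨
      (∃ i ∈ W c, (some (.inr (c, key c i)), .inl i, 0) = e) ∨
      ∃ i ∈ W c, (none, .inl i, (σ i : ℝ) • δ) = e := by
    intro e
    rw [mem_union, Bool.exists_bool, or_comm]
    simp only [T0, mem_union, mem_image, or_assoc]
  have hcard : ∀ c, (T0 c).card ≤
      (Γ c).card + (Γ c).card + (W c).card + (W c).card + (W c).card := fun c =>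
    (card_union_le _ _).trans (add_le_add ((card_union_le _ _).trans (add_le_add
      ((card_union_le _ _).trans (add_le_add ((card_union_le _ _).trans
      (add_le_add card_image_le card_image_le)) card_image_le)) card_image_le)) card_image_le)
  have hgap : ∀ x c, ∀ p ∈ Γ c,
      pv x c (p.2 x) ≤ pv x c (p.1 x) + K * (p.2 x - p.1 x) ∧
      pv x c (p.1 x) ≤ pv x c (p.2 x) + K * (p.2 x - p.1 x) := by
    intro x c p hp
    obtain ⟨⟨g1, m1, e1⟩, g2, m2, e2⟩ := h4 c p hp x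
    obtain ⟨i, hi, rfl⟩ := mem_image.1 m1
    obtain ⟨j, hj, rfl⟩ := mem_image.1 m2
    have e3 := h3 c p hp x
    rw [e1, e2] at e3 ⊢
    rw [hpv x c i hi, hpv x c j hj]
    exact gap (hδ x) e3 (hf x c i hi j hj) ((hσ x c i hi).1.trans (hσ x c i hi).2)
      ((hσ x c j hj).1.trans (hσ x c j hj).2)
  have hg := gate (T0 true ∪ T0 false) pot {v | ∃ c, ∃ i ∈ W c, v = .inl i}
    (fun x e he => ?_) (fun x v hv => ?_)
  · have hs : ∀ c, (((W c).image (key c) : Finset (Fn E)) : Set (Fn E)) ⊆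
        {δ} ∪ {g | ∃ c, ∃ i ∈ W c, g = fun x => δ x * (f c x i : ℝ)} := by
      intro c g hg
      obtain ⟨i, hi, rfl⟩ := mem_image.1 hg
      exact Or.inr ⟨c, i, hi, rfl⟩
    refine (((((h2 true).mono le_rfl (hs true) Set.subset_union_left).union
      ((h2 false).mono le_rfl (hs false) Set.subset_union_left)).trans
        (of_span hg fun M hM => ?_)).mono ?_ le_rfl ?_)
    · have hp : ∀ c, ∀ p ∈ Γ c, (K : ℝ) • (p.2 - p.1) ∈ M := by
        intro c p hp
        refine M.smul_mem _ (M.sub_mem (hM (Or.inr ?_)) (hM (Or.inr ?_))) <;> cases c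
        exacts [Or.inr ⟨p, hp, Or.inr rfl⟩, Or.inl ⟨p, hp, Or.inr rfl⟩,
          Or.inr ⟨p, hp, Or.inl rfl⟩, Or.inl ⟨p, hp, Or.inl rfl⟩]
      rintro _ ⟨e, he, rfl⟩
      obtain ⟨c, ⟨p, m, rfl⟩ | ⟨p, m, rfl⟩ | ⟨i, m, rfl⟩ | ⟨i, m, rfl⟩ | ⟨i, m, rfl⟩⟩ := (hT e).1 he
      exacts [hp c p m, hp c p m, M.zero_mem, M.zero_mem, M.smul_mem _ (hM (Or.inl (Or.inl rfl)))]
    · have e0 := card_union_le (T0 true) (T0 false)
      have e1 : ∀ c, 16 * (D + 1) ^ 2 * ((W c).image (key c)).card ≤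
          16 * ((D + 1) ^ 2 * (W c).card) := fun c =>
        (Nat.mul_le_mul_left _ (hA c)).trans (mul_assoc _ _ _).le
      have e2 : ∀ c, 1 * (W c).card ≤ (D + 1) ^ 2 * (W c).card := fun c =>
        Nat.mul_le_mul_right _ (Nat.one_le_pow _ _ (by omega))
      have a1 := (h1 true).trans (e1 true)
      have a2 := (h1 false).trans (e1 false)
      have a3 := e1 true
      have a4 := e1 false
      have a5 := e2 true
      have a6 := e2 false
      have a7 := hcard true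
      have a8 := hcard false
      rw [mul_assoc 56, mul_add]
      omega
    · rintro _ ⟨c, i, hi, rfl⟩
      exact ⟨.inl i, ⟨c, i, hi, rfl⟩, rfl⟩
  · obtain ⟨c, ⟨p, m, rfl⟩ | ⟨p, m, rfl⟩ | ⟨i, m, rfl⟩ | ⟨i, m, rfl⟩ | ⟨i, m, rfl⟩⟩ := (hT e).1 he
    · exact (hgap x c p m).1
    · exact (hgap x c p m).2
    · exact (hpv x c i m).le.trans (by simp [pot])
    · exact (hpv x c i m).ge.trans (by simp [pot])
    · have : (h x i : ℝ) ≤ σ i := by exact_mod_cast (hσ x c i m).1
      have := mul_le_mul_of_nonneg_left this (hδ x)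
      simpa [pot, mul_comm] using this
  · obtain ⟨c, i, hi, rfl⟩ := hv
    obtain ⟨j, ⟨c', hj'⟩, e, hw⟩ := hj x c i hi
    set R := fun a b : Option (V ⊕ Bool × Fn E) => ∃ e ∈ T0 true ∪ T0 false, e.1 = a ∧
      some e.2.1 = b ∧ pot x e.2.1 = e.1.elim 0 (pot x) + e.2.2 x with hR
    have e1 : h x j = h x i := by
      clear e hi
      induction hw with
      | refl => rfl
      | tail _ hb ih =>
        obtain ⟨c, m1, m2, m3⟩ := hb
        exact ih.trans (hf x c _ m1 _ m2 m3)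
    have walk : ∀ c k g, ReflTransGen (Stp (Γ c) x) k g → g x ≤ k x →
        ReflTransGen R (some (.inr (c, k))) (some (.inr (c, g))) := by
      intro c k g hg
      induction hg with
      | refl => exact fun _ => ReflTransGen.refl
      | @tail a b ha hab ih =>
        intro hb
        have e2 := stp_le (h3 c) hab
        have e3 : a x = b x := le_antisymm e2 (hb.trans (walk_le (h3 c) ha))
        refine (ih (e2.trans hb)).tail ?_
        rcases hab with hab | ⟨hab, -⟩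
        · exact ⟨_, (hT _).2 ⟨c, Or.inl ⟨_, hab, rfl⟩⟩, rfl, rfl, by simp [pot, e3]⟩
        · exact ⟨_, (hT _).2 ⟨c, Or.inr (Or.inl ⟨_, hab, rfl⟩)⟩, rfl, rfl, by simp [pot, e3]⟩
    have r0 : ReflTransGen R none (some (.inl j)) :=
      ReflTransGen.single ⟨_, (hT _).2 ⟨c', Or.inr (Or.inr (Or.inr (Or.inr ⟨j, hj', rfl⟩)))⟩,
        rfl, rfl, by simp [pot, e1, e, mul_comm]⟩
    clear e e1 hi
    induction hw with
    | refl => exact r0
    | @tail a b _ hb ih =>
      obtain ⟨c, m1, m2, m3⟩ := hb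
      have e4 : key c a x = key c b x := by simp only [key, m3]
      refine ((ih.tail ?_).trans (walk c _ _ (h5 c x _ (mem_image_of_mem _ m1) _
        (mem_image_of_mem _ m2) e4.le) e4.ge)).tail ?_
      · exact ⟨_, (hT _).2 ⟨c, Or.inr (Or.inr (Or.inl ⟨a, m1, rfl⟩))⟩, rfl, rfl,
          (hpv x c a m1).trans (by simp [pot])⟩
      · exact ⟨_, (hT _).2 ⟨c, Or.inr (Or.inr (Or.inr (Or.inl ⟨b, m2, rfl⟩)))⟩, rfl, rfl,
          (hpv x c b m2).symm.trans (by simp [pot])⟩

theorem bits : BitStmt := by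
  intro E L δ h hδ
  induction L generalizing h with
  | zero => exact fun _ => Ext.of_mem fun M _ _ g hg => by simp at hg
  | succ L ih =>
    intro hh t M hA hC
    have m1 : δ ∈ M := hA (by simp)
    have m2 : (fun x => δ x * (h x : ℝ)) ∈ M := hA (by simp)
    let g : Fn E := (fun x => δ x * (h x : ℝ)) - ((2 : ℝ) ^ L - 1) • δ
    have m3 : g ∈ M := M.sub_mem m2 (M.smul_mem _ m1)
    obtain ⟨M1, a1, b1, c1⟩ := ext_inf 0 g t M
      (Set.insert_subset M.zero_mem (Set.singleton_subset_iff.2 m3)) hC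
    obtain ⟨M2, a2, b2, c2⟩ := ext_inf δ (0 ⊔ g) _ M1
      (Set.insert_subset (a1 m1) (Set.singleton_subset_iff.2 (b1 (by simp)))) c1
    have e1 : ∀ x, h x / 2 ^ L % 2 = h x / 2 ^ L := fun x =>
      Nat.mod_eq_of_lt (Nat.div_lt_of_lt_mul (by rw [← pow_succ]; exact hh x))
    have e2 : δ ⊓ (0 ⊔ g) = fun x => δ x * ((h x / 2 ^ L % 2 : ℕ) : ℝ) := by
      funext x
      have d0 := hδ x
      simp only [g, Pi.inf_apply, Pi.sup_apply, Pi.zero_apply, Pi.sub_apply, Pi.smul_apply,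
        smul_eq_mul]
      rcases lt_or_ge (h x) (2 ^ L) with e | e
      · have e' : (h x : ℝ) + 1 ≤ 2 ^ L := by exact_mod_cast e
        rw [Nat.div_eq_of_lt e, max_eq_left (by nlinarith), min_eq_right d0]
        simp
      · have e' : (2 : ℝ) ^ L ≤ h x := by exact_mod_cast e
        have e3 : h x / 2 ^ L % 2 = 1 := by
          have := e1 x
          have : 0 < h x / 2 ^ L := Nat.div_pos e (by positivity)
          omega
        rw [e3, min_eq_left (le_max_of_le_right (by nlinarith))]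
        simp
    have m4 : (fun x => δ x * ((h x / 2 ^ L % 2 : ℕ) : ℝ)) ∈ M2 := e2 ▸ b2 (by simp)
    have m5 : (fun x => δ x * ((h x % 2 ^ L : ℕ) : ℝ)) ∈ M2 := by
      convert M2.sub_mem (a2 (a1 m2)) (M2.smul_mem ((2 : ℝ) ^ L) m4) using 1
      funext x
      have e4 : ((h x % 2 ^ L : ℕ) : ℝ) + 2 ^ L * ((h x / 2 ^ L : ℕ) : ℝ) = h x := by
        exact_mod_cast Nat.mod_add_div (h x) (2 ^ L)
      simp only [Pi.sub_apply, Pi.smul_apply, smul_eq_mul, e1]
      rw [← e4]
      ring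
    obtain ⟨M3, a3, b3, c3⟩ := ih (fun x => h x % 2 ^ L) (fun x => Nat.mod_lt _ (by positivity)) _
      M2 (Set.insert_subset (a2 (a1 m1)) (Set.singleton_subset_iff.2 m5)) c2
    refine ⟨M3, (a1.trans a2).trans a3, ?_, c3.mono (by omega)⟩
    rintro _ ⟨l, hl, rfl⟩
    rcases (Nat.lt_succ_iff.1 hl).eq_or_lt with rfl | hl
    · exact a3 m4
    · refine b3 ⟨l, hl, funext fun x => ?_⟩
      obtain ⟨d, rfl⟩ := Nat.exists_eq_add_of_lt hl
      rw [add_assoc, pow_add, Nat.mod_mul_right_div_self,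
        Nat.mod_mod_of_dvd _ (dvd_pow_self 2 (Nat.succ_ne_zero d))]

end Pool.Agent.Lib.MP_234305_co.V33
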