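import Pool.Agent.Lib.MP_234305_co.V33.Defs

/-! Integrals of step functions. -/

open Finset MeasureTheory
open scoped Classical

namespace Pool.Agent.Lib.MP_234305_co.V33

namespace Int

variable {E : Type} [Fintype E] (m : Fn E)

theorem ii (φ : Set E → ℝ) (x : E → ℝ) (a b : ℝ) :
    IntervalIntegrable (fun s => φ {e | x e ≤ s}) volume a b := by
  have h1 : Measurable fun s : ℝ => ({e | x e ≤ s} : Set E) :=
    measurable_set_iff.2 fun e => measurableSet_setOfPred.1 measurableSet_Ici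
  obtain ⟨C, hC⟩ := (Set.finite_range fun ξ => ‖φ ξ‖).bddAbove
  exact intervalIntegrable_iff.2 (Measure.integrableOn_of_bounded (M := C) measure_Ioc_lt_top.ne
    ((measurable_of_finite φ).comp h1).aestronglyMeasurable
    (Filter.Eventually.of_forall fun s => hC ⟨_, rfl⟩))

theorem diff (φ : Set E → ℝ) (x : E → ℝ) (a b : ℝ) :
    In m φ x b - In m φ x a = ∫ s in a..b, φ {e | x e ≤ s} :=
  intervalIntegral.integral_interval_sub_left (ii φ x _ _) (ii φ x _ _)

theorem const (φ : Set E → ℝ) (x : E → ℝ) (a b κ : ℝ) (hab : a ≤ b)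
    (h : ∀ t, a ≤ t → t < b → φ {e | x e ≤ t} = κ) : In m φ x b - In m φ x a = (b - a) * κ := by
  rw [diff, intervalIntegral.integral_congr_ae (g := fun _ => κ), intervalIntegral.integral_const,
    smul_eq_mul]
  filter_upwards [(Set.countable_singleton b).ae_notMem volume] with t ht ht'
  rw [Set.uIoc_of_le hab] at ht'
  exact h t ht'.1.le (lt_of_le_of_ne ht'.2 ht)

theorem lip (φ : Set E → ℝ) (x : E → ℝ) (a b : ℝ) (h : ∀ ξ, 0 ≤ φ ξ ∧ φ ξ ≤ 1) (hab : a ≤ b) :
    In m φ x a ≤ In m φ x b ∧ In m φ x b - In m φ x a ≤ b - a := by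
  rw [← sub_nonneg, diff]
  refine ⟨intervalIntegral.integral_nonneg hab fun _ _ => (h _).1, ?_⟩
  simpa using intervalIntegral.integral_mono_on hab (ii φ x a b)
    (intervalIntegrable_const (c := (1 : ℝ))) fun _ _ => (h _).2

omit [Fintype E] in
theorem start (φ : Set E → ℝ) (x : E → ℝ) : In m φ x (m x) = 0 :=
  intervalIntegral.integral_same

theorem thr (p : Set E → Prop) (x : E → ℝ) (M t : ℝ) (hp : ∀ ξ η, ξ ⊆ η → p η → p ξ)
    (hm : m x ≤ t) (hM : t < M) :
    t < m x + In m (fun ξ => if p ξ then 1 else 0) x M ↔ p {e | x e ≤ t} := by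
  have h01 : ∀ ξ, (0 : ℝ) ≤ (if p ξ then 1 else 0) ∧ (if p ξ then (1 : ℝ) else 0) ≤ 1 :=
    fun ξ => by split_ifs <;> norm_num
  have h0 := start m (fun ξ => if p ξ then 1 else 0) x
  refine ⟨fun h => by_contra fun hn => ?_, fun h => ?_⟩
  · have h1 := const m (fun ξ => if p ξ then 1 else 0) x t M 0 hM.le fun s hs _ =>
      if_neg fun h => hn (hp _ _ (fun e he => le_trans he hs) h)
    have h2 := (lip m _ x _ _ h01 hm).2
    linarith
  · obtain ⟨u, hu, hu'⟩ := exists_min_image (insert M ((univ.filter fun e => t < x e).image x)) id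
      (insert_nonempty _ _)
    have htu : t < u := by
      rcases mem_insert.1 hu with rfl | hu
      · exact hM
      · obtain ⟨e, he, rfl⟩ := mem_image.1 hu
        exact (mem_filter.1 he).2
    have h1 := const m (fun ξ => if p ξ then 1 else 0) x (m x) u 1 (hm.trans htu.le) fun s _ hs =>
      if_pos (hp _ _ (fun e he => not_lt.1 fun h => (hs.trans_le (hu' (x e) (mem_insert_of_mem
        (mem_image_of_mem x (mem_filter.2 ⟨mem_univ e, h⟩))))).not_ge he) h)
    have h2 := (lip m _ x u M h01 (hu' M (mem_insert_self _ _))).1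
    linarith

theorem grid (M : Fn E) (S : Finset (Fn E)) (φ : Set E → ℝ) (x : E → ℝ) (q : ℝ) (hR : Rng m M S)
    (hG : Grid m M S φ) (h : ∀ ξ, φ ξ = 0 ∨ φ ξ = 1) (hm : m x ≤ q) (hM : q ≤ M x) :
    ∃ s ∈ S, (s x ≤ q ∧ In m φ x q - In m φ x (s x) = q - s x) ∨
      (q ≤ s x ∧ In m φ x q = In m φ x (s x)) := by
  obtain ⟨a, ha, ha'⟩ := exists_max_image (S.filter fun s => s x ≤ q) (fun s => s x)
    (let ⟨s, h1, h2⟩ := hR.1 x; ⟨s, mem_filter.2 ⟨h1, h2.le.trans hm⟩⟩)
  obtain ⟨b, hb, hb'⟩ := exists_min_image (S.filter fun s => q ≤ s x) (fun s => s x)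
    (let ⟨s, h1, h2⟩ := hR.2.1 x; ⟨s, mem_filter.2 ⟨h1, hM.trans h2.ge⟩⟩)
  obtain ⟨haS, haq⟩ := mem_filter.1 ha
  obtain ⟨hbS, hbq⟩ := mem_filter.1 hb
  have key : ∀ t, a x ≤ t → t < b x → φ {e | x e ≤ t} = φ {e | x e ≤ a x} := fun t h1 h2 =>
    hG x _ t ((hR.2.2 a haS).1 x) h1 (h2.trans_le ((hR.2.2 b hbS).2 x)) fun s hs =>
      (le_total (s x) q).imp (fun h => ha' s (mem_filter.2 ⟨hs, h⟩))
        fun h => h2.trans_le (hb' s (mem_filter.2 ⟨hs, h⟩))
  rcases h {e | x e ≤ a x} with h0 | h0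
  · have := const m φ x q (b x) 0 hbq fun t h1 h2 => (key t (haq.trans h1) h2).trans h0
    exact ⟨b, hbS, Or.inr ⟨hbq, by linarith⟩⟩
  · have := const m φ x (a x) q 1 haq fun t h1 h2 => (key t h1 (h2.trans_le hbq)).trans h0
    exact ⟨a, haS, Or.inl ⟨haq, by linarith⟩⟩

end Int

theorem intS : IntStmt := fun _ _ m =>
  ⟨Int.const m, Int.lip m,
    fun φ ψ x _ => intervalIntegral.integral_add (Int.ii φ x _ _) (Int.ii ψ x _ _),
    fun _ _ φ x _ => intervalIntegral.integral_finsetSum fun i _ => Int.ii (φ i) x _ _,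
    Int.thr m, Int.grid m⟩

end Pool.Agent.Lib.MP_234305_co.V33
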