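import Pool.Agent.Lib.MP_234305_co.V33.Defs

/-! The weight of a minimum spanning tree as an integral of the number of classes. -/

open Finset Relation
open scoped Classical

namespace Pool.Agent.Lib.MP_234305_co.V33

namespace Mst

variable {n : ℕ} {F F' : Set (Sym2 (Fin n))} {a b u w : Fin n}

theorem rc_symm (h : Rc F a b) : Rc F b a := by
  induction h with
  | refl => exact ReflTransGen.refl
  | tail _ h ih => exact ReflTransGen.head (by rwa [Sym2.eq_swap]) ih

theorem rc_le (h : ∀ a b, s(a, b) ∈ F → Rc F' a b) (hab : Rc F a b) : Rc F' a b := by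
  induction hab with
  | refl => exact ReflTransGen.refl
  | tail _ h' ih => exact ReflTransGen.trans ih (h _ _ h')

theorem rc_mono (h : F ⊆ F') (hab : Rc F a b) : Rc F' a b :=
  rc_le (fun _ _ hx => ReflTransGen.single (h hx)) hab

theorem rc_insert (h : Rc (insert s(a, b) F) u w) :
    Rc F u w ∨ (Rc F u a ∧ Rc F b w) ∨ (Rc F u b ∧ Rc F a w) := by
  induction h with
  | refl => exact Or.inl ReflTransGen.refl
  | tail _ h ih =>
    rcases h with h | h
    · rcases Sym2.eq_iff.1 h with ⟨rfl, rfl⟩ | ⟨rfl, rfl⟩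
      · rcases ih with h | h | h
        exacts [Or.inr (Or.inl ⟨h, ReflTransGen.refl⟩), Or.inr (Or.inl ⟨h.1, ReflTransGen.refl⟩),
          Or.inl h.1]
      · rcases ih with h | h | h
        exacts [Or.inr (Or.inr ⟨h, ReflTransGen.refl⟩), Or.inl h.1,
          Or.inr (Or.inr ⟨h.1, ReflTransGen.refl⟩)]
    · rcases ih with h' | h' | h'
      exacts [Or.inl (h'.tail h), Or.inr (Or.inl ⟨h'.1, h'.2.tail h⟩),
        Or.inr (Or.inr ⟨h'.1, h'.2.tail h⟩)]

theorem rc_insert_le (e : Sym2 (Fin n)) (h : Rc F = Rc F') (hu : Rc (insert e F) u w) :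
    Rc (insert e F') u w := by
  refine rc_le (fun c d hc => ?_) hu
  rcases hc with hc | hc
  · exact ReflTransGen.single (Or.inl hc)
  · exact rc_mono (Set.subset_insert _ _) (h ▸ ReflTransGen.single hc)

theorem rc_insert_congr (e : Sym2 (Fin n)) (h : Rc F = Rc F') :
    Rc (insert e F) = Rc (insert e F') :=
  funext fun _ => funext fun _ => propext ⟨rc_insert_le e h, rc_insert_le e h.symm⟩

theorem rc_insert_eq (h : Rc F a b) : Rc (insert s(a, b) F) = Rc F := by
  refine funext fun u => funext fun w => propext ⟨fun hu => ?_, rc_mono (Set.subset_insert _ _)⟩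
  rcases rc_insert hu with h' | h' | h'
  exacts [h', (h'.1.trans h).trans h'.2, (h'.1.trans (rc_symm h)).trans h'.2]

theorem cls_eq : univ.filter (Rc F u) = univ.filter (Rc F w) ↔ Rc F u w := by
  refine ⟨fun h => ?_, fun h => filter_congr fun z _ => ⟨fun h' => (rc_symm h).trans h',
    fun h' => h.trans h'⟩⟩
  have : w ∈ univ.filter (Rc F u) := h ▸ mem_filter.2 ⟨mem_univ _, ReflTransGen.refl⟩
  exact (mem_filter.1 this).2

/-- The number of classes. -/
noncomputable def cl (F : Set (Sym2 (Fin n))) : ℕ :=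
  (univ.image fun u => univ.filter (Rc F u)).card

theorem cl_congr (h : Rc F = Rc F') : cl F = cl F' := by
  unfold cl
  rw [h]

theorem fre_add_one (v : Fin n) (F : Set (Sym2 (Fin n))) : fre univ {v} F + 1 = cl F := by
  have h : ((univ.filter fun u => ∀ j ∈ ({v} : Finset (Fin n)), ¬ Rc F u j).image
      fun u => univ.filter (Rc F u)) =
      (univ.image fun u => univ.filter (Rc F u)).erase (univ.filter (Rc F v)) := by
    ext c
    simp only [mem_image, mem_filter, mem_univ, true_and, mem_singleton, forall_eq, mem_erase]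
    constructor
    · rintro ⟨u, hu, rfl⟩
      exact ⟨fun h => hu (cls_eq.1 h), u, rfl⟩
    · rintro ⟨hu, u, rfl⟩
      exact ⟨u, fun h => hu (cls_eq.2 h), rfl⟩
  unfold fre cl
  rw [h, card_erase_add_one (mem_image_of_mem _ (mem_univ v))]

theorem img_le (s : Finset (Fin n)) (h : ∀ u ∈ s, ∀ w ∈ s, Rc F u w → Rc F' u w) :
    (s.image fun u => univ.filter (Rc F' u)).card ≤
      (s.image fun u => univ.filter (Rc F u)).card := by
  refine card_le_card_of_surjOn
    (fun c => univ.filter fun z => ∃ u ∈ s, c = univ.filter (Rc F u) ∧ Rc F' u z) fun c hc => ?_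
  obtain ⟨u, hu, rfl⟩ := mem_image.1 (mem_coe.1 hc)
  refine ⟨_, mem_coe.2 (mem_image_of_mem _ hu),
    filter_congr fun z _ => ⟨?_, fun hz => ⟨u, hu, rfl, hz⟩⟩⟩
  rintro ⟨w, hw, h1, h2⟩
  exact (h u hu w hw (cls_eq.1 h1)).trans h2

theorem cl_anti (h : F ⊆ F') : cl F' ≤ cl F := img_le _ fun _ _ _ _ => rc_mono h

theorem cl_le_insert (e : Sym2 (Fin n)) (F : Set (Sym2 (Fin n))) :
    cl F ≤ cl (insert e F) + 1 := by
  induction e using Sym2.ind with
  | _ a b =>
    rw [← fre_add_one a F]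
    refine Nat.succ_le_succ ((img_le (F := insert s(a, b) F) _ fun u hu w hw h => ?_).trans
      (card_le_card (image_subset_image (subset_univ _))))
    rcases rc_insert h with h' | h' | h'
    · exact h'
    · exact ((mem_filter.1 hu).2 a (mem_singleton_self a) h'.1).elim
    · exact ((mem_filter.1 hw).2 a (mem_singleton_self a) (rc_symm h'.2)).elim

theorem cl_insert (h : ¬ Rc F a b) : cl (insert s(a, b) F) + 1 = cl F := by
  refine le_antisymm ?_ (cl_le_insert _ _)
  rw [← fre_add_one a F]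
  refine Nat.succ_le_succ (le_trans (card_le_card fun c hc => ?_)
    (img_le (F' := insert s(a, b) F) _ fun u _ w _ => rc_mono (Set.subset_insert _ _)))
  obtain ⟨u, -, rfl⟩ := mem_image.1 hc
  by_cases hu : Rc F u a
  · refine mem_image.2 ⟨b, by simpa using fun h' => h (rc_symm h'), cls_eq.2 (rc_symm ?_)⟩
    exact (rc_mono (Set.subset_insert _ _) hu).tail (Or.inl rfl)
  · exact mem_image.2 ⟨u, by simpa using hu, rfl⟩

theorem cl_empty : cl (∅ : Set (Sym2 (Fin n))) = n := by
  unfold cl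
  rw [card_image_of_injective, card_fin]
  intro u w h
  have h1 : Rc (∅ : Set (Sym2 (Fin n))) u w := cls_eq.1 h
  induction h1 with
  | refl => rfl
  | tail _ h' _ => exact h'.elim

theorem cl_one (v : Fin n) (h : ∀ u w, Rc F u w) : cl F = 1 := by
  rw [← fre_add_one v F]
  simp [fre, h]

theorem cl_le_union (T : Finset (Sym2 (Fin n))) (F : Set (Sym2 (Fin n))) :
    cl F ≤ cl (↑T ∪ F) + T.card := by
  induction T using Finset.induction_on with
  | empty => simp
  | insert e T he ih =>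
    have := cl_le_insert e (↑T ∪ F)
    rw [card_insert_of_notMem he, coe_insert, Set.insert_union]
    omega

theorem fre_tree (v : Fin n) (T : Finset (Sym2 (Fin n)))
    (h1 : ∀ u w, Rc (↑T : Set (Sym2 (Fin n))) u w) (h2 : T.card + 1 = n) (ξ : Set (Sym2 (Fin n))) :
    fre univ {v} (↑T ∩ ξ) = (T.filter fun e => e ∉ ξ).card := by
  have e1 := cl_le_union (T.filter fun e => e ∉ ξ) (↑T ∩ ξ)
  have e2 := cl_le_union (T.filter fun e => e ∈ ξ) ∅
  have e3 : (↑(T.filter fun e => e ∉ ξ) ∪ (↑T ∩ ξ) : Set (Sym2 (Fin n))) = ↑T := by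
    ext e
    simp only [coe_filter, Set.mem_union, Set.mem_ofPred_eq, Set.mem_inter_iff, mem_coe]
    tauto
  have e4 : (↑(T.filter fun e => e ∈ ξ) ∪ ∅ : Set (Sym2 (Fin n))) = ↑T ∩ ξ := by
    ext e
    simp
  have e5 := card_filter_add_card_filter_not (s := T) fun e => e ∈ ξ
  rw [e3, cl_one v h1] at e1
  rw [e4, cl_empty] at e2
  have e6 := fre_add_one v (↑T ∩ ξ)
  omega

theorem kruskal (x : Sym2 (Fin n) → ℝ) (S : Finset (Sym2 (Fin n))) :
    ∃ T ⊆ S, T.card + cl (↑S : Set (Sym2 (Fin n))) = n ∧ Rc (↑T : Set (Sym2 (Fin n))) = Rc ↑S ∧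
      ∀ t, Rc (↑T ∩ {e | x e ≤ t}) = Rc (↑S ∩ {e | x e ≤ t}) := by
  induction S using Finset.induction_on_max_value x with
  | empty => exact ⟨∅, subset_rfl, by simp [cl_empty], rfl, fun _ => rfl⟩
  | insert e S he hm ih =>
    obtain ⟨T, hT, h1, h2, h3⟩ := ih
    have hS : ∀ t, x e ≤ t → ∀ R ⊆ insert e S, (↑R ∩ {e | x e ≤ t} : Set (Sym2 (Fin n))) = ↑R :=
      fun t ht R hR => Set.inter_eq_left.2 fun f hf => by
        rcases mem_insert.1 (hR hf) with rfl | hf'
        exacts [ht, (hm f hf').trans ht]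
    have hN : ∀ t, ¬ x e ≤ t → ∀ R : Finset (Sym2 (Fin n)),
        (↑(insert e R) ∩ {e | x e ≤ t} : Set (Sym2 (Fin n))) = ↑R ∩ {e | x e ≤ t} := fun t ht R => by
      rw [coe_insert]
      exact Set.insert_inter_of_notMem ht
    induction e using Sym2.ind with
    | _ a b =>
      by_cases hab : Rc (↑S : Set (Sym2 (Fin n))) a b
      · have h4 : Rc (↑T : Set (Sym2 (Fin n))) = Rc ↑(insert s(a, b) S) := by
          rw [coe_insert, rc_insert_eq hab, h2]
        refine ⟨T, hT.trans (subset_insert _ _), ?_, h4, fun t => ?_⟩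
        · rw [coe_insert, cl_congr (rc_insert_eq hab), h1]
        · by_cases ht : x s(a, b) ≤ t
          · rw [hS t ht _ subset_rfl, hS t ht _ (hT.trans (subset_insert _ _)), h4]
          · rw [hN t ht, h3]
      · have h4 : Rc (↑(insert s(a, b) T) : Set (Sym2 (Fin n))) = Rc ↑(insert s(a, b) S) := by
          rw [coe_insert, coe_insert, rc_insert_congr _ h2]
        refine ⟨insert s(a, b) T, insert_subset_insert _ hT, ?_, h4, fun t => ?_⟩
        · have := cl_insert hab
          rw [coe_insert, card_insert_of_notMem fun h => he (hT h)]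
          omega
        · by_cases ht : x s(a, b) ≤ t
          · rw [hS t ht _ subset_rfl, hS t ht _ (insert_subset_insert _ hT), h4]
          · rw [hN t ht, hN t ht, h3]

theorem int_one {m M c : ℝ} (h1 : m ≤ c) (h2 : c ≤ M) :
    ∫ t in m..M, (if ¬ c ≤ t then (1 : ℝ) else 0) = c - m := by
  have h := intervalIntegral.integral_indicator (μ := MeasureTheory.volume)
    (f := fun _ : ℝ => (1 : ℝ)) (a₁ := m) (a₂ := c) (a₃ := M) ⟨h1, h2⟩
  rw [intervalIntegral.integral_const, smul_eq_mul, mul_one] at h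
  rw [← h]
  refine intervalIntegral.integral_congr_ae ?_
  filter_upwards [MeasureTheory.compl_mem_ae_iff.2 (MeasureTheory.measure_singleton c)] with t ht _
  have ht' : t ≠ c := ht
  rcases lt_or_gt_of_ne ht' with h3 | h3
  · simp [h3, h3.le]
  · simp [h3, h3.le]

theorem anti_one (c : ℝ) : Antitone fun t => if ¬ c ≤ t then (1 : ℝ) else 0 := by
  intro s t hst
  by_cases h : c ≤ s
  · simp [h, h.trans hst]
  · simp only [h, not_false_eq_true, if_true]
    split_ifs <;> norm_num

theorem sum_eq (x : Sym2 (Fin n) → ℝ) {m M : ℝ} (T : Finset (Sym2 (Fin n)))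
    (h : ∀ e ∈ T, m ≤ x e ∧ x e ≤ M) :
    ∑ e ∈ T, x e = T.card * m + ∫ t in m..M, ((T.filter fun e => ¬ x e ≤ t).card : ℝ) := by
  simp only [card_filter, Nat.cast_sum, Nat.cast_ite, Nat.cast_one, Nat.cast_zero]
  rw [intervalIntegral.integral_finsetSum fun e _ => (anti_one (x e)).intervalIntegrable,
    sum_congr rfl fun e he => int_one (h e he).1 (h e he).2, sum_sub_distrib, sum_const,
    nsmul_eq_mul]
  ring

theorem fre_anti (v : Fin n) (h : F ⊆ F') : fre univ {v} F' ≤ fre univ {v} F := by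
  have := cl_anti h
  have := fre_add_one v F
  have := fre_add_one v F'
  omega

theorem fre_int (v : Fin n) (x : Sym2 (Fin n) → ℝ) (F : Set (Sym2 (Fin n))) (m M : ℝ) :
    IntervalIntegrable (fun t => (fre univ {v} (F ∩ {e | x e ≤ t}) : ℝ)) MeasureTheory.volume
      m M := by
  refine Antitone.intervalIntegrable fun s t hst => ?_
  exact Nat.cast_le.2 (fre_anti v (Set.inter_subset_inter_right _ fun e he => le_trans he hst))

theorem tree_sum (v : Fin n) (x : Sym2 (Fin n) → ℝ) {m M : ℝ} {T : SimpleGraph (Fin n)}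
    (hT : T.IsTree) (h : ∀ e ∈ T.edgeSet, m ≤ x e ∧ x e ≤ M) :
    ∑ e, T.edgeSet.indicator (fun _ => (1 : ℝ)) e * x e =
      ((n : ℝ) - 1) * m + ∫ t in m..M, (fre univ {v} (T.edgeSet ∩ {e | x e ≤ t}) : ℝ) := by
  obtain ⟨S, hS⟩ : ∃ S : Finset (Sym2 (Fin n)), ↑S = T.edgeSet :=
    ⟨univ.filter (· ∈ T.edgeSet), by ext; simp⟩
  obtain ⟨h1, h2⟩ := SimpleGraph.isTree_iff_connected_and_card.1 hT
  have h3 : ∀ u w, Rc T.edgeSet u w := fun u w =>
    (SimpleGraph.reachable_iff_reflTransGen u w).1 (h1.preconnected u w)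
  rw [← hS] at h h2 h3 ⊢
  have h4 : S.card + 1 = n := by simpa using h2
  have h5 : ∑ e, (↑S : Set (Sym2 (Fin n))).indicator (fun _ => (1 : ℝ)) e * x e = ∑ e ∈ S, x e := by
    simp [Set.indicator_apply]
  have h6 : (n : ℝ) - 1 = S.card := by
    have : (S.card : ℝ) + 1 = n := by exact_mod_cast h4
    linarith
  rw [h5, h6, sum_eq x S h]
  simp only [fre_tree v S h3 h4, Set.mem_ofPred_eq]

end Mst

open Mst in
theorem mst : MstStmt := by
  intro n G v x m M hG hm h
  constructor
  · obtain ⟨S, hS⟩ : ∃ S : Finset (Sym2 (Fin n)), ↑S = G.edgeSet :=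
      ⟨univ.filter (· ∈ G.edgeSet), by ext; simp⟩
    obtain ⟨T, hT, h1, h2, h3⟩ := kruskal x S
    have hc : ∀ u w, Rc G.edgeSet u w := fun u w =>
      (SimpleGraph.reachable_iff_reflTransGen u w).1 (hG.preconnected u w)
    have hTG : (↑T : Set (Sym2 (Fin n))) ⊆ G.edgeSet := hS ▸ coe_subset.2 hT
    rw [hS] at h1 h2 h3
    have hE : (SimpleGraph.fromEdgeSet (↑T : Set (Sym2 (Fin n)))).edgeSet = ↑T := by
      rw [SimpleGraph.edgeSet_fromEdgeSet, sdiff_eq_left]
      exact Set.disjoint_left.2 fun e he => G.not_isDiag_of_mem_edgeSet (hTG he)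
    have hTr : (SimpleGraph.fromEdgeSet (↑T : Set (Sym2 (Fin n)))).IsTree := by
      refine SimpleGraph.isTree_iff_connected_and_card.2 ⟨?_, ?_⟩
      · have : Nonempty (Fin n) := ⟨v⟩
        refine ⟨fun u w => (SimpleGraph.reachable_iff_reflTransGen u w).2 ?_⟩
        have h4 : Rc (SimpleGraph.fromEdgeSet (↑T : Set (Sym2 (Fin n)))).edgeSet u w := by
          rw [hE, h2]
          exact hc u w
        exact h4
      · rw [cl_one v hc] at h1
        rw [hE]
        simpa using h1
    refine ⟨_, SimpleGraph.edgeSet_subset_edgeSet.1 (hE.subset.trans hTG), hTr, ?_⟩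
    rw [tree_sum v x hTr fun e he => h e (hTG (hE.subset he)), hE]
    congr 2
    funext t
    have e1 := fre_add_one v (↑T ∩ {e | x e ≤ t})
    have e2 := fre_add_one v (G.edgeSet ∩ {e | x e ≤ t})
    have e3 := cl_congr (h3 t)
    congr 1
    omega
  · rintro _ ⟨T, hT, hTr, rfl⟩
    have hTG : T.edgeSet ⊆ G.edgeSet := SimpleGraph.edgeSet_subset_edgeSet.2 hT
    rw [tree_sum v x hTr fun e he => h e (hTG he)]
    refine add_le_add le_rfl (intervalIntegral.integral_mono hm (fre_int v x _ m M)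
      (fre_int v x _ m M) fun t => ?_)
    exact Nat.cast_le.2 (fre_anti v (Set.inter_subset_inter_left _ hTG))

end Pool.Agent.Lib.MP_234305_co.V33
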