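import Pool.Agent.Lib.MP_234305_co.V33.Base

/-! The bitonic sorting network. -/

open Finset Relation
open scoped Classical

namespace Pool.Agent.Lib.MP_234305_co.V33

namespace Net

variable {E : Type} {s s' : ℕ} {A A' B B' C : Set (Fn E)}

/-- The bitonic merger. -/
noncomputable def bm : ℕ → (ℕ → Fn E) → ℕ → Fn E
  | 0, u => u
  | d + 1, u => fun p => if p < 2 ^ d then bm d (fun q => u q ⊓ u (q + 2 ^ d)) p
      else bm d (fun q => u q ⊔ u (q + 2 ^ d)) (p - 2 ^ d)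

/-- The bitonic sorter. -/
noncomputable def st : ℕ → (ℕ → Fn E) → ℕ → Fn E
  | 0, u => u
  | d + 1, u => bm (d + 1) fun p => if p < 2 ^ d then st d u p
      else st d (fun q => u (q + 2 ^ d)) (2 ^ (d + 1) - 1 - p)

/-- Bitonic zero-one sequences. -/
def Bit (N : ℕ) (w : ℕ → Prop) : Prop :=
  ∃ a b, (∀ p < N, w p ↔ a ≤ p ∧ p < b) ∨ ∀ p < N, w p ↔ ¬ (a ≤ p ∧ p < b)

theorem Bit.split {N : ℕ} {w : ℕ → Prop} (h : Bit (N + N) w) :
    Bit N (fun q => w q ∧ w (q + N)) ∧ Bit N (fun q => w q ∨ w (q + N)) ∧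
      ((∀ q < N, ¬ (w q ∧ w (q + N))) ∨ ∀ q < N, w q ∨ w (q + N)) := by
  obtain ⟨a, b, h | h⟩ := h
  all_goals
    have h1 := fun q (hq : q < N) => h q (by omega)
    have h2 := fun q (hq : q < N) => h (q + N) (by omega)
  · refine ⟨⟨a, b - N, Or.inl fun q hq => by simp only [h1 q hq, h2 q hq]; omega⟩, ?_, ?_⟩
    · by_cases k1 : b ≤ N
      · exact ⟨a, b, Or.inl fun q hq => by simp only [h1 q hq, h2 q hq]; omega⟩
      by_cases k2 : N ≤ a
      · exact ⟨a - N, b - N, Or.inl fun q hq => by simp only [h1 q hq, h2 q hq]; omega⟩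
      · exact ⟨b - N, a, Or.inr fun q hq => by simp only [h1 q hq, h2 q hq]; omega⟩
    · by_cases k1 : a + N < b ∧ a < N
      · exact Or.inr fun q hq => by simp only [h1 q hq, h2 q hq]; omega
      · exact Or.inl fun q hq => by simp only [h1 q hq, h2 q hq]; omega
  · refine ⟨?_, ⟨a, b - N, Or.inr fun q hq => by simp only [h1 q hq, h2 q hq]; omega⟩, ?_⟩
    · by_cases k1 : b ≤ N
      · exact ⟨a, b, Or.inr fun q hq => by simp only [h1 q hq, h2 q hq]; omega⟩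
      by_cases k2 : N ≤ a
      · exact ⟨a - N, b - N, Or.inr fun q hq => by simp only [h1 q hq, h2 q hq]; omega⟩
      · exact ⟨b - N, a, Or.inl fun q hq => by simp only [h1 q hq, h2 q hq]; omega⟩
    · by_cases k1 : a + N < b ∧ a < N
      · exact Or.inl fun q hq => by simp only [h1 q hq, h2 q hq]; omega
      · exact Or.inr fun q hq => by simp only [h1 q hq, h2 q hq]; omega

theorem bm_all {φ : Fn E → Prop} (h1 : ∀ a b, φ a → φ b → φ (a ⊓ b))
    (h2 : ∀ a b, φ a → φ b → φ (a ⊔ b)) (d : ℕ) : ∀ u : ℕ → Fn E, (∀ p < 2 ^ d, φ (u p)) →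
      ∀ p < 2 ^ d, φ (bm d u p) := by
  induction d with
  | zero => exact fun u h => h
  | succ d ih =>
    intro u h p hp
    simp only [bm]
    split_ifs with k
    · exact ih _ (fun q hq => h1 _ _ (h _ (by omega)) (h _ (by omega))) p k
    · exact ih _ (fun q hq => h2 _ _ (h _ (by omega)) (h _ (by omega))) _ (by omega)

variable {φ : Fn E → Prop}

theorem bm_srt (h1 : ∀ a b, φ (a ⊓ b) ↔ φ a ∧ φ b) (h2 : ∀ a b, φ (a ⊔ b) ↔ φ a ∨ φ b) (d : ℕ) :
    ∀ u : ℕ → Fn E, Bit (2 ^ d) (fun p => φ (u p)) → ∃ a, ∀ p < 2 ^ d, φ (bm d u p) ↔ a ≤ p := by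
  induction d with
  | zero =>
    intro u _
    by_cases h : φ (u 0)
    · exact ⟨0, fun p hp => by rw [show p = 0 by omega]; simpa [bm] using h⟩
    · exact ⟨1, fun p hp => by rw [show p = 0 by omega]; simpa [bm] using h⟩
  | succ d ih =>
    intro u h
    rw [show 2 ^ (d + 1) = 2 ^ d + 2 ^ d by omega] at h
    obtain ⟨k1, k2, k3⟩ := h.split
    simp only [← h1] at k1
    simp only [← h2] at k2
    obtain ⟨a, ha⟩ := ih _ k1
    obtain ⟨b, hb⟩ := ih _ k2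
    rcases k3 with k3 | k3
    · have k4 := bm_all (φ := fun g => ¬ φ g) (fun a b k _ => by rw [h1]; tauto)
        (fun a b k k' => by rw [h2]; tauto) d (fun q => u q ⊓ u (q + 2 ^ d))
        fun q hq => by rw [h1]; exact k3 q hq
      refine ⟨b + 2 ^ d, fun p hp => ?_⟩
      simp only [bm]
      split_ifs with k
      · exact iff_of_false (k4 p k) (by omega)
      · rw [hb _ (by omega)]; omega
    · have k4 := bm_all (φ := φ) (fun a b k k' => (h1 a b).2 ⟨k, k'⟩)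
        (fun a b k _ => (h2 a b).2 (Or.inl k)) d (fun q => u q ⊔ u (q + 2 ^ d))
        fun q hq => (h2 _ _).2 (k3 q hq)
      refine ⟨min a (2 ^ d), fun p hp => ?_⟩
      simp only [bm]
      split_ifs with k
      · rw [ha p k]; omega
      · exact iff_of_true (k4 _ (by omega)) (by omega)

theorem st_srt (h1 : ∀ a b, φ (a ⊓ b) ↔ φ a ∧ φ b) (h2 : ∀ a b, φ (a ⊔ b) ↔ φ a ∨ φ b) (d : ℕ) :
    ∀ u : ℕ → Fn E, ∃ a, ∀ p < 2 ^ d, φ (st d u p) ↔ a ≤ p := by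
  induction d with
  | zero => exact fun u => bm_srt h1 h2 0 u ⟨0, if φ (u 0) then 1 else 0, Or.inl fun p hp => by
      rw [show p = 0 by omega]
      split_ifs with h <;> simp [h]⟩
  | succ d ih =>
    intro u
    obtain ⟨a, ha⟩ := ih u
    obtain ⟨b, hb⟩ := ih fun q => u (q + 2 ^ d)
    refine bm_srt h1 h2 (d + 1) _ ⟨min a (2 ^ d), max (2 ^ d) (2 ^ (d + 1) - b),
      Or.inl fun p hp => ?_⟩
    dsimp only
    split_ifs with k
    · rw [ha p k]; omega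
    · rw [hb _ (by omega)]; omega

theorem st_le (d : ℕ) (u : ℕ → Fn E) {k : ℕ} (hk : k + 1 < 2 ^ d) : st d u k ≤ st d u (k + 1) := by
  intro x
  obtain ⟨a, ha⟩ := st_srt (φ := fun g => st d u k x ≤ g x) (fun _ _ => le_inf_iff)
    (fun _ _ => le_sup_iff) d u
  exact (ha _ hk).2 (((ha k (by omega)).1 le_rfl).trans k.le_succ)

/-- A step along an edge with equal values. -/
def Eqv (Γ : Finset (Fn E × Fn E)) (x : E → ℝ) (a b : Fn E) : Prop :=
  ((a, b) ∈ Γ ∨ (b, a) ∈ Γ) ∧ a x = b x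

theorem Eqv.mono {Γ Γ' : Finset (Fn E × Fn E)} (h : Γ ⊆ Γ') {x : E → ℝ} {a b : Fn E}
    (k : ReflTransGen (Eqv Γ x) a b) : ReflTransGen (Eqv Γ' x) a b := by
  induction k with
  | refl => exact .refl
  | tail _ k ih => exact ih.tail ⟨k.1.imp (@h _) (@h _), k.2⟩

/-- A network from `A` to `B`. -/
def Link (s : ℕ) (A B : Set (Fn E)) : Prop := ∃ Γ : Finset (Fn E × Fn E), Γ.card ≤ s ∧
  Ext s A ({g | ∃ p ∈ Γ, g = p.1 ∨ g = p.2} ∪ B) ∧ (∀ p ∈ Γ, p.1 ≤ p.2) ∧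
  (∀ x, ∀ g ∈ {g | ∃ p ∈ Γ, g = p.1 ∨ g = p.2} ∪ B, ∃ f ∈ A, g x = f x) ∧
  ∀ x, ∀ f ∈ A, ∃ g ∈ B, ReflTransGen (Eqv Γ x) f g

theorem Link.mono (h : Link s A B) (hs : s ≤ s') : Link s' A B := by
  obtain ⟨Γ, h1, h2, h3⟩ := h
  exact ⟨Γ, h1.trans hs, h2.mono hs le_rfl le_rfl, h3⟩

theorem Link.refl (A : Set (Fn E)) : Link 0 A A :=
  ⟨∅, le_rfl, Ext.of_mem fun _ h _ => by simpa using h, by simp,
    fun _ g hg => ⟨g, by simpa using hg, rfl⟩, fun _ f hf => ⟨f, hf, .refl⟩⟩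

theorem nodes_union (Γ Γ' : Finset (Fn E × Fn E)) : {g | ∃ p ∈ Γ ∪ Γ', g = p.1 ∨ g = p.2} =
    {g | ∃ p ∈ Γ, g = p.1 ∨ g = p.2} ∪ {g | ∃ p ∈ Γ', g = p.1 ∨ g = p.2} := by
  ext g
  simp only [mem_union, or_and_right, exists_or, Set.mem_union, Set.mem_ofPred_eq]

theorem Link.union (h : Link s A B) (h' : Link s' A' B') : Link (s + s') (A ∪ A') (B ∪ B') := by
  obtain ⟨Γ, h1, h2, h3, h4, h5⟩ := h
  obtain ⟨Γ', k1, k2, k3, k4, k5⟩ := h'
  refine ⟨Γ ∪ Γ', (card_union_le _ _).trans (add_le_add h1 k1), ?_, forall_mem_union.2 ⟨h3, k3⟩,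
    fun x g hg => ?_, fun x f hf => ?_⟩
  · rw [nodes_union, Set.union_union_union_comm]
    exact (h2.mono le_rfl Set.subset_union_left le_rfl).union
      (k2.mono le_rfl Set.subset_union_right le_rfl)
  · rw [nodes_union, Set.union_union_union_comm] at hg
    rcases hg with hg | hg
    · exact (h4 x g hg).imp fun f hf => ⟨Or.inl hf.1, hf.2⟩
    · exact (k4 x g hg).imp fun f hf => ⟨Or.inr hf.1, hf.2⟩
  · rcases hf with hf | hf
    · exact (h5 x f hf).imp fun g hg => ⟨Or.inl hg.1, Eqv.mono subset_union_left hg.2⟩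
    · exact (k5 x f hf).imp fun g hg => ⟨Or.inr hg.1, Eqv.mono subset_union_right hg.2⟩

theorem Link.trans (h : Link s A B) (h' : Link s' B C) : Link (s + s') A C := by
  obtain ⟨Γ, h1, h2, h3, h4, h5⟩ := h
  obtain ⟨Γ', k1, k2, k3, k4, k5⟩ := h'
  refine ⟨Γ ∪ Γ', (card_union_le _ _).trans (add_le_add h1 k1), fun t M a b => ?_,
    forall_mem_union.2 ⟨h3, k3⟩, fun x g hg => ?_, fun x f hf => ?_⟩
  · obtain ⟨M1, a1, b1, c1⟩ := h2 t M a b
    obtain ⟨M2, a2, b2, c2⟩ := k2 _ M1 (Set.subset_union_right.trans b1) c1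
    refine ⟨M2, a1.trans a2, ?_, c2.mono (by omega)⟩
    rw [nodes_union, Set.union_assoc]
    exact Set.union_subset ((Set.subset_union_left.trans b1).trans a2) b2
  · rw [nodes_union, Set.union_assoc] at hg
    rcases hg with hg | hg
    · exact h4 x g (Or.inl hg)
    · obtain ⟨f, a, b⟩ := k4 x g hg
      exact (h4 x f (Or.inr a)).imp fun f' hf' => ⟨hf'.1, b.trans hf'.2⟩
  · obtain ⟨g, a, b⟩ := h5 x f hf
    exact (k5 x g a).imp fun g' hg' =>
      ⟨hg'.1, (Eqv.mono subset_union_left b).trans (Eqv.mono subset_union_right hg'.2)⟩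

theorem link_cmp (a b : Fn E) : Link 4 {a, b} {a ⊓ b, a ⊔ b} := by
  have h1 : {g | ∃ p ∈ ({(a ⊓ b, a), (a ⊓ b, b), (a, a ⊔ b), (b, a ⊔ b)} : Finset (Fn E × Fn E)),
      g = p.1 ∨ g = p.2} ∪ {a ⊓ b, a ⊔ b} ⊆ {a, b} ∪ {a ⊓ b, a ⊔ b} := by
    intro g
    simp only [mem_insert, mem_singleton, Set.mem_union, Set.mem_ofPred_eq, exists_eq_or_imp,
      exists_eq_left, Set.mem_insert_iff, Set.mem_singleton_iff]
    tauto
  refine ⟨{(a ⊓ b, a), (a ⊓ b, b), (a, a ⊔ b), (b, a ⊔ b)}, card_le_four,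
    ((Ext.of_mem (s := 0) fun _ h _ => h).union (ext_inf a b)).mono (by omega) le_rfl h1,
    by simp, fun x g hg => ?_, fun x f hf => ?_⟩
  · rcases h1 hg with (rfl | rfl) | (rfl | rfl)
    · exact ⟨g, by simp, rfl⟩
    · exact ⟨g, by simp, rfl⟩
    · rcases le_total (a x) (b x) with h | h <;> simp [h]
    · rcases le_total (a x) (b x) with h | h <;> simp [h]
  · rcases le_total (a x) (b x) with h | h <;> rcases hf with rfl | rfl
    · exact ⟨f ⊓ b, by simp, .single ⟨by simp, by simp [h]⟩⟩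
    · exact ⟨a ⊔ f, by simp, .single ⟨by simp, by simp [h]⟩⟩
    · exact ⟨f ⊔ b, by simp, .single ⟨by simp, by simp [h]⟩⟩
    · exact ⟨a ⊓ f, by simp, .single ⟨by simp, by simp [h]⟩⟩

/-- The first `n` terms of a sequence. -/
def im (u : ℕ → Fn E) (n : ℕ) : Set (Fn E) := {g | ∃ k < n, g = u k}

theorem im_succ (u : ℕ → Fn E) (n : ℕ) : im u (n + 1) = im u n ∪ {u n} := by
  ext g
  simp only [im, Nat.lt_succ_iff_lt_or_eq, or_and_right, exists_or, Set.mem_union,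
    Set.mem_ofPred_eq, exists_eq_left, Set.mem_singleton_iff]

theorem link_layer (u v : ℕ → Fn E) (n : ℕ) : Link (4 * n) (im u n ∪ im v n)
    (im (fun q => u q ⊓ v q) n ∪ im (fun q => u q ⊔ v q) n) := by
  induction n with
  | zero => simpa [im] using Link.refl (∅ : Set (Fn E))
  | succ n ih =>
    simp only [im_succ]
    rw [Set.union_union_union_comm, Set.union_union_union_comm (im _ n) {u n ⊓ v n}]
    exact ih.union (link_cmp _ _)

theorem im_two {u v w : ℕ → Fn E} {n : ℕ} (σ τ : ℕ → ℕ) (h1 : ∀ p < n, w p = u p)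
    (h2 : ∀ p, n ≤ p → p < n + n → σ p < n ∧ w p = v (σ p))
    (h3 : ∀ q < n, τ q < n + n ∧ w (τ q) = v q) : im w (n + n) = im u n ∪ im v n := by
  ext g
  constructor
  · rintro ⟨p, hp, rfl⟩
    by_cases k : p < n
    · exact Or.inl ⟨p, k, h1 p k⟩
    · exact Or.inr ⟨σ p, h2 p (by omega) hp⟩
  · rintro (⟨p, hp, rfl⟩ | ⟨p, hp, rfl⟩)
    · exact ⟨p, by omega, (h1 p hp).symm⟩
    · exact ⟨τ p, (h3 p hp).1, (h3 p hp).2.symm⟩

theorem im_half (u : ℕ → Fn E) (n : ℕ) : im u (n + n) = im u n ∪ im (fun q => u (q + n)) n :=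
  im_two (· - n) (· + n) (fun _ _ => rfl)
    (fun p a b => ⟨by omega, by rw [Nat.sub_add_cancel a]⟩) fun q a => ⟨by omega, rfl⟩

theorem link_bm (d : ℕ) : ∀ u : ℕ → Fn E,
    Link (4 * d * 2 ^ d) (im u (2 ^ d)) (im (bm d u) (2 ^ d)) := by
  induction d with
  | zero => exact fun u => Link.refl _
  | succ d ih =>
    intro u
    rw [show 2 ^ (d + 1) = 2 ^ d + 2 ^ d by omega, im_half u,
      im_two (w := bm (d + 1) u) (· - 2 ^ d) (· + 2 ^ d) (fun p a => if_pos a)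
        (fun p a b => ⟨by omega, if_neg (by omega)⟩)
        fun q a => ⟨by omega, (if_neg (by omega)).trans (by rw [Nat.add_sub_cancel])⟩]
    exact ((link_layer _ _ _).trans ((ih _).union (ih _))).mono (by nlinarith [Nat.zero_le (2 ^ d)])

theorem link_st (d : ℕ) : ∀ u : ℕ → Fn E,
    Link (4 * d ^ 2 * 2 ^ d) (im u (2 ^ d)) (im (st d u) (2 ^ d)) := by
  induction d with
  | zero => exact fun u => Link.refl _
  | succ d ih =>
    intro u
    have h := link_bm (d + 1) fun p => if p < 2 ^ d then st d u p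
      else st d (fun q => u (q + 2 ^ d)) (2 ^ (d + 1) - 1 - p)
    have h2 : 2 ^ (d + 1) = 2 ^ d + 2 ^ d := by omega
    have h3 := (ih u).union (ih fun q => u (q + 2 ^ d))
    rw [← im_half u, ← im_two (w := fun p => if p < 2 ^ d then st d u p
      else st d (fun q => u (q + 2 ^ d)) (2 ^ (d + 1) - 1 - p)) (2 ^ (d + 1) - 1 - ·)
      (2 ^ (d + 1) - 1 - ·) (fun p a => if_pos a) (fun p a b => ⟨by omega, if_neg (by omega)⟩)
      (fun q a => ⟨by omega, (if_neg (by omega)).trans (congrArg _ (by omega))⟩), ← h2] at h3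
    refine (h3.trans h).mono ?_
    rw [h2]
    nlinarith [Nat.zero_le (d * 2 ^ d)]

theorem exists_pow {n : ℕ} (hn : 0 < n) (D : ℕ) :
    n ≤ 2 ^ D → ∃ d ≤ D, n ≤ 2 ^ d ∧ 2 ^ d ≤ 2 * n := by
  induction D with
  | zero => exact fun h => ⟨0, le_rfl, h, by omega⟩
  | succ D ih =>
    intro h
    by_cases k : n ≤ 2 ^ D
    · exact (ih k).imp fun d hd => ⟨by omega, hd.2⟩
    · exact ⟨D + 1, le_rfl, h, by omega⟩

theorem eqv_val {Γ : Finset (Fn E × Fn E)} {x : E → ℝ} {a b : Fn E}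
    (h : ReflTransGen (Eqv Γ x) a b) :
    a x = b x ∧ ReflTransGen (Stp Γ x) a b ∧ ReflTransGen (Stp Γ x) b a := by
  induction h with
  | refl => exact ⟨rfl, .refl, .refl⟩
  | tail _ k ih => exact ⟨ih.1.trans k.2, ih.2.1.tail (k.1.imp id fun h => ⟨h, k.2⟩),
      ih.2.2.head (k.1.symm.imp id fun h => ⟨h, k.2.symm⟩)⟩

end Net

open Net in
theorem net : NetStmt := by
  intro E D A hA
  rcases A.eq_empty_or_nonempty with rfl | ⟨a0, ha0⟩
  · exact ⟨∅, 0, fun _ => 0, by simp, by simp, Ext.of_mem fun _ _ _ => by simp, by simp, by simp,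
      by simp, by simp, by simp, by simp⟩
  obtain ⟨d, hd, h1, h2⟩ := exists_pow (card_pos.2 ⟨a0, ha0⟩) D hA
  let u : ℕ → Fn E := fun p => if h : p < A.card then (A.equivFin.symm ⟨p, h⟩).1 else a0
  have hu : im u (2 ^ d) = A := by
    ext g
    constructor
    · rintro ⟨p, -, rfl⟩
      simp only [u]
      split_ifs
      exacts [Subtype.prop _, ha0]
    · intro hg
      exact ⟨A.equivFin ⟨g, hg⟩, (Fin.is_lt _).trans_le h1, by simp [u]⟩
  obtain ⟨Γ, k1, k2, k3, k4, k5⟩ := link_st d u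
  rw [hu] at k2 k4 k5
  set y := st d u with hy
  let Δ : Finset (Fn E × Fn E) := (range (2 ^ d - 1)).image fun k => (y k, y (k + 1))
  have hΔ : ∀ p ∈ Δ, ∃ k, k + 1 < 2 ^ d ∧ p = (y k, y (k + 1)) := fun p hp => by
    obtain ⟨k, hk, rfl⟩ := mem_image.1 hp
    exact ⟨k, by have := mem_range.1 hk; omega, rfl⟩
  have hΔ' : ∀ k, k + 1 < 2 ^ d → (y k, y (k + 1)) ∈ Γ ∪ Δ := fun k hk =>
    mem_union_right _ (mem_image.2 ⟨k, mem_range.2 (by omega), rfl⟩)
  have h3 : 4 * d ^ 2 * 2 ^ d + 2 ^ d ≤ 16 * (D + 1) ^ 2 * A.card := by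
    have h4 : 4 * d ^ 2 + 1 ≤ 8 * (D + 1) ^ 2 := by nlinarith
    calc _ = (4 * d ^ 2 + 1) * 2 ^ d := by ring
      _ ≤ 8 * (D + 1) ^ 2 * (2 * A.card) := Nat.mul_le_mul h4 h2
      _ = _ := by ring
  have h4 : {g | ∃ p ∈ Γ ∪ Δ, g = p.1 ∨ g = p.2} ∪ im y (2 ^ d) ⊆
      {g | ∃ p ∈ Γ, g = p.1 ∨ g = p.2} ∪ im y (2 ^ d) := by
    rw [nodes_union, Set.union_assoc]
    refine Set.union_subset_union_right _ (Set.union_subset ?_ le_rfl)
    rintro g ⟨p, hp, hg⟩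
    obtain ⟨k, hk, rfl⟩ := hΔ p hp
    rcases hg with rfl | rfl
    exacts [⟨k, by omega, rfl⟩, ⟨k + 1, hk, rfl⟩]
  have h5 : ∀ x k l, k ≤ l → l < 2 ^ d → y k x ≤ y l x ∧
      ReflTransGen (Stp (Γ ∪ Δ) x) (y k) (y l) ∧
      (y l x ≤ y k x → ReflTransGen (Stp (Γ ∪ Δ) x) (y l) (y k)) := fun x k l hkl => by
    induction hkl with
    | refl => exact fun _ => ⟨le_rfl, .refl, fun _ => .refl⟩
    | step _ ih =>
      intro hl
      obtain ⟨a, b, c⟩ := ih (by omega)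
      have e := st_le d u hl x
      exact ⟨a.trans e, b.tail (Or.inl (hΔ' _ hl)), fun h =>
        (c (e.trans h)).head (Or.inr ⟨hΔ' _ hl, le_antisymm (h.trans a) e⟩)⟩
  refine ⟨Γ ∪ Δ, 2 ^ d, y, (card_union_le _ _).trans (le_trans (add_le_add k1
    (card_image_le.trans (by simp))) h3), h2, k2.mono (by omega) le_rfl h4,
    forall_mem_union.2 ⟨k3, fun p hp => ?_⟩, fun p hp x => ⟨k4 x _ (h4 (Or.inl ⟨p, hp, Or.inl rfl⟩)),
      k4 x _ (h4 (Or.inl ⟨p, hp, Or.inr rfl⟩))⟩, fun k hk => st_le d u hk,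
    fun k hk x => k4 x _ (Or.inr ⟨k, hk, rfl⟩), fun f hf x => ?_, fun x f hf g hg hfg => ?_⟩
  · obtain ⟨k, hk, rfl⟩ := hΔ p hp
    exact st_le d u hk
  · obtain ⟨_, ⟨k, hk, rfl⟩, h⟩ := k5 x f hf
    exact ⟨k, hk, (eqv_val h).1.symm⟩
  · obtain ⟨_, ⟨k, hk, rfl⟩, h⟩ := k5 x f hf
    obtain ⟨_, ⟨l, hl, rfl⟩, h'⟩ := k5 x g hg
    obtain ⟨a1, a2, -⟩ := eqv_val (Eqv.mono (subset_union_left (s₂ := Δ)) h)
    obtain ⟨b1, -, b3⟩ := eqv_val (Eqv.mono (subset_union_left (s₂ := Δ)) h')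
    refine a2.trans (ReflTransGen.trans ?_ b3)
    rcases le_total k l with hkl | hkl
    · exact (h5 x k l hkl hl).2.1
    · exact (h5 x l k hkl hk).2.2 (a1 ▸ b1 ▸ hfg)

end Pool.Agent.Lib.MP_234305_co.V33
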