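import Pool.Agent.Lib.MP_234305_co.V33.Defs

/-! The separator theorem of Alon, Seymour and Thomas, with weights. -/

open Finset Relation
open scoped Classical

namespace Pool.Agent.Lib.MP_234305_co.V33

namespace Sep

variable {V : Type} [DecidableEq V] {G : SimpleGraph V}

/-- A walk inside `S`. -/
def Rch (G : SimpleGraph V) (S : Finset V) : V → V → Prop :=
  ReflTransGen fun x y => G.Adj x y ∧ x ∈ S ∧ y ∈ S

def Conn (G : SimpleGraph V) (S : Finset V) : Prop := ∀ a ∈ S, ∀ b ∈ S, Rch G S a b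

omit [DecidableEq V] in
theorem Rch.mono {S S' : Finset V} {a b : V} (h : Rch G S a b) (hS : S ⊆ S') : Rch G S' a b := by
  induction h with
  | refl => exact ReflTransGen.refl
  | tail _ h ih => exact ReflTransGen.tail ih ⟨h.1, hS h.2.1, hS h.2.2⟩

omit [DecidableEq V] in
theorem Rch.symm {S : Finset V} {a b : V} (h : Rch G S a b) : Rch G S b a := by
  induction h with
  | refl => exact ReflTransGen.refl
  | tail _ h ih => exact ReflTransGen.head ⟨h.1.symm, h.2.2, h.2.1⟩ ih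

omit [DecidableEq V] in
theorem conn_singleton (a : V) : Conn G {a} := by
  intro x hx y hy
  rw [mem_singleton] at hx hy
  rw [hx, hy]
  exact ReflTransGen.refl

theorem Conn.insert {T : Finset V} {a b : V} (h : Conn G T) (ha : a ∈ T) (hab : G.Adj a b) :
    Conn G (insert b T) := by
  have key : ∀ x ∈ Insert.insert b T, Rch G (Insert.insert b T) a x := by
    intro x hx
    rcases mem_insert.1 hx with rfl | hx
    · exact ReflTransGen.single ⟨hab, mem_insert_of_mem ha, mem_insert_self _ _⟩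
    · exact (h a ha x hx).mono (subset_insert _ _)
  intro x hx y hy
  exact ReflTransGen.trans (key x hx).symm (key y hy)

/-- Everything that can be reached from `c` inside `D`. -/
noncomputable def clo (G : SimpleGraph V) (D c : Finset V) : Finset V :=
  D.filter fun u => ∃ a ∈ c, Rch G D a u

omit [DecidableEq V] in
theorem clo_sub {D c : Finset V} : clo G D c ⊆ D := filter_subset _ _

omit [DecidableEq V] in
theorem sub_clo {D c : Finset V} (h : c ⊆ D) : c ⊆ clo G D c :=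
  fun a ha => mem_filter.2 ⟨h ha, a, ha, ReflTransGen.refl⟩

omit [DecidableEq V] in
theorem clo_step {D c : Finset V} {x y : V} (hx : x ∈ clo G D c) (hy : y ∈ D) (h : G.Adj x y) :
    y ∈ clo G D c := by
  obtain ⟨h1, a, ha, h2⟩ := mem_filter.1 hx
  exact mem_filter.2 ⟨hy, a, ha, ReflTransGen.tail h2 ⟨h, h1, hy⟩⟩

omit [DecidableEq V] in
theorem clo_conn {D c : Finset V} (h : c ⊆ D) (hc : Conn G c) : Conn G (clo G D c) := by
  have key : ∀ a ∈ c, ∀ u, Rch G D a u → u ∈ clo G D c ∧ Rch G (clo G D c) a u := by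
    intro a ha u hu
    induction hu with
    | refl => exact ⟨sub_clo h ha, ReflTransGen.refl⟩
    | tail _ h1 ih =>
      have := clo_step ih.1 h1.2.2 h1.1
      exact ⟨this, ReflTransGen.tail ih.2 ⟨h1.1, ih.1, this⟩⟩
  intro x hx y hy
  obtain ⟨_, a, ha, h1⟩ := mem_filter.1 hx
  obtain ⟨_, b, hb, h2⟩ := mem_filter.1 hy
  exact ReflTransGen.trans (key a ha x h1).2.symm
    (ReflTransGen.trans ((hc a ha b hb).mono (sub_clo h)) (key b hb y h2).2)

/-- A connected subset of `B` through `v` with at most `j` points meets the first `i` sets. -/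
def P (G : SimpleGraph V) (B : Finset V) (A : ℕ → Finset V) (i : ℕ) (v : V) (j : ℕ) : Prop :=
  ∃ T ⊆ B, v ∈ T ∧ Conn G T ∧ T.card ≤ j ∧ ∀ l < i, ∃ a ∈ T, a ∈ A l

omit [DecidableEq V] in
theorem P.mono {B : Finset V} {A : ℕ → Finset V} {i j j' : ℕ} {v : V} (h : P G B A i v j)
    (hj : j ≤ j') : P G B A i v j' := by
  obtain ⟨T, h1, h2, h3, h4, h5⟩ := h
  exact ⟨T, h1, h2, h3, h4.trans hj, h5⟩

theorem lemma_nat (B : Finset V) (A : ℕ → Finset V) (k ρ : ℕ) (hρ : 1 ≤ ρ) :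
    (∃ T ⊆ B, T.Nonempty ∧ Conn G T ∧ T.card ≤ ρ ∧ ∀ l < k, ∃ a ∈ T, a ∈ A l) ∨
    ∃ Z ⊆ B, Z.card * ρ ≤ k * B.card ∧
      ∀ S ⊆ B \ Z, S.Nonempty → Conn G S → ∃ l < k, ∀ a ∈ S, a ∉ A l := by
  let E : ℕ → ℕ → Finset V := fun i j =>
    B.filter fun v => P G B A (i + 1) v (j + 2) ∧ ¬ P G B A (i + 1) v (j + 1)
  have hE : ∀ i, ∑ j ∈ range ρ, (E i j).card ≤ B.card := by
    intro i
    rw [← card_biUnion]
    · exact card_le_card (biUnion_subset.2 fun j _ => filter_subset _ _)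
    · intro j _ j' _ hne
      refine disjoint_left.2 fun v h1 h2 => ?_
      obtain ⟨_, h3, h4⟩ := mem_filter.1 h1
      obtain ⟨_, h5, h6⟩ := mem_filter.1 h2
      rcases lt_or_gt_of_ne hne with h | h
      · exact h6 (h3.mono (by omega))
      · exact h4 (h5.mono (by omega))
  let Z : ℕ → Finset V := fun j => (range k).biUnion fun i => E i j
  have hZ : ∑ j ∈ range ρ, (Z j).card ≤ k * B.card := by
    calc ∑ j ∈ range ρ, (Z j).card ≤ ∑ j ∈ range ρ, ∑ i ∈ range k, (E i j).card :=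
          sum_le_sum fun j _ => card_biUnion_le
      _ = ∑ i ∈ range k, ∑ j ∈ range ρ, (E i j).card := sum_comm
      _ ≤ ∑ _i ∈ range k, B.card := sum_le_sum fun i _ => hE i
      _ = k * B.card := by simp
  obtain ⟨j, hj, hmin⟩ := exists_min_image (range ρ) (fun j => (Z j).card)
    ⟨0, mem_range.2 hρ⟩
  have hZj : (Z j).card * ρ ≤ k * B.card := by
    refine le_trans ?_ hZ
    calc (Z j).card * ρ = ∑ _i ∈ range ρ, (Z j).card := by simp [mul_comm]
      _ ≤ _ := sum_le_sum hmin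
  by_cases hex : ∃ S ⊆ B \ Z j, S.Nonempty ∧ Conn G S ∧ ∀ l < k, ∃ a ∈ S, a ∈ A l
  · left
    obtain ⟨S, hS, hne, hc, hm⟩ := hex
    have hSB : ∀ v ∈ S, v ∈ B := fun v hv => (mem_sdiff.1 (hS hv)).1
    have key : ∀ i ≤ k, ∀ v ∈ S, P G B A i v (j + 1) := by
      intro i
      induction i with
      | zero =>
        intro _ v hv
        exact ⟨{v}, singleton_subset_iff.2 (hSB v hv), mem_singleton_self v, conn_singleton v,
          by simp, fun l hl => absurd hl (Nat.not_lt_zero l)⟩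
      | succ i ih =>
        intro hi v hv
        obtain ⟨a, ha, haA⟩ := hm i hi
        have h0 : P G B A (i + 1) a (j + 1) := by
          obtain ⟨T, h1, h2, h3, h4, h5⟩ := ih (by omega) a ha
          refine ⟨T, h1, h2, h3, h4, fun l hl => ?_⟩
          rcases Nat.lt_succ_iff_lt_or_eq.1 hl with hl | rfl
          · exact h5 l hl
          · exact ⟨a, h2, haA⟩
        have hw := hc a ha v hv
        clear hv
        induction hw with
        | refl => exact h0
        | @tail x y _ h ih2 =>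
          obtain ⟨T, h1, h2, h3, h4, h5⟩ := ih2
          have h6 : P G B A (i + 1) y (j + 2) := by
            refine ⟨insert y T, insert_subset (hSB y h.2.2) h1, mem_insert_self _ _,
              h3.insert h2 h.1, (card_insert_le _ _).trans (by omega), fun l hl => ?_⟩
            obtain ⟨b, hb, hb'⟩ := h5 l hl
            exact ⟨b, mem_insert_of_mem hb, hb'⟩
          by_contra h7
          refine (mem_sdiff.1 (hS h.2.2)).2 (mem_biUnion.2 ⟨i, mem_range.2 hi, ?_⟩)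
          exact mem_filter.2 ⟨hSB y h.2.2, h6, h7⟩
    obtain ⟨v, hv⟩ := hne
    obtain ⟨T, h1, h2, h3, h4, h5⟩ := key k le_rfl v hv
    exact ⟨T, h1, ⟨v, h2⟩, h3, h4.trans (mem_range.1 hj), h5⟩
  · right
    refine ⟨Z j, biUnion_subset.2 fun i _ => filter_subset _ _, hZj, fun S hS hne hc => ?_⟩
    by_contra hn
    refine hex ⟨S, hS, hne, hc, fun l hl => ?_⟩
    by_contra h2
    exact hn ⟨l, hl, fun a ha haA => h2 ⟨a, ha, haA⟩⟩

theorem lemma_fam {ι : Type} (B : Finset V) (C : Finset ι) (A : ι → Finset V) (ρ : ℕ)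
    (hρ : 1 ≤ ρ) :
    (∃ T ⊆ B, T.Nonempty ∧ Conn G T ∧ T.card ≤ ρ ∧ ∀ c ∈ C, ∃ a ∈ T, a ∈ A c) ∨
    ∃ Z ⊆ B, Z.card * ρ ≤ C.card * B.card ∧
      ∀ S ⊆ B \ Z, S.Nonempty → Conn G S → ∃ c ∈ C, ∀ a ∈ S, a ∉ A c := by
  rcases lemma_nat (G := G) B
    (fun l => if h : l < C.card then A (C.equivFin.symm ⟨l, h⟩) else ∅) C.card ρ hρ with
    ⟨T, h1, h2, h3, h4, h5⟩ | ⟨Z, h1, h2, h3⟩
  · refine Or.inl ⟨T, h1, h2, h3, h4, fun c hc => ?_⟩
    obtain ⟨a, ha, hb⟩ := h5 (C.equivFin ⟨c, hc⟩) (C.equivFin ⟨c, hc⟩).2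
    refine ⟨a, ha, ?_⟩
    simpa using hb
  · refine Or.inr ⟨Z, h1, h2, fun S hS hne hc => ?_⟩
    obtain ⟨l, hl, h4⟩ := h3 S hS hne hc
    refine ⟨C.equivFin.symm ⟨l, hl⟩, (C.equivFin.symm ⟨l, hl⟩).2, fun a ha => ?_⟩
    simpa [hl] using h4 a ha

/-- If all components of `R` are light, there is a closed set of moderate weight. -/
theorem balance (R W : Finset V) (hl : ∀ v ∈ R, 2 * (W ∩ clo G R {v}).card ≤ W.card) :
    ∀ (m : ℕ) (S : Finset V), S.card ≤ m → S ⊆ R → (∀ x ∈ S, ∀ y ∈ R, G.Adj x y → y ∈ S) →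
      ∃ A ⊆ S, (∀ x ∈ A, ∀ y ∈ R, G.Adj x y → y ∈ A) ∧ 4 * (W ∩ A).card ≤ 3 * W.card ∧
        (W.card < 4 * (W ∩ A).card ∨ A = S) := by
  intro m
  induction m with
  | zero =>
    intro S hS _ _
    have : S = ∅ := card_eq_zero.1 (Nat.le_zero.1 hS)
    subst this
    exact ⟨∅, Subset.refl _, by simp, by simp, Or.inr rfl⟩
  | succ m ih =>
    intro S hS hSR hcl
    rcases S.eq_empty_or_nonempty with rfl | ⟨v, hv⟩
    · exact ⟨∅, Subset.refl _, by simp, by simp, Or.inr rfl⟩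
    have hvK : v ∈ clo G R {v} := sub_clo (singleton_subset_iff.2 (hSR hv)) (mem_singleton_self v)
    have hlt : (S \ clo G R {v}).card < S.card :=
      card_lt_card ⟨sdiff_subset, fun h => (mem_sdiff.1 (h hv)).2 hvK⟩
    obtain ⟨A, h1, h2, h3, h4⟩ := ih (S \ clo G R {v}) (by omega) (sdiff_subset.trans hSR) (by
      intro x hx y hy hxy
      obtain ⟨hx1, hx2⟩ := mem_sdiff.1 hx
      exact mem_sdiff.2 ⟨hcl x hx1 y hy hxy, fun h => hx2 (clo_step h (hSR hx1) hxy.symm)⟩)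
    by_cases h5 : W.card < 4 * (W ∩ A).card
    · exact ⟨A, h1.trans sdiff_subset, h2, h3, Or.inl h5⟩
    · have h6 : A = S \ clo G R {v} := h4.resolve_left h5
      refine ⟨S, Subset.refl _, hcl, ?_, Or.inr rfl⟩
      have h7 : (W ∩ S).card ≤ (W ∩ A).card + (W ∩ clo G R {v}).card := by
        refine le_trans (card_le_card ?_) (card_union_le _ _)
        intro x hx
        obtain ⟨hx1, hx2⟩ := mem_inter.1 hx
        by_cases h : x ∈ clo G R {v}
        · exact mem_union_right _ (mem_inter.2 ⟨hx1, h⟩)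
        · exact mem_union_left _ (mem_inter.2 ⟨hx1, h6 ▸ mem_sdiff.2 ⟨hx2, h⟩⟩)
      have := hl v (hSR hv)
      omega

/-- The conclusion of the theorem. -/
def Goal (G : SimpleGraph V) (U W : Finset V) (m : ℕ) : Prop :=
  ∃ A B Y : Finset V, A ∪ B ∪ Y = U ∧ Disjoint A B ∧ Disjoint A Y ∧ Disjoint B Y ∧
    (∀ a ∈ A, ∀ b ∈ B, ¬ G.Adj a b) ∧ Y.card ≤ m ∧
    4 * (W ∩ A).card ≤ 3 * W.card ∧ 4 * (W ∩ B).card ≤ 3 * W.card

theorem goal_or_heavy {U W Y : Finset V} {m : ℕ} (hY : Y ⊆ U) (hm : Y.card ≤ m) :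
    Goal G U W m ∨ ∃ v ∈ U \ Y, W.card < 2 * (W ∩ clo G (U \ Y) {v}).card := by
  by_cases h : ∃ v ∈ U \ Y, W.card < 2 * (W ∩ clo G (U \ Y) {v}).card
  · exact Or.inr h
  left
  obtain ⟨A, h1, h2, h3, h4⟩ := balance (G := G) (U \ Y) W
    (fun v hv => not_lt.1 fun h' => h ⟨v, hv, h'⟩) _ (U \ Y) le_rfl (Subset.refl _)
    (fun _ _ y hy _ => hy)
  refine ⟨A, (U \ Y) \ A, Y, ?_, disjoint_sdiff, ?_, ?_, ?_, hm, h3, ?_⟩
  · rw [union_sdiff_of_subset h1, sdiff_union_of_subset hY]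
  · exact disjoint_left.2 fun a ha => (mem_sdiff.1 (h1 ha)).2
  · exact disjoint_left.2 fun a ha => (mem_sdiff.1 (mem_sdiff.1 ha).1).2
  · intro a ha b hb hab
    exact (mem_sdiff.1 hb).2 (h2 a ha b (mem_sdiff.1 hb).1 hab)
  · rcases h4 with h4 | h4
    · have h5 : (W ∩ A).card + (W ∩ ((U \ Y) \ A)).card ≤ W.card := by
        rw [← card_union_of_disjoint]
        · exact card_le_card (union_subset inter_subset_left inter_subset_left)
        · exact disjoint_left.2 fun a ha hb =>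
            (mem_sdiff.1 (mem_inter.1 hb).2).2 (mem_inter.1 ha).2
      omega
    · rw [h4]
      simp

structure St (G : SimpleGraph V) (U W : Finset V) (ρ : ℕ) (C : Finset (Finset V))
    (X B : Finset V) : Prop where
  one : ∀ c ∈ C, c ⊆ U ∧ c.Nonempty ∧ Conn G c ∧ (∀ x ∈ c, x ∉ B) ∧ (X ∩ c).card ≤ ρ
  two : ∀ c ∈ C, ∀ c' ∈ C, c ≠ c' → (∀ x ∈ c, x ∉ c') ∧ ∃ u ∈ c, ∃ v ∈ c', G.Adj u v
  cov : ∀ x ∈ X, ∃ c ∈ C, x ∈ c
  sub : B ⊆ U
  cls : ∀ b ∈ B, ∀ u ∈ U, G.Adj b u → u ∈ B ∨ u ∈ X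
  hvy : W.card < 2 * (W ∩ B).card

variable {U W : Finset V} {ρ : ℕ} {C : Finset (Finset V)} {X B : Finset V}

theorem St.card_le (s : St G U W ρ C X B) : X.card ≤ C.card * ρ := by
  calc X.card ≤ (C.biUnion fun c => X ∩ c).card := by
        refine card_le_card fun x hx => ?_
        obtain ⟨c, hc, h⟩ := s.cov x hx
        exact mem_biUnion.2 ⟨c, hc, mem_inter.2 ⟨hx, h⟩⟩
    _ ≤ ∑ c ∈ C, (X ∩ c).card := card_biUnion_le
    _ ≤ ∑ _c ∈ C, ρ := sum_le_sum fun c hc => (s.one c hc).2.2.2.2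
    _ = C.card * ρ := by simp

theorem St.notMem (s : St G U W ρ C X B) {x : V} (hx : x ∈ X) : x ∉ B := by
  obtain ⟨c, hc, h⟩ := s.cov x hx
  exact (s.one c hc).2.2.2.1 x h

theorem St.XU (s : St G U W ρ C X B) : X ⊆ U := by
  intro x hx
  obtain ⟨c, hc, h⟩ := s.cov x hx
  exact (s.one c hc).1 h

theorem St.drop (s : St G U W ρ C X B) {c : Finset V} (h : ∀ b ∈ B, ∀ u ∈ c, ¬ G.Adj b u) :
    St G U W ρ (C.erase c) (X \ c) B where
  one := by
    intro c' hc'
    obtain ⟨h1, h2, h3, h4, h5⟩ := s.one c' (mem_of_mem_erase hc')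
    exact ⟨h1, h2, h3, h4, (card_le_card (inter_subset_inter sdiff_subset (Subset.refl _))).trans h5⟩
  two := fun c₁ h₁ c₂ h₂ => s.two c₁ (mem_of_mem_erase h₁) c₂ (mem_of_mem_erase h₂)
  cov := by
    intro x hx
    obtain ⟨h1, h2⟩ := mem_sdiff.1 hx
    obtain ⟨c', hc', h3⟩ := s.cov x h1
    exact ⟨c', mem_erase.2 ⟨fun e => h2 (e ▸ h3), hc'⟩, h3⟩
  sub := s.sub
  cls := by
    intro b hb u hu hbu
    rcases s.cls b hb u hu hbu with h1 | h1
    · exact Or.inl h1
    · exact Or.inr (mem_sdiff.2 ⟨h1, fun h2 => h b hb u h2 hbu⟩)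
  hvy := s.hvy

/-- The heavy component lies in `B`. -/
theorem St.heavy_sub (s : St G U W ρ C X B) {Q : Finset V} {v : V} (hv : v ∈ U \ (X ∪ Q))
    (h : W.card < 2 * (W ∩ clo G (U \ (X ∪ Q)) {v}).card) :
    clo G (U \ (X ∪ Q)) {v} ⊆ B \ Q := by
  have hc : Conn G (clo G (U \ (X ∪ Q)) {v}) :=
    clo_conn (singleton_subset_iff.2 hv) (conn_singleton v)
  have hne : ∃ w ∈ B, w ∈ clo G (U \ (X ∪ Q)) {v} := by
    by_contra hn
    have h5 : (W ∩ B).card + (W ∩ clo G (U \ (X ∪ Q)) {v}).card ≤ W.card := by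
      rw [← card_union_of_disjoint]
      · exact card_le_card (union_subset inter_subset_left inter_subset_left)
      · exact disjoint_left.2 fun a ha hb => hn ⟨a, (mem_inter.1 ha).2, (mem_inter.1 hb).2⟩
    have := s.hvy
    omega
  obtain ⟨w, hwB, hw⟩ := hne
  intro u hu
  refine mem_sdiff.2 ⟨?_, fun hq => (mem_sdiff.1 (clo_sub hu)).2 (mem_union_right _ hq)⟩
  have hr := hc w hw u hu
  clear hu
  induction hr with
  | refl => exact hwB
  | @tail x y _ h1 ih =>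
    obtain ⟨h2, h3⟩ := mem_sdiff.1 (clo_sub h1.2.2)
    exact (s.cls x ih y h2 h1.1).resolve_right fun h4 => h3 (mem_union_left _ h4)

theorem St.addT (s : St G U W ρ C X B) {T : Finset V} (hT : T ⊆ B) (hne : T.Nonempty)
    (hc : Conn G T) (hρ : T.card ≤ ρ) (hm : ∀ c ∈ C, ∃ a ∈ T, ∃ u ∈ c, G.Adj a u)
    (hh : W.card < 2 * (W ∩ (B \ T)).card) : St G U W ρ (insert T C) (X ∪ T) (B \ T) where
  one := by
    intro c hc'
    rcases mem_insert.1 hc' with rfl | hc'
    · exact ⟨hT.trans s.sub, hne, hc, fun x hx h => (mem_sdiff.1 h).2 hx,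
        (card_le_card inter_subset_right).trans hρ⟩
    · obtain ⟨h1, h2, h3, h4, h5⟩ := s.one c hc'
      refine ⟨h1, h2, h3, fun x hx h => h4 x hx (mem_sdiff.1 h).1, le_trans (card_le_card ?_) h5⟩
      intro x hx
      obtain ⟨h6, h7⟩ := mem_inter.1 hx
      exact mem_inter.2 ⟨(mem_union.1 h6).resolve_right fun h => h4 x h7 (hT h), h7⟩
  two := by
    intro c₁ h₁ c₂ h₂ hn
    rcases mem_insert.1 h₁ with e₁ | k₁ <;> rcases mem_insert.1 h₂ with e₂ | k₂
    · exact absurd (e₁.trans e₂.symm) hn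
    · rw [e₁]
      exact ⟨fun x hx h => (s.one c₂ k₂).2.2.2.1 x h (hT hx), hm c₂ k₂⟩
    · rw [e₂]
      obtain ⟨a, ha, u, hu, h⟩ := hm c₁ k₁
      exact ⟨fun x hx h => (s.one c₁ k₁).2.2.2.1 x hx (hT h), u, hu, a, ha, h.symm⟩
    · exact s.two c₁ k₁ c₂ k₂ hn
  cov := by
    intro x hx
    rcases mem_union.1 hx with h | h
    · obtain ⟨c, hc', h1⟩ := s.cov x h
      exact ⟨c, mem_insert_of_mem hc', h1⟩
    · exact ⟨T, mem_insert_self _ _, h⟩
  sub := sdiff_subset.trans s.sub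
  cls := by
    intro b hb u hu hbu
    rcases s.cls b (mem_sdiff.1 hb).1 u hu hbu with h1 | h1
    · by_cases h2 : u ∈ T
      · exact Or.inr (mem_union_right _ h2)
      · exact Or.inl (mem_sdiff.2 ⟨h1, h2⟩)
    · exact Or.inr (mem_union_left _ h1)
  hvy := hh

theorem St.grow (s : St G U W ρ C X B) {Z B' c : Finset V} (hZ : Z ⊆ B) (hρ : Z.card ≤ ρ)
    (hc : c ∈ C) (hB' : B' ⊆ B) (hh : W.card < 2 * (W ∩ B').card)
    (hcl : ∀ b ∈ B', ∀ u ∈ B, G.Adj b u → u ∈ B' ∨ u ∈ Z)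
    (hm : ∀ b ∈ B', ∀ u ∈ c, ¬ G.Adj b u) :
    St G U W ρ (insert (clo G (c ∪ B \ B') c) (C.erase c))
      (X \ c ∪ Z ∩ clo G (c ∪ B \ B') c) (B \ clo G (c ∪ B \ B') c) := by
  obtain ⟨g1, g2, g3, g4, g5⟩ := s.one c hc
  have hsub : c ⊆ clo G (c ∪ B \ B') c := sub_clo subset_union_left
  have hin : ∀ x ∈ clo G (c ∪ B \ B') c, x ∈ c ∨ (x ∈ B ∧ x ∉ B') := fun x hx =>
    (mem_union.1 (clo_sub hx)).imp id mem_sdiff.1
  have hdis : ∀ c' ∈ C.erase c, ∀ x ∈ clo G (c ∪ B \ B') c, x ∉ c' := by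
    intro c' hc' x hx h
    obtain ⟨h1, h2⟩ := mem_erase.1 hc'
    rcases hin x hx with h3 | h3
    · exact (s.two c' h2 c hc h1).1 x h h3
    · exact (s.one c' h2).2.2.2.1 x h h3.1
  refine ⟨?_, ?_, ?_, sdiff_subset.trans s.sub, ?_, ?_⟩
  · intro c' hc'
    rcases mem_insert.1 hc' with rfl | hc'
    · refine ⟨fun x hx => (hin x hx).elim (fun h => g1 h) fun h => s.sub h.1, g2.mono hsub,
        clo_conn subset_union_left g3, fun x hx h => (mem_sdiff.1 h).2 hx,
        le_trans (card_le_card ?_) hρ⟩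
      intro x hx
      obtain ⟨h1, h2⟩ := mem_inter.1 hx
      rcases mem_union.1 h1 with h3 | h3
      · obtain ⟨h4, h5⟩ := mem_sdiff.1 h3
        exact absurd ((hin x h2).resolve_left h5).1 (s.notMem h4)
      · exact (mem_inter.1 h3).1
    · obtain ⟨h1, h2, h3, h4, h5⟩ := s.one c' (mem_of_mem_erase hc')
      refine ⟨h1, h2, h3, fun x hx h => h4 x hx (mem_sdiff.1 h).1, le_trans (card_le_card ?_) h5⟩
      intro x hx
      obtain ⟨h6, h7⟩ := mem_inter.1 hx
      rcases mem_union.1 h6 with h8 | h8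
      · exact mem_inter.2 ⟨(mem_sdiff.1 h8).1, h7⟩
      · exact absurd (hZ (mem_inter.1 h8).1) (h4 x h7)
  · intro c₁ h₁ c₂ h₂ hn
    rcases mem_insert.1 h₁ with rfl | h₁ <;> rcases mem_insert.1 h₂ with rfl | h₂
    · exact absurd rfl hn
    · obtain ⟨u, hu, v, hv, h⟩ := (s.two c hc c₂ (mem_of_mem_erase h₂) (mem_erase.1 h₂).1.symm).2
      exact ⟨hdis c₂ h₂, u, hsub hu, v, hv, h⟩
    · obtain ⟨u, hu, v, hv, h⟩ := (s.two c₁ (mem_of_mem_erase h₁) c hc (mem_erase.1 h₁).1).2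
      exact ⟨fun x hx h => hdis c₁ h₁ x h hx, u, hu, v, hsub hv, h⟩
    · exact s.two c₁ (mem_of_mem_erase h₁) c₂ (mem_of_mem_erase h₂) hn
  · intro x hx
    rcases mem_union.1 hx with h | h
    · obtain ⟨h1, h2⟩ := mem_sdiff.1 h
      obtain ⟨c', hc', h3⟩ := s.cov x h1
      exact ⟨c', mem_insert_of_mem (mem_erase.2 ⟨fun e => h2 (e ▸ h3), hc'⟩), h3⟩
    · exact ⟨_, mem_insert_self _ _, (mem_inter.1 h).2⟩
  · intro b hb u hu hbu
    obtain ⟨hb1, hb2⟩ := mem_sdiff.1 hb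
    have hkey : u ∈ clo G (c ∪ B \ B') c → b ∈ B' := by
      intro h
      by_contra hn
      exact hb2 (clo_step h (mem_union_right _ (mem_sdiff.2 ⟨hb1, hn⟩)) hbu.symm)
    rcases s.cls b hb1 u hu hbu with h1 | h1
    · by_cases h2 : u ∈ clo G (c ∪ B \ B') c
      · refine Or.inr (mem_union_right _ (mem_inter.2 ⟨?_, h2⟩))
        refine (hcl b (hkey h2) u h1 hbu).resolve_left ?_
        exact ((hin u h2).resolve_left fun h => g4 u h h1).2
      · exact Or.inl (mem_sdiff.2 ⟨h1, h2⟩)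
    · exact Or.inr (mem_union_left _ (mem_sdiff.2 ⟨h1, fun h => hm b (hkey (hsub h)) u h hbu⟩))
  · refine hh.trans_le (Nat.mul_le_mul_left 2 (card_le_card
      (inter_subset_inter (Subset.refl _) fun x hx => mem_sdiff.2 ⟨hB' hx, fun h => ?_⟩)))
    rcases hin x h with h1 | h1
    · exact g4 x h1 (hB' hx)
    · exact h1.2 hx

theorem main {h : ℕ} (hρ : 1 ≤ ρ) (hU : h * U.card ≤ ρ ^ 2)
    (hk : ∀ (C : Finset (Finset V)) (X B : Finset V), St G U W ρ C X B → C.card < h) :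
    ∀ (m : ℕ) (C : Finset (Finset V)) (X B : Finset V), 2 * B.card + C.card < m →
      St G U W ρ C X B → Goal G U W (h * ρ) := by
  intro m
  induction m with
  | zero => intro C X B hm; exact absurd hm (Nat.not_lt_zero _)
  | succ m ih =>
    intro C X B hm s
    by_cases hd : ∃ c ∈ C, ∀ b ∈ B, ∀ u ∈ c, ¬ G.Adj b u
    · obtain ⟨c, hc, h1⟩ := hd
      refine ih _ _ _ ?_ (s.drop h1)
      have := card_erase_lt_of_mem hc
      omega
    have hlt := hk C X B s
    have hY : ∀ Q : Finset V, Q.card ≤ ρ → (X ∪ Q).card ≤ h * ρ := by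
      intro Q hQ
      calc (X ∪ Q).card ≤ X.card + Q.card := card_union_le _ _
        _ ≤ C.card * ρ + ρ := add_le_add s.card_le hQ
        _ = (C.card + 1) * ρ := by ring
        _ ≤ h * ρ := Nat.mul_le_mul_right _ hlt
    rcases lemma_fam (G := G) B C (fun c => B.filter fun b => ∃ u ∈ c, G.Adj b u) ρ hρ with
      ⟨T, h1, h2, h3, h4, h5⟩ | ⟨Z, h1, h2, h3⟩
    · rcases goal_or_heavy (G := G) (W := W) (union_subset s.XU (h1.trans s.sub)) (hY T h4) with
        hg | ⟨v, hv, hh⟩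
      · exact hg
      refine ih _ _ _ ?_ (s.addT h1 h2 h3 h4 (fun c hc => ?_) ?_)
      · have h6 : (B \ T).card < B.card := by
          obtain ⟨t, ht⟩ := h2
          exact card_lt_card ⟨sdiff_subset, fun h => (mem_sdiff.1 (h (h1 ht))).2 ht⟩
        have := card_insert_le T C
        omega
      · obtain ⟨a, ha, hb⟩ := h5 c hc
        exact ⟨a, ha, (mem_filter.1 hb).2⟩
      · exact hh.trans_le (Nat.mul_le_mul_left 2 (card_le_card
          (inter_subset_inter (Subset.refl _) (s.heavy_sub hv hh))))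
    · have h4 : Z.card ≤ ρ := by
        refine Nat.le_of_mul_le_mul_right (h2.trans ?_) hρ
        calc C.card * B.card ≤ h * U.card := Nat.mul_le_mul hlt.le (card_le_card s.sub)
          _ ≤ ρ ^ 2 := hU
          _ = ρ * ρ := sq ρ
      rcases goal_or_heavy (G := G) (W := W) (union_subset s.XU (h1.trans s.sub)) (hY Z h4) with
        hg | ⟨v, hv, hh⟩
      · exact hg
      have hs := s.heavy_sub hv hh
      have hv' : ({v} : Finset V) ⊆ U \ (X ∪ Z) := singleton_subset_iff.2 hv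
      obtain ⟨c, hc, h5⟩ := h3 _ hs ⟨v, sub_clo hv' (mem_singleton_self v)⟩
        (clo_conn hv' (conn_singleton v))
      have h6 : ∀ b ∈ clo G (U \ (X ∪ Z)) {v}, ∀ u ∈ c, ¬ G.Adj b u := fun b hb u hu hbu =>
        h5 b hb (mem_filter.2 ⟨(mem_sdiff.1 (hs hb)).1, u, hu, hbu⟩)
      refine ih _ _ _ ?_ (s.grow h1 h4 hc (hs.trans sdiff_subset) hh ?_ h6)
      · have h7 : ∃ b ∈ B, ∃ u ∈ c, G.Adj b u := by
          by_contra hn
          exact hd ⟨c, hc, fun b hb u hu hbu => hn ⟨b, hb, u, hu, hbu⟩⟩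
        obtain ⟨b, hb, u, hu, hbu⟩ := h7
        have h8 : b ∈ clo G (c ∪ B \ clo G (U \ (X ∪ Z)) {v}) c :=
          clo_step (sub_clo subset_union_left hu)
            (mem_union_right _ (mem_sdiff.2 ⟨hb, fun h => h6 b h u hu hbu⟩)) hbu.symm
        have h9 : (B \ clo G (c ∪ B \ clo G (U \ (X ∪ Z)) {v}) c).card < B.card :=
          card_lt_card ⟨sdiff_subset, fun h => (mem_sdiff.1 (h hb)).2 h8⟩
        have h10 := card_insert_le (clo G (c ∪ B \ clo G (U \ (X ∪ Z)) {v}) c) (C.erase c)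
        have := card_erase_lt_of_mem hc
        omega
      · intro b hb u hu hbu
        by_cases h7 : u ∈ Z
        · exact Or.inr h7
        · refine Or.inl (clo_step hb (mem_sdiff.2 ⟨s.sub hu, fun h => ?_⟩) hbu)
          rcases mem_union.1 h with h | h
          · exact s.notMem h hu
          · exact h7 h

omit [DecidableEq V] in
theorem Conn.connected {c : Finset V} (hc : Conn G c) (hne : c.Nonempty) {S : Set V}
    (hS : ∀ v, v ∈ S ↔ v ∈ c) : (G.induce S).Connected := by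
  obtain ⟨a, ha⟩ := hne
  have : Nonempty S := ⟨⟨a, (hS a).2 ha⟩⟩
  refine ⟨?_⟩
  have key : ∀ x (hx : x ∈ S) y, Rch G c x y → ∀ hy : y ∈ S,
      (G.induce S).Reachable ⟨x, hx⟩ ⟨y, hy⟩ := by
    intro x hx y h
    induction h with
    | refl => intro _; exact SimpleGraph.Reachable.refl _
    | @tail u w _ h1 ih =>
      intro hy
      exact (ih ((hS u).2 h1.2.1)).trans (SimpleGraph.Adj.reachable (by exact h1.1))
  rintro ⟨x, hx⟩ ⟨y, hy⟩
  exact key x hx y (hc x ((hS x).1 hx) y ((hS y).1 hy)) hy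

theorem card_lt {h n : ℕ} {G : SimpleGraph (Fin n)} (hK : NoK h G) {U W : Finset (Fin n)}
    {C : Finset (Finset (Fin n))} {X B : Finset (Fin n)} (s : St G U W ρ C X B) : C.card < h := by
  by_contra hn
  have hle : h ≤ C.card := not_lt.1 hn
  let g : Fin h → Finset (Fin n) := fun w => (C.equivFin.symm (Fin.castLE hle w) : C)
  have hg : ∀ w, g w ∈ C := fun w => (C.equivFin.symm (Fin.castLE hle w)).2
  have hinj : ∀ w w', w ≠ w' → g w ≠ g w' := fun w w' hw e =>
    hw (Fin.castLE_injective hle (C.equivFin.symm.injective (Subtype.ext e)))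
  let f : Fin n → Option (Fin h) := fun v => if hv : ∃ w, v ∈ g w then some hv.choose else none
  have hf : ∀ v w, f v = some w ↔ v ∈ g w := by
    intro v w
    by_cases hv : ∃ w, v ∈ g w
    · have e : f v = some hv.choose := dif_pos hv
      rw [e]
      constructor
      · intro h1
        rw [← Option.some.inj h1]
        exact hv.choose_spec
      · intro h1
        by_contra h2
        exact (s.two _ (hg _) _ (hg _) (hinj _ _ fun e => h2 (congrArg some e))).1 v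
          hv.choose_spec h1
    · have e : f v = none := dif_neg hv
      rw [e]
      exact ⟨fun h1 => by simp at h1, fun h1 => absurd ⟨w, h1⟩ hv⟩
  refine hK ⟨f, fun w => ?_, fun w => ?_, fun w w' hw => ?_⟩
  · obtain ⟨v, hv⟩ := (s.one _ (hg w)).2.1
    exact ⟨v, (hf v w).2 hv⟩
  · exact (s.one _ (hg w)).2.2.1.connected (s.one _ (hg w)).2.1 fun v => hf v w
  · obtain ⟨u, hu, v, hv, h1⟩ := (s.two _ (hg w) _ (hg w') (hinj w w' hw)).2
    exact ⟨u, v, (hf u w).2 hu, (hf v w').2 hv, h1⟩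

end Sep

theorem sep : SepStmt := by
  intro h n G U W ρ hK hW hU hρ
  rcases W.eq_empty_or_nonempty with rfl | hne
  · exact ⟨U, ∅, ∅, by simp, by simp, by simp, by simp, by simp, by simp, by simp, by simp⟩
  refine Sep.main (G := G) (W := W) hρ hU (fun C X B s => Sep.card_lt hK s) _ ∅ ∅ U
    (Nat.lt_succ_self _) ⟨by simp, by simp, by simp, Subset.refl _, fun _ _ u hu _ => Or.inl hu, ?_⟩
  rw [inter_eq_left.2 hW]
  have := hne.card_pos
  omega

end Pool.Agent.Lib.MP_234305_co.V33
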