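import Pool.Agent.Lib.MP_234305_co.V33.RepC
import Pool.Agent.Lib.MP_234305_co.V33.Net
import Pool.Agent.Lib.MP_234305_co.V33.Gates
import Pool.Agent.Lib.MP_234305_co.V33.Dual
import Pool.Agent.Lib.MP_234305_co.V33.Int
import Pool.Agent.Lib.MP_234305_co.V33.Count
import Pool.Agent.Lib.MP_234305_co.V33.Mst
import Pool.Agent.Lib.MP_234305_co.V33.Sep
import Pool.Agent.Lib.MP_234305_co.V33.Dec

/-! From a decomposition to the two extended formulations. -/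

open Finset

namespace Pool.Agent.Lib.MP_234305_co.V33

theorem main {n C a : ℕ} (G : SimpleGraph (Fin n)) (hG : G.Connected) (v : Fin n)
    (h : Dec (ed G univ) univ {v} (C * a * (Nat.log 2 n + 1))) :
    ∃ Q R : Set (Sym2 (Fin n) → ℝ), Q.Nonempty ∧ Bornology.IsBounded Q ∧
      R = {z | ∃ p ∈ convexHull ℝ {x : Sym2 (Fin n) → ℝ | ∃ T : SimpleGraph (Fin n),
        T ≤ G ∧ T.IsTree ∧ x = T.edgeSet.indicator (fun _ => (1 : ℝ))}, ∃ q ∈ Q, z = p + q} ∧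
      ∀ S : Set (Sym2 (Fin n) → ℝ), S = Q ∨ S = R →
        ∃ (d k : ℕ) (A : Fin k → Fin d → ℝ) (b : Fin k → ℝ)
          (π : (Fin d → ℝ) →ᵃ[ℝ] (Sym2 (Fin n) → ℝ)),
          π '' {y : Fin d → ℝ | ∀ i : Fin k, ∑ j : Fin d, A i j * y j ≤ b i} = S ∧
          k ≤ 200000 * C * a * (Nat.log 2 n + 1) ^ 4 := by
  obtain ⟨Q, R, h1, h2, h3, h4⟩ :=
    of_dec net (transfer net) (joinG net) bits intS count dual mst G hG v h
  refine ⟨Q, R, h1, h2, ?_, fun S hS => ?_⟩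
  · rw [← h3]
    ext z
    exact ⟨fun ⟨p, hp, q, hq, e⟩ => ⟨p, hp, q, hq, e.symm⟩,
      fun ⟨p, hp, q, hq, e⟩ => ⟨p, hp, q, hq, e.symm⟩⟩
  · obtain ⟨k, hk, d, A, b, π, e⟩ := h4 S hS
    exact ⟨d, k, A, b, π, e, hk.trans (le_of_eq (by ring))⟩

end Pool.Agent.Lib.MP_234305_co.V33
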