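import Pool.Agent.Lib.MP_234305_co.V33.Base

/-! Labels, sorted grids and one interval of the grid. -/

open Finset Relation
open scoped Classical

namespace Pool.Agent.Lib.MP_234305_co.V33

theorem mem_of {E : Type} {M : Submodule ℝ (Fn E)} {f g : Fn E} (h : g ∈ M) (e : ∀ x, f x = g x) :
    f ∈ M := (funext e : f = g) ▸ h

/-- The indicator of a proposition. -/
noncomputable def indf (p : Prop) : ℝ := if p then 1 else 0

section lab

variable {n : ℕ} {σ : Fin n → ℕ} {W : Finset (Fin n)} {F F' : Set (Sym2 (Fin n))} {i j : Fin n}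

theorem Rc.symm {V : Type} {F : Set (Sym2 V)} {i j : V} (h : Rc F i j) : Rc F j i := by
  induction h with
  | refl => exact ReflTransGen.refl
  | tail _ h ih => exact ReflTransGen.head (by rwa [Sym2.eq_swap]) ih

theorem Rc.mono {V : Type} {F F' : Set (Sym2 V)} {i j : V} (h : Rc F i j) (hF : F ⊆ F') :
    Rc F' i j := ReflTransGen.mono (fun _ _ h => hF h) _ _ h

theorem lab_mem (hi : i ∈ W) : ∃ j ∈ W, Rc F i j ∧ lab σ W F i = σ j :=
  Nat.sInf_mem (s := {a | ∃ j ∈ W, Rc F i j ∧ a = σ j}) ⟨_, i, hi, ReflTransGen.refl, rfl⟩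

theorem lab_le (hj : j ∈ W) (h : Rc F i j) : lab σ W F i ≤ σ j := Nat.sInf_le ⟨j, hj, h, rfl⟩

theorem lab_of_iff (h : ∀ k ∈ W, Rc F i k ↔ Rc F' j k) : lab σ W F i = lab σ W F' j := by
  unfold lab
  congr 1
  ext a
  exact ⟨fun ⟨k, h1, h2, h3⟩ => ⟨k, h1, (h k h1).1 h2, h3⟩,
    fun ⟨k, h1, h2, h3⟩ => ⟨k, h1, (h k h1).2 h2, h3⟩⟩

theorem lab_congr (h : Rc F i j) : lab σ W F i = lab σ W F j :=
  lab_of_iff fun _ _ => ⟨fun h' => h.symm.trans h', fun h' => h.trans h'⟩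

theorem lab_eq_iff (hi : i ∈ W) (hj : j ∈ W) :
    lab Fin.val W F i = lab Fin.val W F j ↔ Rc F i j := by
  refine ⟨fun h => ?_, lab_congr⟩
  obtain ⟨a, -, h1, h2⟩ := lab_mem (σ := Fin.val) (F := F) hi
  obtain ⟨b, -, h3, h4⟩ := lab_mem (σ := Fin.val) (F := F) hj
  obtain rfl : a = b := Fin.ext (by omega)
  exact h1.trans h3.symm

theorem lab_anti (hi : i ∈ W) (hF : F ⊆ F') : lab σ W F' i ≤ lab σ W F i := by
  obtain ⟨a, h0, h1, h2⟩ := lab_mem (σ := σ) (F := F) hi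
  exact h2 ▸ lab_le h0 (h1.mono hF)

/-- If the least vertices of the classes stay least, the labels do not change. -/
theorem lab_stay (hi : i ∈ W) (hF : F ⊆ F')
    (h : ∀ j ∈ W, lab Fin.val W F j = j → lab Fin.val W F' j = j) :
    lab Fin.val W F' i = lab Fin.val W F i := by
  obtain ⟨a, h0, h1, h2⟩ := lab_mem (σ := Fin.val) (F := F) hi
  rw [lab_congr (h1.mono hF), h a h0 (by rw [← lab_congr h1, h2]), h2]

theorem lab_sub {Z : Finset (Fin n)} (hZ : Z ⊆ W) (hi : i ∈ Z) :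
    lab (fun i => if i ∈ Z then i.val else n + i.val) W F i = lab Fin.val Z F i := by
  obtain ⟨a, h0, h1, h2⟩ := lab_mem (σ := Fin.val) (F := F) hi
  obtain ⟨b, h3, h4, h5⟩ :=
    lab_mem (σ := fun i => if i ∈ Z then i.val else n + i.val) (F := F) (hZ hi)
  have h6 := lab_le (σ := fun i => if i ∈ Z then i.val else n + i.val) (hZ h0) h1
  by_cases hb : b ∈ Z
  · have := lab_le (σ := Fin.val) hb h4
    simp only [h0, hb, if_true] at h5 h6
    omega
  · simp only [h0, hb, if_true, if_false] at h5 h6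
    omega

end lab

theorem sum_bits (L h : ℕ) : ∑ l ∈ range L, 2 ^ l * (h / 2 ^ l % 2) = h % 2 ^ L := by
  induction L with
  | zero => simp [Nat.mod_one]
  | succ L ih => rw [sum_range_succ, ih, Nat.mod_pow_succ]

section sorted

variable {E : Type} [Fintype E] {m M : Fn E} {r : ℕ} {y : ℕ → Fn E} {φ : Set E → ℝ}

theorem In_zero (x : E → ℝ) : In m φ x (m x) = 0 := intervalIntegral.integral_same

theorem sorted_le (hy : ∀ k, k + 1 < r → y k ≤ y (k + 1)) {j k : ℕ} (h : j ≤ k) (hk : k < r) :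
    y j ≤ y k := by
  induction h with
  | refl => exact le_rfl
  | step _ ih => exact (ih (by omega)).trans (hy _ hk)

theorem sorted_step (hi : IntStmt) (hy : ∀ k, k + 1 < r → y k ≤ y (k + 1))
    (hR : Rng m M ((range r).image y)) (hG : Grid m M ((range r).image y) φ) {k : ℕ}
    (hk : k + 1 < r) (x : E → ℝ) : In m φ x (y (k + 1) x) - In m φ x (y k x) =
      (y (k + 1) x - y k x) * φ {e | x e ≤ y k x} := by
  refine (hi E m).1 φ x _ _ _ (hy k hk x) fun t h1 h2 => hG x _ t ?_ h1 ?_ fun s hs => ?_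
  · exact (hR.2.2 _ (mem_image_of_mem y (mem_range.2 (by omega)))).1 x
  · exact h2.trans_le ((hR.2.2 _ (mem_image_of_mem y (mem_range.2 hk))).2 x)
  · obtain ⟨j, hj, rfl⟩ := mem_image.1 hs
    rcases le_or_gt j k with h | h
    · exact Or.inl (sorted_le hy h (by omega) x)
    · exact Or.inr (h2.trans_le (sorted_le hy h (mem_range.1 hj) x))

theorem sorted_mem (hi : IntStmt) (hy : ∀ k, k + 1 < r → y k ≤ y (k + 1))
    (hR : Rng m M ((range r).image y)) (hG : Grid m M ((range r).image y) φ)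
    (N : Submodule ℝ (Fn E))
    (h : ∀ k, k + 1 < r → (fun x => (y (k + 1) x - y k x) * φ {e | x e ≤ y k x}) ∈ N) :
    (∀ k < r, (fun x => In m φ x (y k x)) ∈ N) ∧ (fun x => In m φ x (M x)) ∈ N := by
  have h1 : ∀ k < r, (fun x => In m φ x (y k x)) ∈ N := fun k hk => by
    induction k with
    | zero =>
      have : (fun x => In m φ x (y 0 x)) = 0 := funext fun x => by
        obtain ⟨s, hs, h2⟩ := hR.1 x
        obtain ⟨j, hj, rfl⟩ := mem_image.1 hs
        have h3 : y 0 x = m x := le_antisymm (h2 ▸ sorted_le hy j.zero_le (mem_range.1 hj) x)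
          ((hR.2.2 _ (mem_image_of_mem y (mem_range.2 hk))).1 x)
        rw [h3, In_zero]; rfl
      exact this ▸ N.zero_mem
    | succ k ih =>
      convert N.add_mem (ih (by omega)) (h k hk) using 1
      funext x
      simp only [Pi.add_apply, ← sorted_step hi hy hR hG hk x]; ring
  refine ⟨h1, ?_⟩
  have hr : 0 < r := by
    obtain ⟨s, hs, -⟩ := hR.1 0
    obtain ⟨j, hj, -⟩ := mem_image.1 hs
    have := mem_range.1 hj
    omega
  convert h1 (r - 1) (by omega) using 2 with x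
  obtain ⟨s, hs, h2⟩ := hR.2.1 x
  obtain ⟨j, hj, rfl⟩ := mem_image.1 hs
  have := mem_range.1 hj
  rw [le_antisymm ((hR.2.2 _ (mem_image_of_mem y (mem_range.2 (by omega : r - 1 < r)))).2 x)
    (h2 ▸ sorted_le hy (by omega) (by omega) x)]

theorem move (ht : TransferStmt) (hi : IntStmt) {S Q : Finset (Fn E)} {D : ℕ}
    (hD : S.card + Q.card ≤ 2 ^ D) (hR : Rng m M S) (hG : Grid m M S φ)
    (h : ∀ ξ, φ ξ = 0 ∨ φ ξ = 1) (hQ : ∀ q ∈ Q, m ≤ q ∧ q ≤ M) :
    Ext (64 * (D + 1) ^ 2 * (S.card + Q.card))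
      ((S : Set (Fn E)) ∪ (Q : Set (Fn E)) ∪ {g | ∃ s ∈ S, g = fun x => In m φ x (s x)})
      {g | ∃ q ∈ Q, g = fun x => In m φ x (q x)} :=
  ht E D S Q (In m φ) hD
    (fun x a b hab => (hi E m).2.1 φ x a b (fun ξ => by rcases h ξ with h | h <;> simp [h]) hab)
    fun x q hq => (hi E m).2.2.2.2.2 M S φ x _ hR hG h ((hQ q hq).1 x) ((hQ q hq).2 x)

end sorted

theorem interval (hj : JoinStmt) (hb : BitStmt) {E V : Type} [DecidableEq V] (D K L : ℕ)
    (W : Bool → Finset V)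
    (Z : Finset V) (δ : Fn E) (f : Bool → (E → ℝ) → V → ℕ) (h : (E → ℝ) → V → ℕ) (σ : V → ℕ)
    (h1 : ∀ c, (W c).card ≤ 2 ^ D) (h2 : ∀ x, 0 ≤ δ x)
    (h3 : ∀ x c, ∀ i ∈ W c, ∀ j ∈ W c, f c x i = f c x j → h x i = h x j)
    (h4 : ∀ x c, ∀ i ∈ W c, h x i ≤ σ i ∧ σ i ≤ K)
    (h5 : ∀ x c, ∀ i ∈ W c, ∃ j, (∃ c', j ∈ W c') ∧ h x i = σ j ∧
      ReflTransGen (fun a b => ∃ c, a ∈ W c ∧ b ∈ W c ∧ f c x a = f c x b) j i)
    (hZ : Z ⊆ W true ∪ W false) (h6 : ∀ x, ∀ i ∈ Z, h x i < 2 ^ L) :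
    Ext ((56 * (D + 1) ^ 2 + 4 * L + 2) * ((W true).card + (W false).card))
      ({δ} ∪ {g | ∃ c, ∃ i ∈ W c, g = fun x => δ x * (f c x i : ℝ)})
      ({g | ∃ i ∈ Z, ∃ l < L, g = fun x => δ x * ((h x i / 2 ^ l % 2 : ℕ) : ℝ)} ∪
        {g | ∃ i ∈ W true ∪ W false, g = fun x => δ x * indf (h x i = σ i)}) := by
  intro t M hA hM
  obtain ⟨M1, l1, b1, c1⟩ := hj E V D K W δ f h σ h1 h2 h3 h4 h5 t M hA hM
  have hδ : δ ∈ M1 := l1 (hA (Or.inl rfl))
  have hh : ∀ i ∈ W true ∪ W false, (fun x => δ x * (h x i : ℝ)) ∈ M1 := fun i hi => by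
    rcases mem_union.1 hi with hi | hi <;> exact b1 ⟨_, i, hi, rfl⟩
  obtain ⟨M2, l2, b2, c2⟩ := Ext.many (A := M1) Z _ (fun i hi =>
    (hb E L δ (fun x => h x i) h2 fun x => h6 x i hi).mono le_rfl
      (by rintro _ (rfl | rfl); exacts [hδ, hh i (hZ hi)]) le_rfl) _ M1 le_rfl c1
  obtain ⟨M3, l3, b3, c3⟩ := Ext.many (A := M2) (W true ∪ W false) _ (fun i hi =>
    (ext_inf δ ((σ i : ℝ) • δ - fun x => δ x * (h x i : ℝ))).mono le_rfl (by
      rintro _ (rfl | rfl)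
      exacts [l2 hδ, l2 (M1.sub_mem (M1.smul_mem _ hδ) (hh i hi))]) le_rfl) _ M2 le_rfl c2
  refine ⟨M3, l1.trans (l2.trans l3), ?_, c3.mono ?_⟩
  · rintro _ (⟨i, hi, l, hl, rfl⟩ | ⟨i, hi, rfl⟩)
    · exact l3 (b2 ⟨i, hi, l, hl, rfl⟩)
    · refine mem_of (M3.sub_mem (l3 (l2 hδ)) (b3 ⟨i, hi, Or.inl rfl⟩)) fun x => ?_
      have h7 : h x i ≤ σ i := by
        rcases mem_union.1 hi with hi | hi <;> exact (h4 x _ i hi).1
      have h8 := h2 x
      simp only [Pi.sub_apply, Pi.inf_apply, Pi.smul_apply, smul_eq_mul, indf]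
      split_ifs with h9
      · rw [h9, min_eq_right (by linarith)]; ring
      · have : (h x i : ℝ) + 1 ≤ σ i := by exact_mod_cast lt_of_le_of_ne h7 h9
        rw [min_eq_left (by nlinarith)]; ring
  · have e1 := card_union_le (W true) (W false)
    have e2 := (card_le_card hZ).trans e1
    have e3 := Nat.mul_le_mul_right (4 * L) e2
    nlinarith

end Pool.Agent.Lib.MP_234305_co.V33
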