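import Pool.Agent.Lib.MP_234305_co.V33.RepA

/-! The data exported by a region, and the gluing step. -/

open Finset Relation
open scoped Classical

namespace Pool.Agent.Lib.MP_234305_co.V33

variable {n : ℕ}

/-- Bit `l` of the label of `i`. -/
noncomputable def bitf (F : Finset (Sym2 (Fin n))) (W : Finset (Fin n)) (i : Fin n) (l : ℕ)
    (ξ : Set (Sym2 (Fin n))) : ℝ := ((lab Fin.val W (↑F ∩ ξ) i / 2 ^ l % 2 : ℕ) : ℝ)

theorem bitf_cases (F : Finset (Sym2 (Fin n))) (W : Finset (Fin n)) (i : Fin n) (l : ℕ)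
    (ξ : Set (Sym2 (Fin n))) : bitf F W i l ξ = 0 ∨ bitf F W i l ξ = 1 := by
  unfold bitf
  rcases Nat.mod_two_eq_zero_or_one (lab Fin.val W (↑F ∩ ξ) i / 2 ^ l) with h | h <;> simp [h]

/-- A region exports a small grid, the integrated label bits on it, and its closed classes. -/
def Rep (m M : Fn (Sym2 (Fin n))) (L : ℕ) (F : Finset (Sym2 (Fin n))) (U W : Finset (Fin n))
    (k : ℕ) : Prop :=
  ∃ S : Finset (Fn (Sym2 (Fin n))), S.card ≤ W.card + 2 ∧ Rng m M S ∧
    (∀ i ∈ W, Grid m M S fun ξ => (lab Fin.val W (↑F ∩ ξ) i : ℝ)) ∧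
    Ext k {m, M} ((S : Set _) ∪
      {g | ∃ i ∈ W, ∃ l < L, ∃ s ∈ S, g = fun x => In m (bitf F W i l) x (s x)} ∪
      {fun x => In m (fun ξ => (fre U W (↑F ∩ ξ) : ℝ)) x (M x)})

theorem Grid.bit {m M : Fn (Sym2 (Fin n))} {S : Finset (Fn (Sym2 (Fin n)))}
    {F : Finset (Sym2 (Fin n))} {W : Finset (Fin n)} {i : Fin n}
    (h : Grid m M S fun ξ => (lab Fin.val W (↑F ∩ ξ) i : ℝ)) (l : ℕ) :
    Grid m M S (bitf F W i l) := fun x a t h1 h2 h3 h4 => by
  unfold bitf
  rw [Nat.cast_injective (h x a t h1 h2 h3 h4)]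

theorem beta_grid (hi : IntStmt) {m M : Fn (Sym2 (Fin n))} (hm : m ≤ M)
    (F : Finset (Sym2 (Fin n))) (Z : Finset (Fin n)) (β : Fin n → Fn (Sym2 (Fin n)))
    (hβ : ∀ i x, β i x =
      m x + In m (fun ξ => indf (lab Fin.val Z (↑F ∩ ξ) i = i)) x (M x)) :
    Rng m M (insert m (insert M (Z.image β))) ∧
      ∀ i ∈ Z, Grid m M (insert m (insert M (Z.image β)))
        fun ξ => (lab Fin.val Z (↑F ∩ ξ) i : ℝ) := by
  refine ⟨⟨fun x => ⟨m, by simp, rfl⟩, fun x => ⟨M, by simp, rfl⟩, fun s hs => ?_⟩,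
    fun i hi' x a t h1 h2 h3 h4 => ?_⟩
  · simp only [mem_insert, mem_image] at hs
    rcases hs with rfl | rfl | ⟨i, -, rfl⟩
    · exact ⟨le_rfl, hm⟩
    · exact ⟨hm, le_rfl⟩
    · have := fun x => (hi _ m).2.1 (fun ξ => indf (lab Fin.val Z (↑F ∩ ξ) i = i)) x _ _
        (fun ξ => by unfold indf; split_ifs <;> simp) (hm x)
      simp only [In_zero] at this
      exact ⟨fun x => by rw [hβ]; linarith [(this x).1], fun x => by rw [hβ]; linarith [(this x).2]⟩
  · have hs : (↑F ∩ {e | x e ≤ a} : Set _) ⊆ ↑F ∩ {e | x e ≤ t} :=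
      Set.inter_subset_inter_right _ fun e he => le_trans he h2
    refine congrArg Nat.cast (lab_stay hi' hs fun j hj h5 => ?_)
    have key := fun t h1 h2 => (hi _ m).2.2.2.2.1 (fun ξ => lab Fin.val Z (↑F ∩ ξ) j = j) x (M x) t
      (fun ξ η h h' => le_antisymm (lab_le hj ReflTransGen.refl)
        (h' ▸ lab_anti hj (Set.inter_subset_inter_right _ h))) h1 h2
    have h6 := (key a h1 (h2.trans_lt h3)).2 h5
    refine (key t (h1.trans h2) h3).1 ?_
    have h7 := h4 (β j) (by simp only [mem_insert, mem_image]; exact Or.inr (Or.inr ⟨j, hj, rfl⟩))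
    rw [hβ] at h7
    exact h7.resolve_left (not_le.2 h6)

theorem step (hn : NetStmt) (ht : TransferStmt) (hj : JoinStmt) (hb : BitStmt) (hi : IntStmt)
    (hc : CountStmt) {m M : Fn (Sym2 (Fin n))} (hm : m ≤ M) {L : ℕ} (hL : n ≤ 2 ^ L)
    (F : Bool → Finset (Sym2 (Fin n))) (U W : Bool → Finset (Fin n)) (Z : Finset (Fin n))
    (k : Bool → ℕ) (hF : ∀ c, ∀ e ∈ F c, ∀ v ∈ e, v ∈ U c) (hW : ∀ c, W c ⊆ U c)
    (hU : U true ∩ U false ⊆ W true ∩ W false) (hZ : Z ⊆ W true ∪ W false)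
    (h : ∀ c, Rep m M L (F c) (U c) (W c) (k c)) :
    Rep m M L (F true ∪ F false) (U true ∪ U false) Z
      (k true + k false + 700 * (L + 5) ^ 3 * ((W true).card + (W false).card + 4) ^ 2) := by
  choose S hS hR hG hE using h
  have hn' : ∀ X : Finset (Fin n), X.card ≤ 2 ^ L := fun X =>
    (card_le_univ X).trans (by simpa using hL)
  have hp : 1 ≤ 2 ^ L := Nat.one_le_two_pow
  have hD : 2 ^ (L + 4) = 16 * 2 ^ L := by ring
  have hA : (S true ∪ S false).card ≤ (W true).card + (W false).card + 4 := by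
    have := card_union_le (S true) (S false)
    have := hS true
    have := hS false
    omega
  have w1 := hn' (W true)
  have w2 := hn' (W false)
  obtain ⟨Γ, r, y, -, hr, hy0, -, -, hy, hy1, hy2, -⟩ :=
    hn _ (L + 4) (S true ∪ S false) (by omega)
  set Y := (range r).image y with hY
  have hYc : Y.card ≤ r := card_image_le.trans (by simp)
  have hv : ∀ c, ∀ s ∈ S c, ∀ x, ∃ s' ∈ Y, s' x = s x := fun c s hs x => by
    obtain ⟨j, h1, h2⟩ := hy2 s (by cases c <;> simp [hs]) x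
    exact ⟨_, mem_image_of_mem y (mem_range.2 h1), h2⟩
  have hRY : Rng m M Y := by
    refine ⟨fun x => ?_, fun x => ?_, fun s hs => ?_⟩
    · obtain ⟨s, h1, h2⟩ := (hR true).1 x
      exact h2 ▸ hv _ s h1 x
    · obtain ⟨s, h1, h2⟩ := (hR true).2.1 x
      exact h2 ▸ hv _ s h1 x
    · obtain ⟨j, h1, rfl⟩ := mem_image.1 hs
      have : ∀ x, m x ≤ y j x ∧ y j x ≤ M x := fun x => by
        obtain ⟨f, h2, h3⟩ := hy1 j (mem_range.1 h1) x
        rw [h3]
        rcases mem_union.1 h2 with h2 | h2 <;>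
          exact ⟨((hR _).2.2 f h2).1 x, ((hR _).2.2 f h2).2 x⟩
      exact ⟨fun x => (this x).1, fun x => (this x).2⟩
  have hGY : ∀ φ : Set (Sym2 (Fin n)) → ℝ, (∀ ξ η, (∀ c, ∀ i ∈ W c,
      lab Fin.val (W c) (↑(F c) ∩ ξ) i = lab Fin.val (W c) (↑(F c) ∩ η) i) → φ ξ = φ η) →
      Grid m M Y φ := fun φ hφ x a t h1 h2 h3 h4 => hφ _ _ fun c i hi' =>
    Nat.cast_injective (R := ℝ) (hG c i hi' x a t h1 h2 h3 fun s hs => by
      obtain ⟨s', h5, h6⟩ := hv c s hs x
      exact h6 ▸ h4 s' h5)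
  let σ : Fin n → ℕ := fun i => if i ∈ Z then i.val else n + i.val
  let H : Set (Sym2 (Fin n)) → Fin n → ℕ := fun ξ =>
    lab σ (W true ∪ W false) (↑(F true ∪ F false) ∩ ξ)
  have hu : ∀ ξ : Set (Sym2 (Fin n)), (↑(F true ∪ F false) ∩ ξ : Set _) =
      ↑(F true) ∩ ξ ∪ ↑(F false) ∩ ξ := fun ξ => by rw [coe_union, Set.union_inter_distrib_right]
  have hcn := fun ξ : Set (Sym2 (Fin n)) =>
    hc n (fun c => ↑(F c) ∩ ξ) U W (fun c e he => hF c e he.1) hW hU
  have hsub : ∀ c (ξ : Set (Sym2 (Fin n))), (↑(F c) ∩ ξ : Set _) ⊆ ↑(F true ∪ F false) ∩ ξ :=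
    fun c ξ => by rw [hu]; cases c <;> simp
  have hΩ : ∀ c, W c ⊆ W true ∪ W false := fun c => by cases c <;> simp
  have hch : ∀ ξ, ∀ i ∈ W true ∪ W false, ∀ j ∈ W true ∪ W false,
      Rc (↑(F true ∪ F false) ∩ ξ) i j → ReflTransGen (fun a b => ∃ c, a ∈ W c ∧ b ∈ W c ∧
        lab Fin.val (W c) (↑(F c) ∩ ξ) a = lab Fin.val (W c) (↑(F c) ∩ ξ) b) i j :=
    fun ξ i h1 j h2 h3 => ReflTransGen.mono
      (fun a b ⟨c, u, v, w⟩ => ⟨c, u, v, lab_congr w⟩) _ _ ((hcn ξ).1 i h1 j h2 (hu ξ ▸ h3))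
  have hH : ∀ ξ η, (∀ c, ∀ i ∈ W c,
      lab Fin.val (W c) (↑(F c) ∩ ξ) i = lab Fin.val (W c) (↑(F c) ∩ η) i) →
      ∀ i ∈ W true ∪ W false, H ξ i = H η i := by
    have aux : ∀ ξ η, (∀ c, ∀ i ∈ W c,
        lab Fin.val (W c) (↑(F c) ∩ ξ) i = lab Fin.val (W c) (↑(F c) ∩ η) i) →
        ∀ i ∈ W true ∪ W false, ∀ j ∈ W true ∪ W false, Rc (↑(F true ∪ F false) ∩ ξ) i j →
          Rc (↑(F true ∪ F false) ∩ η) i j := fun ξ η h0 i h1 j h2 h3 => by
      have h4 := hch ξ i h1 j h2 h3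
      clear h2 h3
      induction h4 with
      | refl => exact ReflTransGen.refl
      | tail _ h ih =>
        obtain ⟨c, u, v, w⟩ := h
        rw [h0 c _ u, h0 c _ v, lab_eq_iff u v] at w
        exact ih.trans (w.mono (hsub c η))
    exact fun ξ η h0 i h1 => lab_of_iff fun j h2 =>
      ⟨aux ξ η h0 i h1 j h2, aux η ξ (fun c i h => (h0 c i h).symm) i h1 j h2⟩
  have hHZ : ∀ ξ, ∀ i ∈ Z, H ξ i = lab Fin.val Z (↑(F true ∪ F false) ∩ ξ) i := fun ξ i h =>
    lab_sub hZ h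
  let β : Fin n → Fn (Sym2 (Fin n)) := fun i x => m x +
    In m (fun ξ => indf (lab Fin.val Z (↑(F true ∪ F false) ∩ ξ) i = i)) x (M x)
  obtain ⟨hR', hG'⟩ := beta_grid hi hm (F true ∪ F false) Z β fun _ _ => rfl
  have hS' : (insert m (insert M (Z.image β))).card ≤ Z.card + 2 :=
    (card_insert_le _ _).trans (Nat.succ_le_succ ((card_insert_le _ _).trans
      (Nat.succ_le_succ card_image_le)))
  refine ⟨_, hS', hR', hG', fun t M0 hA0 c0 => ?_⟩
  obtain ⟨M1, l1, b1, c1⟩ := ((hE true).union (hE false)) t M0 hA0 c0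
  have b1' : ∀ c, (S c : Set _) ∪
      {g | ∃ i ∈ W c, ∃ l < L, ∃ s ∈ S c, g = fun x => In m (bitf (F c) (W c) i l) x (s x)} ∪
      {fun x => In m (fun ξ => (fre (U c) (W c) (↑(F c) ∩ ξ) : ℝ)) x (M x)} ⊆ M1 := fun c => by
    cases c
    exacts [Set.subset_union_right.trans b1, Set.subset_union_left.trans b1]
  obtain ⟨M2, l2, b2, c2⟩ := hy0 _ M1 (by
    rw [coe_union]
    exact Set.union_subset (fun g hg => b1' _ (Or.inl (Or.inl hg)))
      fun g hg => b1' _ (Or.inl (Or.inl hg))) c1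
  have hy3 : ∀ j < r, y j ∈ M2 := fun j hj => b2 (Or.inr ⟨j, hj, rfl⟩)
  have hY2 : (↑Y : Set (Fn (Sym2 (Fin n)))) ⊆ ↑M2 := fun g hg => by
    obtain ⟨j, h1, rfl⟩ := mem_image.1 hg
    exact hy3 j (mem_range.1 h1)
  set w := (W true).card + (W false).card + 4 with hw
  have hSc : ∀ c, (S c).card ≤ w := fun c => by have := hS c; cases c <;> omega
  have hin := fun c => Ext.many (A := M2) (s := 64 * (L + 4 + 1) ^ 2 * (3 * w))
    (W c ×ˢ range L) _ fun p hp =>
    (move ht hi (S := S c) (Q := Y) (D := L + 4) (by have := hS c; have := hn' (W c); omega) (hR c)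
      ((hG c p.1 (mem_product.1 hp).1).bit p.2) (bitf_cases _ _ _ _) hRY.2.2).mono
      (Nat.mul_le_mul_left _ (by have := hSc c; omega))
      (Set.union_subset (Set.union_subset (fun g hg => l2 (b1' c (Or.inl (Or.inl hg)))) hY2) (by
        rintro _ ⟨s, hs, rfl⟩
        exact l2 (b1' c (Or.inl (Or.inr ⟨_, (mem_product.1 hp).1, _,
          mem_range.1 (mem_product.1 hp).2, s, hs, rfl⟩))))) le_rfl
  obtain ⟨M3, l3, b3, c3⟩ := ((hin true).union (hin false)) _ M2 le_rfl c2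
  have h3 : ∀ c, ∀ i ∈ W c, ∀ l < L, ∀ j < r,
      (fun x => In m (bitf (F c) (W c) i l) x (y j x)) ∈ M3 := fun c i h1 l h2 j h3 => by
    have h4 := mem_image_of_mem y (mem_range.2 h3)
    cases c
    · exact b3 (Or.inr ⟨(i, l), by simp [h1, h2], _, h4, rfl⟩)
    · exact b3 (Or.inl ⟨(i, l), by simp [h1, h2], _, h4, rfl⟩)
  have hσ : ∀ i, σ i ≤ 2 * n := fun i => by simp only [σ]; split_ifs <;> omega
  obtain ⟨M4, l4, b4, c4⟩ := Ext.many (A := M3) (range (r - 1)) _ (fun j hjr =>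
    (interval hj hb (L + 4) (2 * n) L W Z (fun x => y (j + 1) x - y j x)
      (fun c x i => lab Fin.val (W c) (↑(F c) ∩ {e | x e ≤ y j x}) i)
      (fun x i => H {e | x e ≤ y j x} i) σ (fun c => by have := hn' (W c); omega)
      (fun x => sub_nonneg.2 (hy j (by have := mem_range.1 hjr; omega) x))
      (fun x c i h1 i' h2 h3 => lab_congr (((lab_eq_iff h1 h2).1 h3).mono (hsub c _)))
      (fun x c i h1 => ⟨lab_le (hΩ c h1) ReflTransGen.refl, hσ i⟩)
      (fun x c i h1 => by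
        obtain ⟨a, h2, h3, h4⟩ := lab_mem (σ := σ)
          (F := ↑(F true ∪ F false) ∩ {e | x e ≤ y j x}) (hΩ c h1)
        exact ⟨a, by rcases mem_union.1 h2 with h | h <;> exact ⟨_, h⟩, h4,
          hch _ a h2 i (hΩ c h1) h3.symm⟩) hZ
      (fun x i h1 => by
        have := lab_le (σ := Fin.val) (F := ↑(F true ∪ F false) ∩ {e | x e ≤ y j x}) h1
          ReflTransGen.refl
        have := i.2
        rw [hHZ _ i h1]; omega)).mono le_rfl (by
      have hjr' : j + 1 < r := by have := mem_range.1 hjr; omega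
      rintro _ (rfl | ⟨c, i, h1, rfl⟩)
      · exact l3 (M2.sub_mem (hy3 _ hjr') (hy3 _ (by omega)))
      · refine mem_of (M3.sum_mem (t := range L) fun l hl => M3.smul_mem ((2 : ℝ) ^ l)
          (M3.sub_mem (h3 c i h1 l (mem_range.1 hl) _ hjr')
            (h3 c i h1 l (mem_range.1 hl) j (by omega)))) fun x => ?_
        have e1 := lab_le (σ := Fin.val) (F := ↑(F c) ∩ {e | x e ≤ y j x}) h1 ReflTransGen.refl
        have e2 := i.2
        rw [← Nat.mod_eq_of_lt (show lab Fin.val (W c) (↑(F c) ∩ {e | x e ≤ y j x}) i < 2 ^ L by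
          omega), ← sum_bits, Finset.sum_apply, Nat.cast_sum, mul_sum]
        refine sum_congr rfl fun l _ => ?_
        simp only [Pi.smul_apply, Pi.sub_apply, smul_eq_mul]
        rw [sorted_step hi hy hRY (hGY _ fun ξ η h => by unfold bitf; rw [h c i h1]) hjr' x]
        unfold bitf
        rw [Nat.cast_mul, Nat.cast_pow, Nat.cast_ofNat]
        ring) le_rfl) _ M3 le_rfl c3
  have hGb : ∀ i ∈ Z, ∀ l, Grid m M Y (bitf (F true ∪ F false) Z i l) := fun i h1 l =>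
    hGY _ fun ξ η h => by unfold bitf; rw [← hHZ _ i h1, ← hHZ _ i h1, hH ξ η h i (hZ h1)]
  have h5 : ∀ i ∈ Z, ∀ l < L, ∀ j < r,
      (fun x => In m (bitf (F true ∪ F false) Z i l) x (y j x)) ∈ M4 := fun i h1 l h2 =>
    (sorted_mem hi hy hRY (hGb i h1 l) M4 fun j h3 =>
      b4 ⟨j, mem_range.2 (by omega), Or.inl ⟨i, h1, l, h2, by simp only [bitf, hHZ _ i h1]⟩⟩).1
  have h6 : ∀ i ∈ W true ∪ W false,
      (fun x => In m (fun ξ => indf (H ξ i = σ i)) x (M x)) ∈ M4 := fun i h1 =>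
    (sorted_mem hi hy hRY (hGY _ fun ξ η h => by rw [hH ξ η h i h1]) M4 fun j h3 =>
      b4 ⟨j, mem_range.2 (by omega), Or.inr ⟨i, h1, rfl⟩⟩).2
  have l14 : M1 ≤ M4 := l2.trans (l3.trans l4)
  have hS4 : (↑(insert m (insert M (Z.image β))) : Set (Fn (Sym2 (Fin n)))) ⊆ ↑M4 := fun g hg => by
    simp only [coe_insert, Set.mem_insert_iff, coe_image, Set.mem_image, mem_coe] at hg
    rcases hg with rfl | rfl | ⟨i, h1, rfl⟩
    · exact l14 (l1 (hA0 (by simp)))
    · exact l14 (l1 (hA0 (by simp)))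
    · refine mem_of (M4.add_mem (l14 (l1 (hA0 (Or.inl rfl)))) (h6 i (hZ h1))) fun x => ?_
      simp only [β, Pi.add_apply, hHZ _ i h1, σ, h1, if_true]
  generalize insert m (insert M (Z.image β)) = S' at hS' hR' hG' hS4 ⊢
  have z1 : Z.card ≤ (W true).card + (W false).card :=
    (card_le_card hZ).trans (card_union_le _ _)
  obtain ⟨M5, l5, b5, c5⟩ := Ext.many (A := M4) (s := 64 * (L + 4 + 1) ^ 2 * (3 * w))
    (Z ×ˢ range L) _ (fun p hp =>
    (move ht hi (S := Y) (Q := S') (D := L + 4) (by have := hn' Z; omega) hRY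
      (hGb p.1 (mem_product.1 hp).1 p.2) (bitf_cases _ _ _ _) hR'.2.2).mono
      (Nat.mul_le_mul_left _ (by omega))
      (Set.union_subset (Set.union_subset (fun g hg => l4 (l3 (hY2 hg))) hS4) (by
        rintro _ ⟨s, hs, rfl⟩
        obtain ⟨j, h1, rfl⟩ := mem_image.1 hs
        exact h5 _ (mem_product.1 hp).1 _ (mem_range.1 (mem_product.1 hp).2) j
          (mem_range.1 h1))) le_rfl) _ M4 le_rfl c4
  refine ⟨M5, l1.trans (l14.trans l5), ?_, c5.mono ?_⟩
  · rintro g ((hg | ⟨i, h1, l, h2, s, h3, rfl⟩) | rfl)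
    · exact l5 (hS4 hg)
    · exact b5 ⟨(i, l), by simp [h1, h2], s, h3, rfl⟩
    · refine l5 (mem_of (M4.add_mem (M4.add_mem (l14 (b1' true (Or.inr rfl)))
        (l14 (b1' false (Or.inr rfl)))) (M4.sum_mem (t := (W true ∪ W false) \ Z) fun i h1 =>
          h6 i (mem_sdiff.1 h1).1)) fun x => ?_)
      simp only [Pi.add_apply, Finset.sum_apply, ← (hi _ m).2.2.2.1, ← (hi _ m).2.2.1]
      congr 1
      funext ξ
      rw [hu, (hcn ξ).2 Z σ hZ (fun a b h => ?_) fun a h1 b h2 => ?_]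
      · simp only [indf, H, hu, sum_boole]
        push_cast
        congr
      · simp only [σ] at h
        split_ifs at h <;> omega
      · simp only [σ, h1, h2, if_true, if_false]
        omega
  · simp only [card_product, card_range]
    have e1 : (S true ∪ S false).card ≤ w * w := by nlinarith
    have e2 : (r - 1) * ((W true).card + (W false).card) ≤ 2 * (w * w) := by
      rw [← mul_assoc]; exact Nat.mul_le_mul (by omega) (by omega)
    have e3 : (W true).card * w + (W false).card * w + Z.card * w ≤ 2 * (w * w) := by nlinarith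
    generalize (S true ∪ S false).card = a at e1
    generalize hd : L + 5 = d
    have e4 : L ≤ d := by omega
    have e5 : 1 ≤ d := by omega
    have e6 : d ^ 2 ≤ d ^ 3 := Nat.pow_le_pow_right e5 (by omega)
    have e7 : d ≤ d ^ 3 := by nlinarith
    have e8 : L * d ^ 2 ≤ d ^ 3 := by nlinarith
    have f1 := Nat.mul_le_mul e6 e1
    have f2 := Nat.mul_le_mul (show 56 * d ^ 2 + 4 * L + 2 ≤ 62 * d ^ 3 by omega) e2
    have f3 := Nat.mul_le_mul e8 e3
    nlinarith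

end Pool.Agent.Lib.MP_234305_co.V33
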