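import Pool.Agent.Lib.MP_234305_co.V33.RepB

/-! Induction over the decomposition and the two polytopes. -/

open Finset Relation
open scoped Classical Pointwise

namespace Pool.Agent.Lib.MP_234305_co.V33

variable {n : ℕ} {F : Finset (Sym2 (Fin n))} {U W : Finset (Fin n)} {k : ℕ}

theorem Dec.inv (h : Dec F U W k) : (∀ e ∈ F, ∀ v ∈ e, v ∈ U) ∧ W ⊆ U ∧ F.card ≤ k := by
  induction h with
  | nil W => simp
  | edge u v => simp
  | join _ _ _ h4 ih1 ih2 =>
    refine ⟨fun e he v hv => ?_, h4.trans (union_subset_union ih1.2.1 ih2.2.1),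
      (card_union_le _ _).trans (by omega)⟩
    rcases mem_union.1 he with he | he
    exacts [mem_union_left _ (ih1.1 e he v hv), mem_union_right _ (ih2.1 e he v hv)]
  | mono _ h ih => exact ⟨ih.1, ih.2.1, ih.2.2.trans h⟩

theorem fre_self (W : Finset (Fin n)) (X : Set (Sym2 (Fin n))) : fre W W X = 0 := by
  unfold fre
  rw [filter_false_of_mem fun v hv h => h v hv ReflTransGen.refl]
  rfl

/-- A region all of whose vertices are exported and whose edges change only at `z`. -/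
theorem leaf (hi : IntStmt) {m M : Fn (Sym2 (Fin n))} {L : ℕ} (z : Fn (Sym2 (Fin n)))
    (S : Finset (Fn (Sym2 (Fin n)))) (hS : ∀ s, s ∈ S ↔ s = m ∨ s = z ∨ s = M)
    (hc : S.card ≤ W.card + 2) (h1 : m ≤ z) (h2 : z ≤ M) (X Y : Set (Sym2 (Fin n)))
    (hX : ∀ x t, t < z x → ↑F ∩ {e | x e ≤ t} = X) (hY : ∀ x t, z x ≤ t → ↑F ∩ {e | x e ≤ t} = Y)
    (hz : ∀ N : Submodule ℝ (Fn (Sym2 (Fin n))), m ∈ N → (∀ e, (fun x => x e) ∈ N) → z ∈ N) :
    Rep m M L F W W k := by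
  refine ⟨S, hc, ⟨fun x => ⟨m, by simp [hS], rfl⟩, fun x => ⟨M, by simp [hS], rfl⟩, fun s hs => ?_⟩,
    fun i _ x a t _ h4 _ h6 => ?_, Ext.of_mem fun N hN h0 => ?_⟩
  · rcases (hS s).1 hs with rfl | rfl | rfl
    exacts [⟨le_rfl, h1.trans h2⟩, ⟨h1, h2⟩, ⟨h1.trans h2, le_rfl⟩]
  · rcases h6 z (by simp [hS]) with h | h
    · simp only [hY x a h, hY x t (h.trans h4)]
    · simp only [hX x t h, hX x a (h4.trans_lt h)]
  have hm : m ∈ N := hN (by simp)
  have hM : M ∈ N := hN (by simp)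
  have hz' := hz N hm h0
  rintro g ((hg | ⟨i, -, l, -, s, hs, rfl⟩) | rfl)
  · rcases (hS g).1 hg with rfl | rfl | rfl <;> assumption
  · have e1 := fun x => (hi _ m).1 (bitf F W i l) x _ _ ((lab Fin.val W X i / 2 ^ l % 2 : ℕ) : ℝ)
      (h1 x) fun t _ h => by unfold bitf; rw [hX x t h]
    have e2 := fun x => (hi _ m).1 (bitf F W i l) x _ _ ((lab Fin.val W Y i / 2 ^ l % 2 : ℕ) : ℝ)
      (h2 x) fun t h _ => by unfold bitf; rw [hY x t h]
    simp only [In_zero] at e1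
    have f1 := N.smul_mem ((lab Fin.val W X i / 2 ^ l % 2 : ℕ) : ℝ) (N.sub_mem hz' hm)
    have f2 := N.smul_mem ((lab Fin.val W Y i / 2 ^ l % 2 : ℕ) : ℝ) (N.sub_mem hM hz')
    rcases (hS s).1 hs with rfl | rfl | rfl
    · exact mem_of N.zero_mem fun x => In_zero x
    · exact mem_of f1 fun x => by
        simp only [Pi.smul_apply, Pi.sub_apply, smul_eq_mul]; linarith [e1 x]
    · exact mem_of (N.add_mem f1 f2) fun x => by
        simp only [Pi.add_apply, Pi.smul_apply, Pi.sub_apply, smul_eq_mul]; linarith [e1 x, e2 x]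
  · exact mem_of N.zero_mem fun x => by simp [In, fre_self]

theorem Rep.mono {m M : Fn (Sym2 (Fin n))} {L k' : ℕ} (h : Rep m M L F U W k) (hk : k ≤ k') :
    Rep m M L F U W k' := by
  obtain ⟨S, a, b, c, d⟩ := h
  exact ⟨S, a, b, c, d.mono hk le_rfl le_rfl⟩

theorem Dec.rep (hn : NetStmt) (ht : TransferStmt) (hj : JoinStmt) (hb : BitStmt) (hi : IntStmt)
    (hc : CountStmt) {m M : Fn (Sym2 (Fin n))} (hm : m ≤ M) {L : ℕ} (hL : n ≤ 2 ^ L)
    (h : Dec F U W k) (hF : ∀ e ∈ F, ∀ x, m x ≤ x e ∧ x e ≤ M x) :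
    Rep m M L F U W (700 * (L + 5) ^ 3 * k) := by
  induction h with
  | nil W =>
    exact leaf hi m {m, M} (by simp) (card_le_two.trans (by omega)) le_rfl hm ∅ ∅ (by simp)
      (by simp) fun _ h _ => h
  | edge u v =>
    refine leaf hi (fun x => x s(u, v)) {m, fun x => x s(u, v), M} (by simp)
      (card_le_three.trans ?_) (fun x => (hF _ (by simp) x).1) (fun x => (hF _ (by simp) x).2)
      ∅ {s(u, v)} (fun x t h => ?_) (fun x t h => ?_) fun _ _ h => h _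
    · have : 0 < ({u, v} : Finset (Fin n)).card := card_pos.2 ⟨u, by simp⟩
      omega
    · simpa using h
    · simpa using h
  | @join F₁ F₂ U₁ U₂ W₁ W₂ W k₁ k₂ d1 d2 h3 h4 ih1 ih2 =>
    refine (step hn ht hj hb hi hc hm hL (fun c => cond c F₁ F₂) (fun c => cond c U₁ U₂)
      (fun c => cond c W₁ W₂) W (fun c => 700 * (L + 5) ^ 3 * cond c k₁ k₂) (fun c => ?_)
      (fun c => ?_) h3 h4 fun c => ?_).mono (le_of_eq (by simp only [cond]; ring))
    · cases c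
      exacts [d2.inv.1, d1.inv.1]
    · cases c
      exacts [d2.inv.2.1, d1.inv.2.1]
    · cases c
      exacts [ih2 fun e he => hF e (mem_union_right _ he), ih1 fun e he => hF e (mem_union_left _ he)]
  | mono _ h ih => exact (ih hF).mono (Nat.mul_le_mul_left _ h)

theorem exists_bounds {E : Type} (F : Finset E) : ∃ m M : Fn E, m ≤ M ∧
    (∀ e ∈ F, ∀ x, m x ≤ x e ∧ x e ≤ M x) ∧ Ext (4 * F.card) ∅ {m, M} := by
  induction F using Finset.induction_on with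
  | empty => exact ⟨0, 0, le_rfl, by simp, Ext.of_mem fun N _ _ => by simp⟩
  | insert a F ha ih =>
    obtain ⟨m, M, h1, h2, h3⟩ := ih
    refine ⟨m ⊓ fun x => x a, M ⊔ fun x => x a, inf_le_left.trans (h1.trans le_sup_left),
      fun e he x => ?_, fun t N hN c => ?_⟩
    · rcases mem_insert.1 he with rfl | he
      · simp
      · simp [h2 e he x]
    · obtain ⟨N1, l1, b1, c1⟩ := h3 t N hN c
      obtain ⟨N2, l2, b2, c2⟩ := ext_inf m (fun x => x a) _ N1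
        (by rintro _ (rfl | rfl); exacts [b1 (by simp), c1.1 a]) c1
      obtain ⟨N3, l3, b3, c3⟩ := ext_inf M (fun x => x a) _ N2
        (by rintro _ (rfl | rfl); exacts [l2 (b1 (by simp)), c2.1 a]) c2
      refine ⟨N3, l1.trans (l2.trans l3), ?_, c3.mono ?_⟩
      · rintro _ (rfl | rfl)
        exacts [l3 (b2 (by simp)), b3 (by simp)]
      · rw [card_insert_of_notMem ha]; omega

theorem of_dec (hn : NetStmt) (ht : TransferStmt) (hj : JoinStmt) (hb : BitStmt) (hi : IntStmt)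
    (hc : CountStmt) (hd : DualStmt) (hs : MstStmt) (G : SimpleGraph (Fin n)) (hG : G.Connected)
    (v : Fin n) (h : Dec (ed G univ) univ {v} k) :
    ∃ Q R : Set (Sym2 (Fin n) → ℝ), Q.Nonempty ∧ Bornology.IsBounded Q ∧
      convexHull ℝ {x : Sym2 (Fin n) → ℝ | ∃ T : SimpleGraph (Fin n),
        T ≤ G ∧ T.IsTree ∧ x = T.edgeSet.indicator (fun _ => (1 : ℝ))} + Q = R ∧
      ∀ S, S = Q ∨ S = R → ∃ j ≤ 200000 * (Nat.log 2 n + 1) ^ 3 * k, XC S j := by
  obtain ⟨m, M, h1, h2, h3⟩ := exists_bounds (ed G univ)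
  obtain ⟨S, -, -, -, h4⟩ := h.rep hn ht hj hb hi hc h1 (L := Nat.log 2 n + 1)
    (Nat.lt_pow_succ_log_self (by norm_num) n).le h2
  obtain ⟨N0, c0⟩ := can_zero (E := Sym2 (Fin n))
  obtain ⟨N1, -, b1, c1⟩ := h3 0 N0 (by simp) c0
  obtain ⟨N2, l2, b2, c2⟩ := h4 _ N1 b1 c1
  have he : (↑(ed G univ) : Set (Sym2 (Fin n))) = G.edgeSet := by ext e; simp [ed]
  obtain ⟨Q, R, q1, q2, q3, q4, q5⟩ := hd _ _ N2 _ {x : Sym2 (Fin n) → ℝ | ∃ T : SimpleGraph (Fin n),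
      T ≤ G ∧ T.IsTree ∧ x = T.edgeSet.indicator (fun _ => (1 : ℝ))} c2
    (N2.add_mem (N2.smul_mem ((n : ℝ) - 1) (l2 (b1 (Or.inl rfl)))) (b2 (Or.inr rfl)))
    ((Set.finite_range fun T : SimpleGraph (Fin n) => T.edgeSet.indicator fun _ => (1 : ℝ)).subset
      (by rintro _ ⟨T, -, -, rfl⟩; exact ⟨T, rfl⟩)) fun x => by
      have := hs n G v x (m x) (M x) hG (h1 x) fun e h => h2 e (by simp [ed, h]) x
      convert this using 1
      · ext a
        exact ⟨fun ⟨_, ⟨T, a1, a2, a3⟩, a4⟩ => ⟨T, a1, a2, a3 ▸ a4⟩,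
          fun ⟨T, a1, a2, a3⟩ => ⟨_, ⟨T, a1, a2, rfl⟩, a3⟩⟩
      · simp [In, he]
  have hk : 0 + 4 * (ed G univ).card + 700 * (Nat.log 2 n + 1 + 5) ^ 3 * k ≤
      200000 * (Nat.log 2 n + 1) ^ 3 * k := by
    have e1 := h.inv.2.2
    generalize Nat.log 2 n = l
    have e2 : (l + 1 + 5) ^ 3 ≤ (6 * (l + 1)) ^ 3 := Nat.pow_le_pow_left (by omega) 3
    have e3 : 1 ≤ (l + 1) ^ 3 := Nat.one_le_pow _ _ (by omega)
    rw [mul_pow] at e2
    nlinarith [Nat.mul_le_mul_right k e2, Nat.mul_le_mul_right k e3]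
  refine ⟨Q, R, q1, q2, q3, ?_⟩
  rintro _ (rfl | rfl)
  · obtain ⟨j, a, b⟩ := q4; exact ⟨j, a.trans hk, b⟩
  · obtain ⟨j, a, b⟩ := q5; exact ⟨j, a.trans hk, b⟩

end Pool.Agent.Lib.MP_234305_co.V33
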